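import Pool.Agent.ECF.StA

/-!
# ECF, module BLO: Bloch's theorem with a weak constant
-/

set_option autoImplicit false

open Complex Polynomial Metric Set

namespace Pool.Agent.ECF

theorem thm_BLO : St_BLO := by
  intro f z0 R0 hR0 hf
  rcases eq_or_ne (deriv f z0) 0 with hz0 | hz0
  · refine ⟨0, ?_⟩
    rw [hz0, norm_zero, mul_zero, zero_div, ball_zero]
    exact empty_subset _
  have hA : 0 < ‖deriv f z0‖ := norm_pos_iff.2 hz0
  set A := ‖deriv f z0‖ with hAdef
  have hO : IsOpen (ball z0 R0) := isOpen_ball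
  have hdf : DifferentiableOn ℂ (deriv f) (ball z0 R0) := hf.deriv hO
  set R : ℝ := R0 / 2 with hR
  have hRpos : 0 < R := by positivity
  have hsub : closedBall z0 R ⊆ ball z0 R0 := closedBall_subset_ball (by rw [hR]; linarith)
  set M : ℂ → ℝ := fun z => (R - ‖z - z0‖) * ‖deriv f z‖ with hM
  have hMc : ContinuousOn M (closedBall z0 R) := by
    have h1 : ContinuousOn (deriv f) (closedBall z0 R) := (hdf.mono hsub).continuousOn
    have h2 : ContinuousOn (fun z : ℂ => R - ‖z - z0‖) (closedBall z0 R) := by fun_prop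
    exact h2.mul h1.norm
  obtain ⟨p, hpmem, hpmax⟩ := (isCompact_closedBall z0 R).exists_isMaxOn
    ⟨z0, mem_closedBall_self hRpos.le⟩ hMc
  have hMp : R * A ≤ M p := by
    have := hpmax (mem_closedBall_self hRpos.le : z0 ∈ closedBall z0 R)
    simpa [hM] using this
  have hpR : ‖p - z0‖ ≤ R := by simpa [dist_eq_norm] using hpmem
  set B := ‖deriv f p‖ with hB
  have hMpB : M p = (R - ‖p - z0‖) * B := rfl
  have hRA : 0 < R * A := by positivity
  have hB0 : 0 < B := by
    rcases (norm_nonneg (deriv f p)).eq_or_lt with h | h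
    · exfalso
      have : M p = 0 := by rw [hMpB, hB, ← h, mul_zero]
      linarith
    · exact h
  have hgap : 0 < R - ‖p - z0‖ := by
    by_contra hcon
    push Not at hcon
    have : M p ≤ 0 := by
      rw [hMpB]; exact mul_nonpos_of_nonpos_of_nonneg hcon hB0.le
    linarith
  set t : ℝ := (R - ‖p - z0‖) / 2 with ht
  have htpos : 0 < t := by positivity
  have hgt : R - ‖p - z0‖ = 2 * t := by rw [ht]; ring
  have hpt : ball p t ⊆ closedBall z0 R := by
    intro z hz
    have hz' : ‖z - p‖ < t := by simpa [dist_eq_norm] using hz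
    have h1 : ‖z - z0‖ ≤ ‖z - p‖ + ‖p - z0‖ := norm_sub_le_norm_sub_add_norm_sub z p z0
    rw [mem_closedBall, dist_eq_norm]; linarith
  have hpt0 : ball p t ⊆ ball z0 R0 := hpt.trans hsub
  have hbound : ∀ z ∈ ball p t, ‖deriv f z‖ ≤ 2 * B := by
    intro z hz
    have hz' : ‖z - p‖ < t := by simpa [dist_eq_norm] using hz
    have h1 : ‖z - z0‖ ≤ ‖z - p‖ + ‖p - z0‖ := norm_sub_le_norm_sub_add_norm_sub z p z0
    have h2 : t ≤ R - ‖z - z0‖ := by linarith
    have h4 : M z ≤ M p := hpmax (hpt hz)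
    have h5 : t * ‖deriv f z‖ ≤ M z := mul_le_mul_of_nonneg_right h2 (norm_nonneg _)
    rw [hMpB, hgt] at h4
    have h6 : t * ‖deriv f z‖ ≤ t * (2 * B) := by linarith
    exact le_of_mul_le_mul_left h6 htpos
  have hmaps : MapsTo (deriv f) (ball p t) (closedBall (deriv f p) (3 * B)) := by
    intro z hz
    rw [mem_closedBall, dist_eq_norm]
    calc ‖deriv f z - deriv f p‖ ≤ ‖deriv f z‖ + ‖deriv f p‖ := norm_sub_le _ _
      _ ≤ 3 * B := by linarith [hbound z hz]
  have hschw : ∀ z ∈ ball p t, dist (deriv f z) (deriv f p) ≤ 3 * B / t * dist z p := by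
    intro z hz
    exact Complex.dist_le_div_mul_dist_of_mapsTo_ball (hdf.mono hpt0) hmaps hz
  have hsub6 : closedBall p (t / 6) ⊆ ball p t := closedBall_subset_ball (by linarith)
  have hbd : ∀ x ∈ closedBall p (t / 6), ‖deriv f x - deriv f p‖ ≤ B / 2 := by
    intro x hx
    have hx' : dist x p ≤ t / 6 := hx
    have := hschw x (hsub6 hx)
    rw [dist_eq_norm (deriv f x)] at this
    calc ‖deriv f x - deriv f p‖ ≤ 3 * B / t * dist x p := this
      _ ≤ 3 * B / t * (t / 6) := by gcongr
      _ = B / 2 := by field_simp; ring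
  have hfd : ∀ x ∈ ball p t, HasDerivAt f (deriv f x) x := fun x hx =>
    (hf.differentiableAt (hO.mem_nhds (hpt0 hx))).hasDerivAt
  -- linear approximation on the closed ball of radius `t/6`
  have hlin : ∀ z ∈ closedBall p (t / 6), ‖f z - f p - deriv f p * (z - p)‖ ≤ B * t / 12 := by
    intro z hz
    have hd : ∀ x ∈ closedBall p (t / 6),
        HasDerivWithinAt (fun w => f w - deriv f p * w) (deriv f x - deriv f p)
          (closedBall p (t / 6)) x := by
      intro x hx
      have h1 := hfd x (hsub6 hx)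
      have h2 : HasDerivAt (fun w => deriv f p * w) (deriv f p) x := by
        simpa using (hasDerivAt_id x).const_mul (deriv f p)
      exact (h1.sub h2).hasDerivWithinAt
    have hmv := (convex_closedBall p (t / 6)).norm_image_sub_le_of_norm_hasDerivWithin_le
      hd hbd (mem_closedBall_self (by positivity)) hz
    have hzp : ‖z - p‖ ≤ t / 6 := by simpa [dist_eq_norm] using hz
    calc ‖f z - f p - deriv f p * (z - p)‖
        = ‖(f z - deriv f p * z) - (f p - deriv f p * p)‖ := by congr 1; ring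
      _ ≤ B / 2 * ‖z - p‖ := hmv
      _ ≤ B / 2 * (t / 6) := by gcongr
      _ = B * t / 12 := by ring
  have hsph : ∀ z ∈ sphere p (t / 6), B * t / 12 ≤ ‖f z - f p‖ := by
    intro z hz
    have hz1 := hlin z (sphere_subset_closedBall hz)
    have hz2 : ‖z - p‖ = t / 6 := by simpa [dist_eq_norm] using hz
    have h3 : ‖deriv f p * (z - p)‖ = B * t / 6 := by rw [norm_mul, hz2]; ring
    have h4 : ‖deriv f p * (z - p)‖ ≤ ‖f z - f p‖ + ‖f z - f p - deriv f p * (z - p)‖ := by
      have := norm_sub_le (f z - f p) (f z - f p - deriv f p * (z - p))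
      simpa using this
    linarith
  have hfreq : ∃ᶠ z in nhds p, f z ≠ f p := by
    have hne : deriv f p ≠ 0 := norm_pos_iff.1 hB0
    have h1 : ∀ᶠ z in nhdsWithin p {p}ᶜ, f z ≠ f p :=
      (hfd p (mem_ball_self htpos)).eventually_ne hne
    exact h1.frequently.filter_mono nhdsWithin_le_nhds
  have hdc : DiffContOnCl ℂ f (ball p (t / 6)) := by
    refine (hf.mono ?_).diffContOnCl
    rw [closure_ball p (by positivity)]
    exact hsub6.trans hpt0
  have himg := hdc.ball_subset_image_closedBall (by positivity) hsph hfreq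
  refine ⟨f p, fun v hv => ?_⟩
  have hrad : R0 * A / 100 ≤ B * t / 12 / 2 := by
    have h1 : R * A ≤ 2 * t * B := by rw [← hgt, ← hMpB]; exact hMp
    have h2 : R * A = R0 * A / 2 := by rw [hR]; ring
    nlinarith
  obtain ⟨z, hz, hzv⟩ := himg (ball_subset_ball hrad hv)
  exact ⟨z, hpt0 (hsub6 hz), hzv⟩

end Pool.Agent.ECF
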