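import Pool.Agent.ECF.StA

/-!
# ECF, module BR: the inverse branch of a polynomial at infinity
-/

set_option autoImplicit false

open Complex Polynomial Metric

namespace Pool.Agent.ECF

namespace BRx

/-- `P (exp x) = c (exp x)^d (1 + E x)` -/
noncomputable def E (P : ℂ[X]) (x : ℂ) : ℂ := P.reverse.eval (exp (-x)) / P.leadingCoeff - 1

theorem eq_E (P : ℂ[X]) (hP : P.leadingCoeff ≠ 0) (x : ℂ) :
    P.eval (exp x) = P.leadingCoeff * exp x ^ P.natDegree * (1 + E P x) := by
  have h0 : exp x ≠ 0 := exp_ne_zero x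
  letI : Invertible (exp x) := invertibleOfNonzero h0
  have h1 := Polynomial.eval₂_reverse_mul_pow (RingHom.id ℂ) (exp x) P
  have h2 : (⅟(exp x) : ℂ) = exp (-x) := by rw [invOf_eq_inv, exp_neg]
  rw [h2] at h1
  simp only [Polynomial.eval₂_id] at h1
  rw [← h1]
  unfold E
  field_simp
  ring

theorem E_diff (P : ℂ[X]) : Differentiable ℂ (E P) := by
  unfold E
  have h1 : Differentiable ℂ (fun w : ℂ => P.reverse.eval w) := P.reverse.differentiable
  have h2 : Differentiable ℂ (fun x : ℂ => exp (-x)) := by fun_prop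
  exact ((h1.comp h2).div_const _).sub_const 1

theorem E_small (P : ℂ[X]) (hP : P.leadingCoeff ≠ 0) :
    ∃ L0 : ℝ, ∀ x : ℂ, L0 < x.re → ‖E P x‖ ≤ 1 / 4 := by
  have h1 : ContinuousAt (fun w : ℂ => P.reverse.eval w / P.leadingCoeff - 1) 0 := by
    have h := P.reverse.continuous
    exact ((h.div_const _).sub continuous_const).continuousAt
  have h2 : P.reverse.eval 0 / P.leadingCoeff - 1 = 0 := by
    rw [← Polynomial.coeff_zero_eq_eval_zero, Polynomial.coeff_zero_reverse, div_self hP, sub_self]
  obtain ⟨δ, hδ, h3⟩ := Metric.continuousAt_iff.1 h1 (1 / 4) (by norm_num)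
  refine ⟨-Real.log δ, fun x hx => ?_⟩
  have h4 := @h3 (exp (-x)) (by
    rw [dist_zero_right, Complex.norm_exp, Complex.neg_re, ← Real.lt_log_iff_exp_lt hδ]
    linarith)
  rw [h2, dist_zero_right] at h4
  exact h4.le

/-- the perturbation -/
noncomputable def eta (P : ℂ[X]) (x : ℂ) : ℂ := Complex.log (1 + E P x) / P.natDegree

theorem eta_norm (P : ℂ[X]) (hd : 1 ≤ P.natDegree) (x : ℂ) (h : ‖E P x‖ ≤ 1 / 4) :
    ‖eta P x‖ ≤ 1 / 2 := by
  unfold eta
  have h1 := Complex.norm_log_one_add_half_le_self (z := E P x) (by linarith)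
  have h2 : (1 : ℝ) ≤ P.natDegree := by exact_mod_cast hd
  rw [norm_div, Complex.norm_natCast]
  have h3 := div_le_self (norm_nonneg (Complex.log (1 + E P x))) h2
  linarith

theorem eta_diffAt (P : ℂ[X]) (x : ℂ) (h : ‖E P x‖ ≤ 1 / 4) :
    DifferentiableAt ℂ (eta P) x := by
  unfold eta
  have h1 : 1 + E P x ∈ slitPlane := Complex.mem_slitPlane_of_norm_lt_one (by linarith)
  exact (((E_diff P x).const_add 1).clog h1).div_const _

theorem eta_exp (P : ℂ[X]) (hd : 1 ≤ P.natDegree) (x : ℂ) (h : ‖E P x‖ ≤ 1 / 4) :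
    exp (P.natDegree * eta P x) = 1 + E P x := by
  have h1 : 1 + E P x ∈ slitPlane := Complex.mem_slitPlane_of_norm_lt_one (by linarith)
  have h2 : (P.natDegree : ℂ) ≠ 0 := by
    have : P.natDegree ≠ 0 := by omega
    exact_mod_cast this
  unfold eta
  rw [mul_div_cancel₀ _ h2, exp_log (slitPlane_ne_zero h1)]

theorem exp_tpi (x : ℂ) : exp (x + tpi) = exp x := by
  unfold tpi
  rw [exp_add, exp_two_pi_mul_I, mul_one]

theorem eta_per (P : ℂ[X]) (x : ℂ) : eta P (x + tpi) = eta P x := by
  unfold eta E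
  have h : exp (-(x + tpi)) = exp (-x) := by
    rw [exp_neg, exp_neg, exp_tpi]
  rw [h]

end BRx

open BRx in
/-- **BR** -/
theorem thm_BR (h1 : St_INV) : St_BR := by
  intro P hd
  have hP0 : P ≠ 0 := by
    rintro rfl
    simp at hd
  have hc : P.leadingCoeff ≠ 0 := leadingCoeff_ne_zero.2 hP0
  obtain ⟨L0, hL0⟩ := E_small P hc
  have hdR : (1 : ℝ) ≤ P.natDegree := by exact_mod_cast hd
  have hdR0 : (0 : ℝ) < P.natDegree := by linarith
  have hdC : (P.natDegree : ℂ) ≠ 0 := by
    have : P.natDegree ≠ 0 := by omega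
    exact_mod_cast this
  have hderiv : ∀ x ∈ Hp (L0 + 1), ‖deriv (eta P) x‖ ≤ 1 / 2 := by
    intro x hx
    have hx' : L0 + 1 < x.re := hx
    have hsub : closedBall x 1 ⊆ Hp L0 := by
      intro z hz
      rw [mem_closedBall, dist_eq_norm] at hz
      have h2 := (Complex.abs_re_le_norm (z - x)).trans hz
      rw [Complex.sub_re] at h2
      have h3 := (abs_le.1 h2).1
      show L0 < z.re
      linarith
    have h2 : DiffContOnCl ℂ (eta P) (ball x 1) := by
      apply DifferentiableOn.diffContOnCl
      intro z hz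
      exact (eta_diffAt P z (hL0 z (hsub (closure_ball_subset_closedBall hz)))).differentiableWithinAt
    have h3 := Complex.norm_deriv_le_of_forall_mem_sphere_norm_le one_pos h2 (C := 1 / 2)
      (fun z hz => eta_norm P hd z (hL0 z (hsub (sphere_subset_closedBall hz))))
    simpa using h3
  have hmem : ∀ x ∈ Hp (L0 + 1), L0 < x.re := fun x hx => by
    have hx' : L0 + 1 < x.re := hx
    linarith
  obtain ⟨hinj, g, hg1, hg2⟩ := h1 (eta P) (L0 + 1)
    (fun x hx => (eta_diffAt P x (hL0 x (hmem x hx))).differentiableWithinAt)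
    (fun x hx => eta_norm P hd x (hL0 x (hmem x hx))) hderiv
  set c := P.leadingCoeff with hcd
  set d := P.natDegree with hdd
  -- the affine map
  have hz : ∀ y ∈ Hp (d * (L0 + 1 + 1) + (Complex.log c).re), (y - Complex.log c) / d ∈ Hp (L0 + 1 + 1) := by
    intro y hy
    have hy' : d * (L0 + 1 + 1) + (Complex.log c).re < y.re := hy
    show L0 + 1 + 1 < ((y - Complex.log c) / d).re
    rw [← Complex.ofReal_natCast, Complex.div_ofReal_re, Complex.sub_re, lt_div_iff₀ hdR0]
    linarith
  refine ⟨d * (L0 + 1 + 1) + (Complex.log c).re, fun y => exp (g ((y - Complex.log c) / d)),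
    ⟨?_, ?_, ?_, ?_⟩⟩
  · have h2 : DifferentiableOn ℂ (fun y : ℂ => (y - Complex.log c) / d)
        (Hp (d * (L0 + 1 + 1) + (Complex.log c).re)) := by fun_prop
    exact (hg1.comp h2 hz).cexp
  · intro y hy
    obtain ⟨h2, h3⟩ := hg2 _ (hz y hy)
    show P.eval (exp (g ((y - Complex.log c) / d))) = exp y
    rw [eq_E P hc, ← hcd, ← hdd, ← eta_exp P hd _ (hL0 _ (hmem _ h2)), ← hdd, ← Complex.exp_nat_mul]
    nth_rewrite 1 [← exp_log hc]
    rw [← exp_add, ← exp_add]
    congr 1
    have h4 : (d : ℂ) * (g ((y - Complex.log c) / d) + eta P (g ((y - Complex.log c) / d))) =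
        y - Complex.log c := by
      rw [h3]
      field_simp
    linear_combination h4
  · intro y hy
    have hzy := hz y hy
    have e1 : (y + tpi * d - Complex.log c) / d = (y - Complex.log c) / d + tpi := by
      field_simp
      ring
    have htpi : tpi.re = 0 := by simp [tpi]
    have hzy' : (y - Complex.log c) / d + tpi ∈ Hp (L0 + 1 + 1) := by
      show L0 + 1 + 1 < ((y - Complex.log c) / d + tpi).re
      rw [Complex.add_re, htpi, add_zero]
      exact hzy
    obtain ⟨h2, h3⟩ := hg2 _ hzy
    obtain ⟨h2', h3'⟩ := hg2 _ hzy'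
    have h4 : g ((y - Complex.log c) / d + tpi) = g ((y - Complex.log c) / d) + tpi := by
      apply hinj h2'
      · show L0 + 1 < (g ((y - Complex.log c) / d) + tpi).re
        rw [Complex.add_re, htpi, add_zero]
        exact h2
      · show g ((y - Complex.log c) / d + tpi) + eta P (g ((y - Complex.log c) / d + tpi)) =
          g ((y - Complex.log c) / d) + tpi + eta P (g ((y - Complex.log c) / d) + tpi)
        rw [h3', eta_per]
        nth_rewrite 1 [← h3]
        ring
    show exp (g ((y + tpi * d - Complex.log c) / d)) = exp (g ((y - Complex.log c) / d))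
    rw [e1, h4, exp_tpi]
  · intro L' hL'
    refine ⟨Real.exp (|L0| + |L'| + |(Complex.log c).re| + 3), fun s hs => ?_⟩
    have hs0 : 0 < ‖s‖ := lt_trans (Real.exp_pos _) hs
    have hs1 : s ≠ 0 := norm_pos_iff.1 hs0
    have hlog : |L0| + |L'| + |(Complex.log c).re| + 3 < Real.log ‖s‖ :=
      (Real.lt_log_iff_exp_lt hs0).2 hs
    have hre : (Complex.log s).re = Real.log ‖s‖ := Complex.log_re s
    have b1 := le_abs_self L0
    have b2 := le_abs_self L'
    have b3 := neg_abs_le (Complex.log c).re
    have b4 := abs_nonneg L'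
    have b5 := abs_nonneg (Complex.log c).re
    have b6 := abs_nonneg L0
    have hx : Complex.log s ∈ Hp (L0 + 1) := by
      show L0 + 1 < (Complex.log s).re
      rw [hre]
      linarith
    have heta := eta_norm P hd _ (hL0 _ (hmem _ hx))
    have heta' := (abs_le.1 ((Complex.abs_re_le_norm _).trans heta)).1
    have hy : L' < ((d : ℂ) * (Complex.log s + eta P (Complex.log s)) + Complex.log c).re := by
      rw [Complex.add_re, ← Complex.ofReal_natCast, Complex.re_ofReal_mul, Complex.add_re, hre]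
      have h2 : |L'| + |(Complex.log c).re| ≤ Real.log ‖s‖ + (eta P (Complex.log s)).re := by linarith
      have h3 : Real.log ‖s‖ + (eta P (Complex.log s)).re ≤
          d * (Real.log ‖s‖ + (eta P (Complex.log s)).re) :=
        le_mul_of_one_le_left (by linarith) hdR
      linarith
    refine ⟨_, hy, ?_⟩
    have hzy := hz _ (lt_of_le_of_lt hL' hy)
    have e1 : ((d : ℂ) * (Complex.log s + eta P (Complex.log s)) + Complex.log c - Complex.log c) / d =
        Complex.log s + eta P (Complex.log s) := by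
      field_simp
      ring
    rw [e1] at hzy
    obtain ⟨h2, h3⟩ := hg2 _ hzy
    have h4 : g (Complex.log s + eta P (Complex.log s)) = Complex.log s := hinj h2 hx h3
    show exp (g (((d : ℂ) * (Complex.log s + eta P (Complex.log s)) + Complex.log c -
      Complex.log c) / d)) = s
    rw [e1, h4, exp_log hs1]

end Pool.Agent.ECF
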