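import Pool.Agent.ECF.StC

/-!
# ECF, module CCA: a polynomial of positive degree is very negative in a sector (helper18)
-/

set_option autoImplicit false

open Complex Polynomial Metric

namespace Pool.Agent.ECF

namespace CCAx

/-- the real part of the leading term. -/
theorem lead_re (b y : ℂ) (d j : ℕ) : (b * exp (y / d) ^ j).re =
    ‖b‖ * (Real.exp (y.re / d) ^ j * Real.cos (arg b + j * y.im / d)) := by
  have h1 : b * exp (y / d) ^ j = (‖b‖ : ℂ) * exp (arg b * I + j * (y / d)) := by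
    rw [Complex.exp_add, Complex.exp_nat_mul, ← mul_assoc, norm_mul_exp_arg_mul_I]
  have hre : (arg b * I + j * (y / d) : ℂ).re = j * (y.re / d) := by
    simp [Complex.div_natCast_re]
  have him : (arg b * I + j * (y / d) : ℂ).im = arg b + j * y.im / d := by
    simp [Complex.div_natCast_im]
    ring
  rw [h1, Complex.re_ofReal_mul, Complex.exp_re, hre, him, Real.exp_nat_mul]

end CCAx

open CCAx in
theorem thm_CCA : St_CCA := by
  intro d B hd hB
  set j := B.natDegree with hj
  set b := B.leadingCoeff with hb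
  have hb0 : b ≠ 0 := by
    intro h
    rw [hb, leadingCoeff_eq_zero] at h
    rw [hj, h, natDegree_zero] at hB
    omega
  have hbn : 0 < ‖b‖ := norm_pos_iff.2 hb0
  have hj0 : (0 : ℝ) < j := by exact_mod_cast hB
  have hd0 : (0 : ℝ) < d := by exact_mod_cast hd
  set S : ℝ := ∑ i ∈ Finset.range j, ‖B.coeff i‖ with hS
  have hS0 : 0 ≤ S := Finset.sum_nonneg fun i _ => norm_nonneg _
  refine ⟨d * (Real.pi - arg b) / j, d * Real.pi / (3 * j), ‖b‖ / 4, d * (4 * S / ‖b‖), by
    have := Real.pi_pos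
    positivity, by positivity, fun y hy hyi => ?_⟩
  set ρ := Real.exp (y.re / d) with hρ
  have hρS : 4 * S / ‖b‖ ≤ y.re / d := by
    rw [le_div_iff₀ hd0]
    linarith
  have h4 : 0 ≤ 4 * S / ‖b‖ := by positivity
  have hρ1 : 1 ≤ ρ := Real.one_le_exp (h4.trans hρS)
  have hρ2 : 4 * S / ‖b‖ ≤ ρ := by
    have := Real.add_one_le_exp (y.re / d)
    linarith
  have hw : ‖exp (y / d)‖ = ρ := by
    rw [Complex.norm_exp, Complex.div_natCast_re]
  -- the lower terms
  have hlow : ‖∑ i ∈ Finset.range j, B.coeff i * exp (y / d) ^ i‖ ≤ S * ρ ^ (j - 1) := by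
    rw [hS, Finset.sum_mul]
    refine (norm_sum_le _ _).trans (Finset.sum_le_sum fun i hi => ?_)
    rw [norm_mul, norm_pow, hw]
    refine mul_le_mul_of_nonneg_left (pow_le_pow_right₀ hρ1 ?_) (norm_nonneg _)
    have := Finset.mem_range.1 hi
    omega
  have hpow : ρ ^ j = ρ ^ (j - 1) * ρ := by
    rw [← pow_succ]
    congr 1
    omega
  have hρp : 0 < ρ ^ (j - 1) := by positivity
  have hlow2 : S * ρ ^ (j - 1) ≤ ‖b‖ / 4 * ρ ^ j := by
    rw [hpow]
    have h5 : S ≤ ‖b‖ / 4 * ρ := by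
      rw [div_le_iff₀ hbn] at hρ2
      linarith
    nlinarith
  -- the leading term
  have hcos : Real.cos (arg b + j * y.im / d) ≤ -(1 / 2) := by
    set φ : ℝ := j * (y.im - d * (Real.pi - arg b) / j) / d with hφ
    have h6 : arg b + j * y.im / d = φ + Real.pi := by
      rw [hφ]
      field_simp
      ring
    have h7 : |φ| ≤ Real.pi / 3 := by
      rw [hφ, abs_div, abs_mul, abs_of_pos hj0, abs_of_pos hd0, div_le_iff₀ hd0]
      calc (j : ℝ) * |y.im - d * (Real.pi - arg b) / j| ≤ j * (d * Real.pi / (3 * j)) :=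
            mul_le_mul_of_nonneg_left hyi hj0.le
        _ = Real.pi / 3 * d := by field_simp
    rw [h6, Real.cos_add_pi, neg_le_neg_iff, ← Real.cos_abs, ← Real.cos_pi_div_three]
    exact Real.cos_le_cos_of_nonneg_of_le_pi (abs_nonneg _)
      (by have := Real.pi_pos; linarith) h7
  have hev : (B.eval (exp (y / d))).re = (∑ i ∈ Finset.range j, B.coeff i * exp (y / d) ^ i).re +
      ‖b‖ * (ρ ^ j * Real.cos (arg b + j * y.im / d)) := by
    rw [eval_eq_sum_range, Finset.sum_range_succ, Complex.add_re, ← lead_re]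
    rfl
  rw [hev]
  have h8 := (Complex.abs_re_le_norm (∑ i ∈ Finset.range j, B.coeff i * exp (y / d) ^ i)).trans hlow
  have h9 := (le_abs_self _).trans h8
  have hρj : ρ ≤ ρ ^ j := by
    calc ρ = ρ ^ 1 := (pow_one ρ).symm
      _ ≤ ρ ^ j := pow_le_pow_right₀ hρ1 hB
  have h10 : ρ ^ j * Real.cos (arg b + j * y.im / d) ≤ ρ ^ j * -(1 / 2) :=
    mul_le_mul_of_nonneg_left hcos (by positivity)
  have h11 : ‖b‖ * (ρ ^ j * Real.cos (arg b + j * y.im / d)) ≤ ‖b‖ * (ρ ^ j * -(1 / 2)) :=
    mul_le_mul_of_nonneg_left h10 hbn.le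
  nlinarith [mul_le_mul_of_nonneg_left hρj hbn.le]

end Pool.Agent.ECF
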