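import Pool.Agent.ECF.StC

/-!
# ECF, module CCB: the two differences cannot both be almost constant
-/

set_option autoImplicit false

open Complex Polynomial Metric Filter

namespace Pool.Agent.ECF

theorem thm_CCB (h1 : St_SG) : St_CCB := by
  intro α q L θ0 δ hδ hq H
  obtain ⟨-, -, -, -, hE⟩ := h1
  set A : ℂ := tpi with hA
  set B : ℂ := tpi * α with hB
  have hAn : ‖A‖ = 2 * Real.pi := by
    rw [hA]; unfold tpi
    simp [abs_of_pos Real.pi_pos]
  have hApos : 0 < ‖A‖ := by rw [hAn]; positivity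
  have hBnn : 0 ≤ ‖B‖ := norm_nonneg _
  set R : ℝ := ‖A‖ + ‖B‖ + 1 with hR
  have hRpos : 0 < R := by positivity
  set ε : ℝ := ‖A‖ ^ 2 / (2 * (‖A‖ + ‖B‖)) with hε
  have hεpos : 0 < ε := by positivity
  obtain ⟨L', hL'⟩ := H ε hεpos
  set η : ℝ := min δ 1 with hη
  have hηpos : 0 < η := lt_min hδ one_pos
  obtain ⟨r, hr1, hr2⟩ : ∃ r : ℝ, 4 * R / η < Real.exp r ∧
      |L'| + |L| + |Ls A| + |Ls B| + 1 < r :=
    ((Real.tendsto_exp_atTop.eventually_gt_atTop (4 * R / η)).and
      (eventually_gt_atTop (|L'| + |L| + |Ls A| + |Ls B| + 1))).exists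
  have hL1 : L' + 1 ≤ r ∧ L + 1 < r ∧ Ls A + 1 < r ∧ Ls B + 1 < r := by
    have e1 := le_abs_self L'
    have e2 := le_abs_self L
    have e3 := le_abs_self (Ls A)
    have e4 := le_abs_self (Ls B)
    have e5 := abs_nonneg L'
    have e6 := abs_nonneg L
    have e7 := abs_nonneg (Ls A)
    have e8 := abs_nonneg (Ls B)
    refine ⟨?_, ?_, ?_, ?_⟩ <;> linarith
  set y0 : ℂ := (r : ℂ) + θ0 * I with hy0
  set U0 : ℂ := exp y0 with hU0
  have hU0n : ‖U0‖ = Real.exp r := by
    rw [hU0, norm_exp, hy0]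
    simp
  have hU0ne : U0 ≠ 0 := exp_ne_zero _
  have hRU : R / ‖U0‖ < η / 4 := by
    rw [hU0n, div_lt_iff₀ (Real.exp_pos r)]
    rw [div_lt_iff₀ hηpos] at hr1
    linarith
  set Y : ℂ → ℂ := fun U => y0 + Complex.log (U / U0) with hY
  have hz : ∀ U ∈ ball U0 R, ‖U / U0 - 1‖ < η / 4 := by
    intro U hU
    have h2 : ‖U - U0‖ < R := by simpa [dist_eq_norm] using hU
    have h3 : U / U0 - 1 = (U - U0) / U0 := by field_simp
    rw [h3, norm_div]
    exact (div_lt_div_of_pos_right h2 (norm_pos_iff.2 hU0ne)).trans hRU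
  have hη1 : η ≤ 1 := min_le_right _ _
  have hηδ : η ≤ δ := min_le_left _ _
  have hYn : ∀ U ∈ ball U0 R, ‖Y U - y0‖ ≤ η / 2 := by
    intro U hU
    have h2 := hz U hU
    have h3 : Y U - y0 = Complex.log (1 + (U / U0 - 1)) := by
      simp only [hY]
      ring_nf
    rw [h3]
    have h4 := Complex.norm_log_one_add_half_le_self (z := U / U0 - 1) (by linarith)
    linarith
  have hYre : ∀ U ∈ ball U0 R, r - 1 ≤ (Y U).re := by
    intro U hU
    have h2 := hYn U hU
    have h3 := (abs_le.1 ((abs_re_le_norm (Y U - y0)).trans h2)).1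
    have h4 : y0.re = r := by simp [hy0]
    rw [sub_re, h4] at h3
    linarith
  have hYim : ∀ U ∈ ball U0 R, |(Y U).im - θ0| ≤ δ := by
    intro U hU
    have h2 := hYn U hU
    have h3 := (abs_im_le_norm (Y U - y0)).trans h2
    have h4 : y0.im = θ0 := by simp [hy0]
    rw [sub_im, h4] at h3
    linarith
  have hYd : ∀ U ∈ ball U0 R, DifferentiableAt ℂ Y U := by
    intro U hU
    have h2 : U / U0 ∈ slitPlane := by
      have h3 := Complex.mem_slitPlane_of_norm_lt_one (z := U / U0 - 1) (by linarith [hz U hU])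
      rwa [add_sub_cancel] at h3
    exact ((differentiableAt_id.div_const U0).clog h2).const_add _
  have hYe : ∀ U ∈ ball U0 R, exp (Y U) = U := by
    intro U hU
    have h2 : U / U0 ≠ 0 := by
      intro h3
      have h4 := hz U hU
      rw [h3, zero_sub, norm_neg, norm_one] at h4
      linarith
    simp only [hY]
    rw [exp_add, exp_log h2, ← hU0]
    field_simp
  have hopen : IsOpen (Hp L) := isOpen_lt continuous_const continuous_re
  have hYL : ∀ U ∈ ball U0 R, Y U ∈ Hp L := by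
    intro U hU
    show L < (Y U).re
    linarith [hYre U hU, hL1.2.1]
  have hQd : DifferentiableOn ℂ (fun U => q (Y U)) (ball U0 R) := by
    intro U hU
    exact ((hq.differentiableAt (hopen.mem_nhds (hYL U hU))).comp U
      (hYd U hU)).differentiableWithinAt
  obtain ⟨W, hW⟩ := (convex_ball U0 R).exists_forall_hasDerivWithinAt hQd
  have hW' : ∀ U ∈ ball U0 R, HasDerivAt W (q (Y U)) U := fun U hU =>
    (hW U hU).hasDerivAt (isOpen_ball.mem_nhds hU)
  have hsg : ∀ l U, Ls l + 1 < r → U ∈ ball U0 R → U - l ∈ ball U0 R →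
      sg l (Y U) = Y (U - l) := by
    intro l U hl hU hUl
    refine hE l (Y U) (Y (U - l)) (by linarith [hYre U hU]) ?_ ?_
    · rw [hYe _ hUl, hYe _ hU]
    · have h2 : Y (U - l) - Y U = (Y (U - l) - y0) - (Y U - y0) := by ring
      rw [h2]
      linarith [norm_sub_le (Y (U - l) - y0) (Y U - y0), hYn _ hU, hYn _ hUl]
  have hbd : ∀ U ∈ ball U0 R, U - A ∈ ball U0 R → ‖q (Y U) - q (Y (U - A))‖ ≤ ε := by
    intro U hU hUA
    rw [← hsg A U hL1.2.2.1 hU hUA]
    exact (hL' (Y U) (by linarith [hYre U hU, hL1.1]) (hYim U hU)).1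
  have hbd2 : ∀ U ∈ ball U0 R, U - B ∈ ball U0 R → ‖q (Y U) - q (Y (U - B)) - A‖ ≤ ε := by
    intro U hU hUB
    rw [← hsg B U hL1.2.2.2 hU hUB]
    exact (hL' (Y U) (by linarith [hYre U hU, hL1.1]) (hYim U hU)).2
  -- the two estimates
  have hm1 : ∀ z ∈ closedBall U0 ‖A‖, z ∈ ball U0 R ∧ z - B ∈ ball U0 R := by
    intro z hz
    have h2 : ‖z - U0‖ ≤ ‖A‖ := by simpa [dist_eq_norm] using hz
    constructor
    · rw [mem_ball, dist_eq_norm]; linarith
    · rw [mem_ball, dist_eq_norm]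
      have h3 : z - B - U0 = (z - U0) - B := by ring
      rw [h3]
      linarith [norm_sub_le (z - U0) B]
  have hm2 : ∀ z ∈ closedBall U0 ‖B‖, z ∈ ball U0 R ∧ z - A ∈ ball U0 R := by
    intro z hz
    have h2 : ‖z - U0‖ ≤ ‖B‖ := by simpa [dist_eq_norm] using hz
    constructor
    · rw [mem_ball, dist_eq_norm]; linarith
    · rw [mem_ball, dist_eq_norm]
      have h3 : z - A - U0 = (z - U0) - A := by ring
      rw [h3]
      linarith [norm_sub_le (z - U0) A]
  have e1 : ‖(W U0 - W (U0 - B) - A * U0) - (W (U0 - A) - W (U0 - A - B) - A * (U0 - A))‖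
      ≤ ε * ‖U0 - (U0 - A)‖ := by
    refine (convex_closedBall U0 ‖A‖).norm_image_sub_le_of_norm_hasDerivWithin_le
      (f := fun z => W z - W (z - B) - A * z)
      (f' := fun z => q (Y z) - q (Y (z - B)) - A) (fun z hz => ?_) (fun z hz => ?_) ?_ ?_
    · have h2 := hW' z (hm1 z hz).1
      have h3 : HasDerivAt (fun z => W (z - B)) (q (Y (z - B))) z := by
        exact HasDerivAt.comp_sub_const z B (hW' (z - B) (hm1 z hz).2)
      have h5 : HasDerivAt (fun z => A * z) A z := by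
        simpa using (hasDerivAt_id z).const_mul A
      exact ((h2.sub h3).sub h5).hasDerivWithinAt
    · exact hbd2 z (hm1 z hz).1 (hm1 z hz).2
    · rw [mem_closedBall, dist_eq_norm]; simp
    · exact mem_closedBall_self (norm_nonneg _)
  have e2 : ‖(W U0 - W (U0 - A)) - (W (U0 - B) - W (U0 - B - A))‖ ≤ ε * ‖U0 - (U0 - B)‖ := by
    refine (convex_closedBall U0 ‖B‖).norm_image_sub_le_of_norm_hasDerivWithin_le
      (f := fun z => W z - W (z - A))
      (f' := fun z => q (Y z) - q (Y (z - A))) (fun z hz => ?_) (fun z hz => ?_) ?_ ?_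
    · have h2 := hW' z (hm2 z hz).1
      have h3 : HasDerivAt (fun z => W (z - A)) (q (Y (z - A))) z := by
        exact HasDerivAt.comp_sub_const z A (hW' (z - A) (hm2 z hz).2)
      exact (h2.sub h3).hasDerivWithinAt
    · exact hbd z (hm2 z hz).1 (hm2 z hz).2
    · rw [mem_closedBall, dist_eq_norm]; simp
    · exact mem_closedBall_self (norm_nonneg _)
  rw [sub_sub_cancel] at e1 e2
  have e3 : U0 - B - A = U0 - A - B := by ring
  rw [e3] at e2
  have e4 : A * A = ((W U0 - W (U0 - A)) - (W (U0 - B) - W (U0 - A - B)))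
      - ((W U0 - W (U0 - B) - A * U0) - (W (U0 - A) - W (U0 - A - B) - A * (U0 - A))) := by ring
  have e5 : ‖A‖ ^ 2 ≤ ε * ‖B‖ + ε * ‖A‖ := by
    rw [sq, ← norm_mul, e4]
    exact (norm_sub_le _ _).trans (add_le_add e2 e1)
  have e6 : ε * ‖B‖ + ε * ‖A‖ = ‖A‖ ^ 2 / 2 := by
    rw [hε]
    field_simp
    ring
  have e7 : 0 < ‖A‖ ^ 2 := by positivity
  linarith

end Pool.Agent.ECF
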