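import Pool.Agent.ECF.StB

/-!
# ECF, proof of the statement CMS
-/

set_option autoImplicit false

open Complex

namespace Pool.Agent.ECF

namespace CMSx

theorem tpi_mul_re (k : ℤ) : (tpi * (k : ℂ)).re = 0 := by
  unfold tpi
  have h : (2 * (Real.pi : ℂ) * I * (k : ℂ)) = ((2 * Real.pi * (k : ℝ) : ℝ) : ℂ) * I := by
    push_cast
    ring
  rw [h]
  simp

/-- the two comparisons for a triple with nonzero sum -/
theorem pair (h1 : St_TRI) (h2 : St_FZ) (h4 : St_SG) (α : ℂ) (d : ℕ) (L : ℝ) (q : ℂ → ℂ)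
    (hD : Dat α d L q) (m n k m' n' k' : ℤ) (hmn : ¬ (m = 0 ∧ n = 0))
    (hmn' : ¬ (m' = 0 ∧ n' = 0)) (hs : ¬ (m + m' = 0 ∧ n + n' = 0)) :
    Cmp d (fz q α m n k) (fz q α (m + m') (n + n') (k + k')) ∧
      Cmp d (fun y => fz q α m' n' k' (sg (lam α m n) y + tpi * k))
        (fz q α (m + m') (n + n') (k + k')) := by
  obtain ⟨hA, hB⟩ := h2 α d L q hD
  obtain ⟨L1, hX1, hX2, hX3⟩ := hA m n k
  obtain ⟨L2, hY1, hY2, hY3⟩ := hA m' n' k'
  obtain ⟨L3, hZ1, hZ2, hZ3⟩ := hA (m + m') (n + n') (k + k')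
  obtain ⟨L4, hco⟩ := hB m n k m' n' k'
  obtain ⟨hs1, hs2, -, -, -⟩ := h4
  set l : ℂ := lam α m n with hl
  obtain ⟨LL, hLL1, hLL2, hLL3, hLL4, hLL5⟩ :
      ∃ LL : ℝ, L1 ≤ LL ∧ L2 + 1 ≤ LL ∧ L3 ≤ LL ∧ L4 ≤ LL ∧ Ls l ≤ LL := by
    refine ⟨max L1 (max (L2 + 1) (max L3 (max L4 (Ls l)))), ?_, ?_, ?_, ?_, ?_⟩
    · exact le_max_left _ _
    · exact (le_max_left _ _).trans (le_max_right _ _)
    · exact ((le_max_left _ _).trans (le_max_right _ _)).trans (le_max_right _ _)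
    · exact (((le_max_left _ _).trans (le_max_right _ _)).trans (le_max_right _ _)).trans
        (le_max_right _ _)
    · exact (((le_max_right _ _).trans (le_max_right _ _)).trans (le_max_right _ _)).trans
        (le_max_right _ _)
  have hsub1 : Hp LL ⊆ Hp L1 := fun y hy => lt_of_le_of_lt hLL1 hy
  have hsub3 : Hp LL ⊆ Hp L3 := fun y hy => lt_of_le_of_lt hLL3 hy
  have hsub4 : Hp LL ⊆ Hp L4 := fun y hy => lt_of_le_of_lt hLL4 hy
  have hmaps : ∀ y ∈ Hp LL, sg l y + tpi * k ∈ Hp L2 := by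
    intro y hy
    have hy0 : LL < y.re := hy
    obtain ⟨-, -, hn, -, -⟩ := hs1 l y (lt_of_le_of_lt hLL5 hy0)
    have h5 : |(sg l y - y).re| ≤ 1 := (Complex.abs_re_le_norm _).trans hn
    have h6 := (abs_le.mp h5).1
    rw [Complex.sub_re] at h6
    have h7 : (sg l y + tpi * k).re = (sg l y).re := by
      rw [Complex.add_re, tpi_mul_re, add_zero]
    show L2 < (sg l y + tpi * k).re
    rw [h7]
    linarith
  have hYd : DifferentiableOn ℂ (fun y => fz q α m' n' k' (sg l y + tpi * k)) (Hp LL) := by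
    have hsd : DifferentiableOn ℂ (fun y => sg l y + tpi * k) (Hp LL) := by
      intro y hy
      obtain ⟨-, -, -, -, hd⟩ := hs1 l y (lt_of_le_of_lt hLL5 hy)
      exact (hd.differentiableAt.add_const _).differentiableWithinAt
    exact hY1.comp hsd hmaps
  have hYp : ∀ y ∈ Hp LL, fz q α m' n' k' (sg l (y + tpi * d) + tpi * k)
      = fz q α m' n' k' (sg l y + tpi * k) := by
    intro y hy
    have h5 := hs2 l y (d : ℤ)
    have h6 : ((d : ℤ) : ℂ) = (d : ℂ) := by push_cast; rfl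
    rw [h6] at h5
    rw [h5]
    have h7 : sg l y + tpi * (d : ℂ) + tpi * (k : ℂ) = (sg l y + tpi * k) + tpi * d := by ring
    rw [h7]
    exact hY2 _ (hmaps y hy)
  have hXd := hX1.mono hsub1
  have hZd := hZ1.mono hsub3
  constructor
  · refine h1 d LL (fz q α m n k) (fun y => fz q α m' n' k' (sg l y + tpi * k))
      (fz q α (m + m') (n + n') (k + k')) hD.pos hXd hZd ?_ ?_ ?_
    · intro y hy
      exact ⟨hX3 hmn y (hsub1 hy), hY3 hmn' _ (hmaps y hy), hZ3 hs y (hsub3 hy)⟩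
    · intro y hy
      exact ⟨hX2 y (hsub1 hy), hZ2 y (hsub3 hy)⟩
    · intro y hy
      exact hco y (hsub4 hy)
  · refine h1 d LL (fun y => fz q α m' n' k' (sg l y + tpi * k)) (fz q α m n k)
      (fz q α (m + m') (n + n') (k + k')) hD.pos hYd hZd ?_ ?_ ?_
    · intro y hy
      exact ⟨hY3 hmn' _ (hmaps y hy), hX3 hmn y (hsub1 hy), hZ3 hs y (hsub3 hy)⟩
    · intro y hy
      exact ⟨hYp y hy, hZ2 y (hsub3 hy)⟩
    · intro y hy
      rw [add_comm]
      exact hco y (hsub4 hy)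

/-- comparison of two different nonzero pairs -/
theorem diffPair (h1 : St_TRI) (h2 : St_FZ) (h4 : St_SG) (α : ℂ) (d : ℕ) (L : ℝ) (q : ℂ → ℂ)
    (hD : Dat α d L q) (m n k m' n' k' : ℤ) (hmn : ¬ (m = 0 ∧ n = 0))
    (hmn' : ¬ (m' = 0 ∧ n' = 0)) (hne : ¬ (m = m' ∧ n = n')) :
    Cmp d (fz q α m n k) (fz q α m' n' k') := by
  have h := (pair h1 h2 h4 α d L q hD m n k (m' - m) (n' - n) (k' - k) hmn ?_ ?_).1
  · have e1 : m + (m' - m) = m' := by ring
    have e2 : n + (n' - n) = n' := by ring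
    have e3 : k + (k' - k) = k' := by ring
    rw [e1, e2, e3] at h
    exact h
  · rintro ⟨h5, h6⟩
    exact hne ⟨by omega, by omega⟩
  · rintro ⟨h5, h6⟩
    exact hmn' ⟨by omega, by omega⟩

end CMSx

open CMSx in
theorem thm_CMS (h1 : St_TRI) (h2 : St_FZ) (h3 : St_CMT) (h4 : St_SG) : St_CMS := by
  intro α d L q hD
  constructor
  · intro m n k m' n' k' hmn hmn'
    by_cases hne : m = m' ∧ n = n'
    · obtain ⟨-, -, htr, -⟩ := h3 d
      by_cases hm : m = 0
      · refine htr _ (fz q α 1 0 0) _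
          (diffPair h1 h2 h4 α d L q hD m n k 1 0 0 hmn (by omega) (by omega))
          (diffPair h1 h2 h4 α d L q hD 1 0 0 m' n' k' (by omega) hmn' (by omega))
      · refine htr _ (fz q α 0 1 0) _
          (diffPair h1 h2 h4 α d L q hD m n k 0 1 0 hmn (by omega) (by omega))
          (diffPair h1 h2 h4 α d L q hD 0 1 0 m' n' k' (by omega) hmn' (by omega))
    · exact diffPair h1 h2 h4 α d L q hD m n k m' n' k' hmn hmn' hne
  · intro m n k m' n' k' hmn hmn' hs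
    exact (pair h1 h2 h4 α d L q hD m n k m' n' k' hmn hmn' hs).2

end Pool.Agent.ECF
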