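import Pool.Agent.ECF.StB

/-!
# ECF, module CMT: comparability is an equivalence relation
-/

set_option autoImplicit false

open Complex Polynomial Metric

namespace Pool.Agent.ECF

private theorem Hp_mono {L L' : ℝ} (h : L ≤ L') {y : ℂ} (hy : y ∈ Hp L') : y ∈ Hp L :=
  lt_of_le_of_lt h hy

theorem thm_CMT : St_CMT := by
  intro d
  refine ⟨?_, ?_, ?_, ?_⟩
  · intro f
    refine ⟨0, 0, 0, 0, fun _ => 0, differentiableOn_const _, fun y _ => ⟨by simp, by simp⟩⟩
  · rintro f g ⟨κ, c, C, L, h, hd, hh⟩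
    refine ⟨-κ, -c, C, L, fun y => -h y, hd.neg, fun y hy => ⟨?_, ?_⟩⟩
    · show g y = exp (-h y) * f y
      rw [(hh y hy).1, ← mul_assoc, ← exp_add]
      simp
    · have h1 : -h y - ((-κ : ℤ) : ℂ) * y / d - -c = -(h y - κ * y / d - c) := by
        push_cast; ring
      show ‖-h y - ((-κ : ℤ) : ℂ) * y / d - -c‖ ≤ _
      rw [h1, norm_neg]
      exact (hh y hy).2
  · rintro f g k ⟨κ, c, C, L, h, hd, hh⟩ ⟨κ', c', C', L', h', hd', hh'⟩
    refine ⟨κ + κ', c + c', C + C', max L L', fun y => h y + h' y, ?_, fun y hy => ⟨?_, ?_⟩⟩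
    · exact (hd.mono fun y hy => Hp_mono (le_max_left _ _) hy).add
        (hd'.mono fun y hy => Hp_mono (le_max_right _ _) hy)
    · rw [(hh y (Hp_mono (le_max_left _ _) hy)).1, (hh' y (Hp_mono (le_max_right _ _) hy)).1,
        ← mul_assoc, ← exp_add]
    · have h1 : h y + h' y - ((κ + κ' : ℤ) : ℂ) * y / d - (c + c')
          = (h y - κ * y / d - c) + (h' y - κ' * y / d - c') := by
        push_cast; ring
      show ‖h y + h' y - ((κ + κ' : ℤ) : ℂ) * y / d - (c + c')‖ ≤ _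
      rw [h1, add_mul]
      exact (norm_add_le _ _).trans (add_le_add (hh y (Hp_mono (le_max_left _ _) hy)).2
        (hh' y (Hp_mono (le_max_right _ _) hy)).2)
  · rintro f f1 g ⟨L0, h0⟩ ⟨κ, c, C, L, h, hd, hh⟩
    refine ⟨κ, c, C, max L L0, h, hd.mono fun y hy => Hp_mono (le_max_left _ _) hy,
      fun y hy => ⟨?_, (hh y (Hp_mono (le_max_left _ _) hy)).2⟩⟩
    rw [← h0 y (Hp_mono (le_max_right _ _) hy)]
    exact (hh y (Hp_mono (le_max_left _ _) hy)).1

end Pool.Agent.ECF
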