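import Pool.Agent.ECF.StC

/-!
# ECF, module DB1: differentiating the shift relation (helper91)
-/

set_option autoImplicit false

open Complex Polynomial Metric

namespace Pool.Agent.ECF

theorem thm_DB1 (h1 : St_SG) : St_DB1 := by
  obtain ⟨hA, -, -, -, -⟩ := h1
  intro d L e l hd he ⟨c, C, L', hC⟩
  have hd0 : (0 : ℝ) < d := by exact_mod_cast hd
  set C0 : ℝ := max C 0 with hC0
  have hC0n : 0 ≤ C0 := le_max_right _ _
  set m : ℝ := max (max L' (Ls l)) L with hm
  have m1 : L' ≤ m := (le_max_left _ _).trans (le_max_left _ _)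
  have m2 : Ls l ≤ m := (le_max_right _ _).trans (le_max_left _ _)
  have m3 : L ≤ m := le_max_right _ _
  have hopen : IsOpen (Hp L) := isOpen_lt continuous_const Complex.continuous_re
  -- the derivative of the difference
  have hder : ∀ z : ℂ, m + 2 ≤ z.re → HasDerivAt (fun y => e (sg l y) - e y - c)
      (deriv e (sg l z) * (exp z / (exp z - l)) - deriv e z) z := by
    intro z hz
    obtain ⟨-, -, b3, -, b5⟩ := hA l z (by linarith)
    have hzL : z ∈ Hp L := by
      show L < z.re
      linarith
    have c1 : |(sg l z - z).re| ≤ 1 := (Complex.abs_re_le_norm _).trans b3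
    rw [Complex.sub_re] at c1
    have c2 := (abs_le.1 c1).1
    have hsL : sg l z ∈ Hp L := by
      show L < (sg l z).re
      linarith
    have d1 : HasDerivAt e (deriv e (sg l z)) (sg l z) :=
      (he.differentiableAt (hopen.mem_nhds hsL)).hasDerivAt
    have d2 : HasDerivAt e (deriv e z) z := (he.differentiableAt (hopen.mem_nhds hzL)).hasDerivAt
    have d3 := HasDerivAt.comp z d1 b5
    exact (d3.sub d2).sub_const c
  refine ⟨C0 * Real.exp (1 / d), m + 3, fun y hy => ?_⟩
  obtain ⟨b1, -, -, b4, -⟩ := hA l y (by linarith)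
  have hball : ∀ z ∈ closedBall y 1, m + 2 ≤ z.re := by
    intro z hz
    rw [mem_closedBall, dist_eq_norm] at hz
    have c1 : |(z - y).re| ≤ 1 := (Complex.abs_re_le_norm _).trans hz
    rw [Complex.sub_re] at c1
    have c2 := (abs_le.1 c1).1
    linarith
  have hdc : DiffContOnCl ℂ (fun y => e (sg l y) - e y - c) (ball y 1) := by
    refine ⟨fun z hz => (hder z (hball z (ball_subset_closedBall hz))).differentiableAt.differentiableWithinAt,
      fun z hz => (hder z (hball z (closure_ball_subset_closedBall hz))).continuousAt.continuousWithinAt⟩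
  have hbd : ∀ z ∈ sphere y 1, ‖e (sg l z) - e z - c‖ ≤ C0 * Real.exp (-(y.re - 1) / d) := by
    intro z hz
    have hz2 := hball z (sphere_subset_closedBall hz)
    refine (hC z (by linarith)).trans ?_
    have c0 : ‖z - y‖ ≤ 1 := by
      rw [← dist_eq_norm]
      exact (mem_sphere.1 hz).le
    have c1 : |(z - y).re| ≤ 1 := (Complex.abs_re_le_norm _).trans c0
    rw [Complex.sub_re] at c1
    have c2 := (abs_le.1 c1).1
    have e1 : C * Real.exp (-z.re / d) ≤ C0 * Real.exp (-z.re / d) := by
      gcongr
      exact le_max_left _ _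
    refine e1.trans ?_
    gcongr
    linarith
  have hcau := Complex.norm_deriv_le_of_forall_mem_sphere_norm_le one_pos hdc hbd
  rw [(hder y (by linarith)).deriv, div_one] at hcau
  have hexp : exp (-sg l y) = 1 / (exp y - l) := by
    rw [Complex.exp_neg, b1, one_div]
  have key : deriv e (sg l y) * exp (-sg l y) - deriv e y * exp (-y) =
      exp (-y) * (deriv e (sg l y) * (exp y / (exp y - l)) - deriv e y) := by
    rw [hexp, Complex.exp_neg]
    have h0 : exp y ≠ 0 := Complex.exp_ne_zero y
    field_simp
  rw [key, norm_mul, Complex.norm_exp, Complex.neg_re]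
  calc Real.exp (-y.re) * ‖deriv e (sg l y) * (exp y / (exp y - l)) - deriv e y‖ ≤
      Real.exp (-y.re) * (C0 * Real.exp (-(y.re - 1) / d)) := by gcongr
    _ = C0 * Real.exp (1 / d) * Real.exp (-(1 + 1 / (d : ℝ)) * y.re) := by
        have e2 : Real.exp (1 / d) * Real.exp (-(1 + 1 / (d : ℝ)) * y.re) =
            Real.exp (-y.re) * Real.exp (-(y.re - 1) / d) := by
          rw [← Real.exp_add, ← Real.exp_add]
          congr 1
          field_simp
          ring
        rw [mul_assoc C0, e2]
        ring

end Pool.Agent.ECF
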