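import Pool.Agent.ECF.StC

/-!
# ECF, DB2: almost doubly periodic functions on a half-plane are bounded
-/

set_option autoImplicit false

open Complex Filter Topology

namespace Pool.Agent.ECF

namespace DB2x

lemma im_add (U : ℂ) (n : ℕ) : (U + tpi * n).im = U.im + 2 * Real.pi * n := by
  unfold tpi
  simp

lemma nrm {U : ℂ} {R : ℝ} (h : R < U.im) (n : ℕ) :
    R + 2 * Real.pi * n ≤ ‖U + tpi * n‖ := by
  have h1 := Complex.abs_im_le_norm (U + tpi * n)
  rw [im_add] at h1
  have h2 : 0 ≤ 2 * Real.pi * (n : ℝ) := by positivity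
  have h3 := (abs_le.1 h1).2
  linarith

lemma summ {R θ : ℝ} (C : ℝ) (hR : 0 < R) (hθ : 1 < θ) :
    Summable fun n : ℕ => C * (R + 2 * Real.pi * n) ^ (-θ) := by
  refine Summable.mul_left C ?_
  rw [← summable_nat_add_iff 1]
  have h1 : Summable fun n : ℕ => (((n + 1 : ℕ) : ℝ)) ^ (-θ) :=
    (summable_nat_add_iff 1).2 (Real.summable_nat_rpow.2 (by linarith))
  refine Summable.of_nonneg_of_le (fun n => ?_) (fun n => ?_) h1
  · positivity
  · refine Real.rpow_le_rpow_of_nonpos (by positivity) ?_ (by linarith)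
    have h2 : (0 : ℝ) < ((n + 1 : ℕ) : ℝ) := by positivity
    have h3 := Real.pi_gt_three
    nlinarith

end DB2x

open DB2x in
theorem thm_DB2 (hP : St_DPER) : St_DB2 := by
  intro α R θ C G hα hR hθ hG h1 h2
  -- the constant is nonnegative
  have hC : 0 ≤ C := by
    have hU : R < (((R + 1 : ℝ) : ℂ) * I).im := by simp
    have h3 := (norm_nonneg _).trans (h1 _ hU)
    have h4 : 0 < ‖((R + 1 : ℝ) : ℂ) * I‖ := by
      have h5 := Complex.abs_im_le_norm (((R + 1 : ℝ) : ℂ) * I)
      exact lt_of_lt_of_le (hR.trans hU) ((le_abs_self _).trans h5)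
    exact nonneg_of_mul_nonneg_left h3 (Real.rpow_pos_of_pos h4 _)
  have hmem : ∀ U : ℂ, R < U.im → ∀ n : ℕ, R < (U + tpi * n).im := by
    intro U hU n
    rw [im_add]
    have : 0 ≤ 2 * Real.pi * (n : ℝ) := by positivity
    linarith
  have hpow : ∀ U : ℂ, R < U.im → ∀ n : ℕ,
      C * ‖U + tpi * n‖ ^ (-θ) ≤ C * (R + 2 * Real.pi * n) ^ (-θ) := by
    intro U hU n
    refine mul_le_mul_of_nonneg_left ?_ hC
    exact Real.rpow_le_rpow_of_nonpos (by positivity) (nrm hU n) (by linarith)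
  obtain ⟨f, hf⟩ : ∃ f : ℕ → ℂ → ℂ, ∀ n U, f n U = G (U + tpi * (n + 1 : ℕ)) - G (U + tpi * n) :=
    ⟨fun n U => G (U + tpi * (n + 1 : ℕ)) - G (U + tpi * n), fun _ _ => rfl⟩
  have hsum := summ C hR hθ
  have hfb : ∀ (n : ℕ), ∀ U ∈ {U : ℂ | R < U.im}, ‖f n U‖ ≤ C * (R + 2 * Real.pi * n) ^ (-θ) := by
    intro n U hU
    have h3 := h1 _ (hmem U hU n)
    have e : U + tpi * n + tpi = U + tpi * (n + 1 : ℕ) := by push_cast; ring
    rw [e] at h3
    rw [hf]
    exact h3.trans (hpow U hU n)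
  have hopen : IsOpen {U : ℂ | R < U.im} := isOpen_lt continuous_const Complex.continuous_im
  have hshift : ∀ x : ℂ, R < x.im → ∀ n : ℕ, DifferentiableAt ℂ (fun U => G (U + tpi * n)) x := by
    intro x hx n
    have h3 : DifferentiableAt ℂ G (x + tpi * n) :=
      (hG _ (hmem x hx n)).differentiableAt (hopen.mem_nhds (hmem x hx n))
    exact h3.comp x (differentiableAt_id.add_const _)
  have hfd : ∀ n, DifferentiableOn ℂ (f n) {U : ℂ | R < U.im} := by
    intro n x hx
    have h3 : f n = fun U => G (U + tpi * (n + 1 : ℕ)) - G (U + tpi * n) := funext fun U => hf n U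
    rw [h3]
    exact ((hshift x hx (n + 1)).sub (hshift x hx n)).differentiableWithinAt
  have hSd := differentiableOn_tsum_of_summable_norm hsum hfd hopen hfb
  -- the limit function
  obtain ⟨Λ, hΛ⟩ : ∃ Λ : ℂ → ℂ, ∀ U, Λ U = G U + ∑' n, f n U := ⟨_, fun _ => rfl⟩
  have hΛd : DifferentiableOn ℂ Λ {U : ℂ | R < U.im} := by
    have h3 : Λ = fun U => G U + ∑' n, f n U := funext hΛ
    rw [h3]
    exact hG.add hSd
  have hlim : ∀ U : ℂ, R < U.im → Tendsto (fun n : ℕ => G (U + tpi * n)) atTop (𝓝 (Λ U)) := by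
    intro U hU
    have h3 : Summable fun n => f n U := Summable.of_norm_bounded hsum fun n => hfb n U hU
    have h4 := (h3.hasSum.tendsto_sum_nat).const_add (G U)
    rw [← hΛ] at h4
    refine h4.congr fun n => ?_
    have h5 : ∑ i ∈ Finset.range n, f i U = G (U + tpi * n) - G (U + tpi * (0 : ℕ)) := by
      rw [← Finset.sum_range_sub (fun i : ℕ => G (U + tpi * i)) n]
      exact Finset.sum_congr rfl fun i _ => hf i U
    rw [h5]
    simp
  have hlim2 : ∀ (U : ℂ) (n0 : ℕ), R < (U + tpi * n0).im →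
      Tendsto (fun n : ℕ => G (U + tpi * n)) atTop (𝓝 (Λ (U + tpi * n0))) := by
    intro U n0 h3
    rw [← tendsto_add_atTop_iff_nat n0]
    refine (hlim _ h3).congr fun n => ?_
    congr 1
    push_cast
    ring
  have hex : ∀ U : ℂ, ∃ n0 : ℕ, R + 1 < (U + tpi * n0).im := by
    intro U
    obtain ⟨n, hn⟩ := exists_nat_gt ((R + 1 - U.im) / (2 * Real.pi))
    refine ⟨n, ?_⟩
    rw [div_lt_iff₀ (by positivity)] at hn
    rw [im_add]
    linarith
  obtain ⟨L, hL⟩ : ∃ L : ℂ → ℂ, ∀ U, Tendsto (fun n : ℕ => G (U + tpi * n)) atTop (𝓝 (L U)) := by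
    have h3 : ∀ U : ℂ, ∃ l : ℂ, Tendsto (fun n : ℕ => G (U + tpi * n)) atTop (𝓝 l) := by
      intro U
      obtain ⟨n0, hn⟩ := hex U
      exact ⟨_, hlim2 U n0 (by linarith)⟩
    choose L hL using h3
    exact ⟨L, hL⟩
  have hLeq : ∀ (U : ℂ) (n0 : ℕ), R < (U + tpi * n0).im → L U = Λ (U + tpi * n0) :=
    fun U n0 h3 => tendsto_nhds_unique (hL U) (hlim2 U n0 h3)
  have hLd : Differentiable ℂ L := by
    intro U0
    obtain ⟨n0, hn⟩ := hex U0
    have h3 : DifferentiableAt ℂ (fun U => Λ (U + tpi * n0)) U0 := by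
      have h4 : DifferentiableAt ℂ Λ (U0 + tpi * n0) :=
        (hΛd _ (by change R < _; linarith)).differentiableAt
          (hopen.mem_nhds (by change R < _; linarith))
      exact h4.comp U0 (differentiableAt_id.add_const _)
    refine h3.congr_of_eventuallyEq ?_
    have h4 : Continuous fun U : ℂ => (U + tpi * n0).im :=
      Complex.continuous_im.comp (continuous_id.add continuous_const)
    have h5 : ∀ᶠ U in 𝓝 U0, R < (U + tpi * n0).im :=
      (h4.tendsto U0).eventually (lt_mem_nhds (by linarith))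
    filter_upwards [h5] with U hU
    exact hLeq U n0 hU
  have hL1 : ∀ z, L (z + tpi) = L z := by
    intro z
    refine tendsto_nhds_unique (hL (z + tpi)) ?_
    have h3 := (tendsto_add_atTop_iff_nat 1).2 (hL z)
    refine h3.congr fun n => ?_
    congr 1
    push_cast
    ring
  have hL2 : ∀ z, L (z + tpi * α) = L z := by
    intro z
    refine tendsto_nhds_unique (hL (z + tpi * α)) ?_
    obtain ⟨n0, hn0⟩ := hex z
    obtain ⟨n1, hn1⟩ := hex (z + tpi * α)
    have h3 : Tendsto (fun n : ℕ => G (z + tpi * α + tpi * n) - G (z + tpi * n)) atTop (𝓝 0) := by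
      have h4 : Tendsto (fun n : ℕ => C * (R + 2 * Real.pi * ((n - n0 : ℕ) : ℝ)) ^ (-θ)) atTop
          (𝓝 0) := by
        exact hsum.tendsto_atTop_zero.comp (tendsto_sub_atTop_nat n0)
      refine squeeze_zero_norm' ?_ h4
      filter_upwards [eventually_ge_atTop n0, eventually_ge_atTop n1] with n hn hn'
      have e1 : z + tpi * n = z + tpi * n0 + tpi * (n - n0 : ℕ) := by
        rw [Nat.cast_sub hn]
        ring
      have e2 : z + tpi * α + tpi * n = z + tpi * α + tpi * n1 + tpi * (n - n1 : ℕ) := by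
        rw [Nat.cast_sub hn']
        ring
      have e3 : z + tpi * α + tpi * n = z + tpi * n + tpi * α := by ring
      have m1 : R < (z + tpi * n0).im := by linarith
      have m2 : R < (z + tpi * n).im := by
        rw [e1]
        exact hmem _ m1 _
      have m3 : R < (z + tpi * n + tpi * α).im := by
        rw [← e3, e2]
        exact hmem _ (by linarith) _
      rw [e3]
      refine (h2 _ m2 m3).trans ?_
      have h5 := hpow _ m1 (n - n0)
      rw [← e1] at h5
      exact h5
    have h4 := h3.add (hL z)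
    rw [zero_add] at h4
    refine h4.congr fun n => ?_
    ring
  have hconst := hP α L hα hLd hL1 hL2
  refine ⟨‖L 0‖ + ∑' n : ℕ, C * (R + 2 * Real.pi * n) ^ (-θ), fun U hU => ?_⟩
  have h3 : L U = Λ U := by
    have := hLeq U 0 (by simpa using hU)
    simpa using this
  have h4 : ‖∑' n, f n U‖ ≤ ∑' n : ℕ, C * (R + 2 * Real.pi * n) ^ (-θ) :=
    tsum_of_norm_bounded hsum.hasSum fun n => hfb n U hU
  have h5 : G U = L 0 - ∑' n, f n U := by
    rw [hconst 0 U, h3, hΛ]
    ring
  rw [h5]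
  exact (norm_sub_le _ _).trans (by linarith)

end Pool.Agent.ECF
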