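import Pool.Agent.ECF.StC

/-!
# ECF DB3: the function `D` is bounded (statement and proof by helper70)
-/

set_option autoImplicit false

open Complex

namespace Pool.Agent.ECF

namespace DB3x

theorem tpi_re (k : ℂ) (hk : k.im = 0) : (tpi * k).re = 0 := by
  simp [tpi, hk]

theorem tpi_im : tpi.im = 2 * Real.pi := by
  simp [tpi]

theorem per_nat {d : ℕ} {L : ℝ} {D : ℂ → ℂ} (hper : ∀ y ∈ Hp L, D (y + tpi * d) = D y) (j : ℕ) :
    ∀ y ∈ Hp L, D (y + tpi * ((d : ℂ) * (j : ℂ))) = D y := by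
  induction j with
  | zero => intro y _; simp
  | succ j ih =>
    intro y hy
    have h0 : y + tpi * ((d : ℂ) * (j : ℂ)) ∈ Hp L := by
      change L < (y + tpi * ((d : ℂ) * (j : ℂ))).re
      rw [add_re, tpi_re _ (by simp), add_zero]
      exact hy
    have h1 := hper _ h0
    rw [← ih y hy, ← h1]
    congr 1
    push_cast
    ring

theorem per_int {d : ℕ} {L : ℝ} {D : ℂ → ℂ} (hper : ∀ y ∈ Hp L, D (y + tpi * d) = D y) (q : ℤ)
    (y : ℂ) (hy : y ∈ Hp L) : D (y + tpi * ((d : ℂ) * (q : ℂ))) = D y := by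
  obtain ⟨j, rfl | rfl⟩ := q.eq_nat_or_neg
  · have := per_nat hper j y hy
    simpa using this
  · have h0 : y + tpi * ((d : ℂ) * ((-(j : ℤ) : ℤ) : ℂ)) ∈ Hp L := by
      change L < (y + tpi * ((d : ℂ) * ((-(j : ℤ) : ℤ) : ℂ))).re
      rw [add_re, tpi_re _ (by simp), add_zero]
      exact hy
    have h1 := per_nat hper j _ h0
    rw [← h1]
    congr 1
    push_cast
    ring

theorem log_close {a b c : ℝ} (hb : 0 < b) (hc : 2 * c ≤ b) (h1 : a ≤ b + c) (h2 : b - c ≤ a) :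
    |Real.log a - Real.log b| ≤ 1 := by
  have ha : 0 < a := by linarith
  have e1 : Real.log a ≤ Real.log (3 / 2 * b) := Real.log_le_log ha (by linarith)
  have e2 : Real.log b ≤ Real.log (2 * a) := Real.log_le_log hb (by linarith)
  rw [Real.log_mul (by norm_num) hb.ne'] at e1
  rw [Real.log_mul (by norm_num) ha.ne'] at e2
  have e3 : Real.log (3 / 2) ≤ 3 / 2 - 1 := Real.log_le_sub_one_of_pos (by norm_num)
  have e4 : Real.log 2 ≤ 2 - 1 := Real.log_le_sub_one_of_pos (by norm_num)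
  rw [abs_le]
  constructor <;> linarith

theorem arg_close {σ : ℤ} (hσ : σ = 1 ∨ σ = -1) {u v : ℂ} (hu : 0 < u.im) (hv : 0 < v.im) :
    |arg ((σ : ℂ) * u) - arg ((σ : ℂ) * v)| ≤ Real.pi := by
  rcases hσ with rfl | rfl
  · have a1 : 0 ≤ arg u := arg_nonneg_iff.2 hu.le
    have a2 : 0 ≤ arg v := arg_nonneg_iff.2 hv.le
    have a3 := arg_le_pi u
    have a4 := arg_le_pi v
    simp only [Int.cast_one, one_mul]
    rw [abs_le]
    constructor <;> linarith
  · have e1 : (((-1 : ℤ) : ℂ) * u).im < 0 := by simpa using hu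
    have e2 : (((-1 : ℤ) : ℂ) * v).im < 0 := by simpa using hv
    have a1 := arg_neg_iff.2 e1
    have a2 := arg_neg_iff.2 e2
    have a3 := neg_pi_lt_arg (((-1 : ℤ) : ℂ) * u)
    have a4 := neg_pi_lt_arg (((-1 : ℤ) : ℂ) * v)
    rw [abs_le]
    constructor <;> linarith

theorem sig_norm {σ : ℤ} (hσ : σ = 1 ∨ σ = -1) (u : ℂ) : ‖(σ : ℂ) * u‖ = ‖u‖ := by
  rcases hσ with rfl | rfl <;> simp

theorem sig_ne {σ : ℤ} (hσ : σ = 1 ∨ σ = -1) {u : ℂ} (hu : 0 < u.im) : (σ : ℂ) * u ≠ 0 := by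
  intro h
  have h1 := sig_norm hσ u
  rw [h, norm_zero] at h1
  have h2 : u = 0 := norm_eq_zero.1 h1.symm
  rw [h2] at hu
  simp at hu

/-- the shift in the coordinate `U` -/
theorem shift (h2 : St_SG) {σ : ℤ} (hσ : σ = 1 ∨ σ = -1) {l lz U : ℂ} {R : ℝ} (hR : 0 < R)
    (hl : l = -((σ : ℂ) * lz)) (hLs : Ls l < Real.log ‖U‖) (hlz : 2 * ‖lz‖ ≤ R)
    (hU : R < U.im) (hU' : R < (U + lz).im) :
    sg l (log ((σ : ℂ) * U)) = log ((σ : ℂ) * (U + lz)) := by
  have hn : R < ‖U‖ := hU.trans_le (im_le_norm U)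
  refine h2.2.2.2.2 l _ _ ?_ ?_ ?_
  · rw [log_re, sig_norm hσ]
    exact hLs
  · rw [exp_log (sig_ne hσ (hR.trans hU')), exp_log (sig_ne hσ (hR.trans hU)), hl]
    ring
  · refine (norm_le_abs_re_add_abs_im _).trans ?_
    rw [sub_re, sub_im, log_re, log_re, log_im, log_im, sig_norm hσ, sig_norm hσ]
    have e1 : |Real.log ‖U + lz‖ - Real.log ‖U‖| ≤ 1 := by
      refine log_close (hR.trans hn) (c := ‖lz‖) (hlz.trans hn.le) (norm_add_le _ _) ?_
      have := norm_sub_norm_le U (-lz)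
      rw [norm_neg, sub_neg_eq_add] at this
      exact this
    have e2 := arg_close hσ (hR.trans hU') (hR.trans hU)
    have e3 := Real.pi_le_four
    linarith

/-- the half-planes -/
theorem half {α : ℂ} {d : ℕ} {L : ℝ} {D : ℂ → ℂ} (h1 : St_DB2) (h2 : St_SG) (hα : Irr α)
    (hd : 1 ≤ d) (hD : DifferentiableOn ℂ D (Hp L))
    (hs : ∀ m n : ℤ, ∃ C L' : ℝ, ∀ y : ℂ, L' ≤ y.re →
      ‖D (sg (lam α m n) y) - D y‖ ≤ C * Real.exp (-(1 + 1 / (d : ℝ)) * y.re))
    {σ : ℤ} (hσ : σ = 1 ∨ σ = -1) : ∃ R0 : ℝ, ∀ R, R0 ≤ R → ∀ k : ℤ, ∃ M : ℝ, ∀ U : ℂ,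
      R < U.im → ‖D (log ((σ : ℂ) * U) + tpi * k)‖ ≤ M := by
  obtain ⟨C1, L1, hC1⟩ := hs 0 (-σ)
  obtain ⟨C2, L2, hC2⟩ := hs (-σ) 0
  set l1 : ℂ := lam α 0 (-σ) with hl1
  set l2 : ℂ := lam α (-σ) 0 with hl2
  have el1 : l1 = -((σ : ℂ) * tpi) := by
    rw [hl1, lam]; push_cast; ring
  have el2 : l2 = -((σ : ℂ) * (tpi * α)) := by
    rw [hl2, lam]; push_cast; ring
  set A : ℝ := |L| + |L1| + |L2| + |Ls l1| + |Ls l2| with hA
  have b0 := abs_nonneg L
  have b1 := abs_nonneg L1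
  have b2 := abs_nonneg L2
  have b3 := abs_nonneg (Ls l1)
  have b4 := abs_nonneg (Ls l2)
  have c0 := le_abs_self L
  have c1 := le_abs_self L1
  have c2 := le_abs_self L2
  have c3 := le_abs_self (Ls l1)
  have c4 := le_abs_self (Ls l2)
  refine ⟨Real.exp A + 2 * ‖tpi‖ + 2 * ‖tpi * α‖, fun R hR k => ?_⟩
  have t0 := Real.exp_pos A
  have t1 := norm_nonneg tpi
  have t2 := norm_nonneg (tpi * α)
  have hRp : 0 < R := by linarith
  have hlog : ∀ U : ℂ, R < U.im → A < Real.log ‖U‖ := by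
    intro U hU
    have hn : R < ‖U‖ := hU.trans_le (im_le_norm U)
    rw [Real.lt_log_iff_exp_lt (hRp.trans hn)]
    linarith
  have hre : ∀ U : ℂ, (log ((σ : ℂ) * U) + tpi * (k : ℂ)).re = Real.log ‖U‖ := by
    intro U
    rw [add_re, tpi_re _ (by simp), add_zero, log_re, sig_norm hσ]
  have hθ : (1 : ℝ) < 1 + 1 / (d : ℝ) := by
    have : (0 : ℝ) < d := by exact_mod_cast hd
    have := one_div_pos.2 this
    linarith
  have hexp : ∀ U : ℂ, R < U.im → Real.exp (-(1 + 1 / (d : ℝ)) * Real.log ‖U‖) =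
      ‖U‖ ^ (-(1 + 1 / (d : ℝ))) := by
    intro U hU
    have hn : R < ‖U‖ := hU.trans_le (im_le_norm U)
    rw [Real.rpow_def_of_pos (hRp.trans hn), mul_comm]
  have hstep : ∀ (l lz : ℂ) (C : ℝ), l = -((σ : ℂ) * lz) → Ls l ≤ A → 2 * ‖lz‖ ≤ R →
      C ≤ |C1| + |C2| →
      (∀ y : ℂ, A ≤ y.re → ‖D (sg l y) - D y‖ ≤ C * Real.exp (-(1 + 1 / (d : ℝ)) * y.re)) →
      ∀ U : ℂ, R < U.im → R < (U + lz).im →
      ‖D (log ((σ : ℂ) * (U + lz)) + tpi * k) - D (log ((σ : ℂ) * U) + tpi * k)‖ ≤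
        (|C1| + |C2|) * ‖U‖ ^ (-(1 + 1 / (d : ℝ))) := by
    intro l lz C e1 e2 e3 e4 e5 U hU hU'
    have g1 := shift h2 hσ hRp e1 (e2.trans_lt (hlog U hU)) e3 hU hU'
    have g2 := e5 (log ((σ : ℂ) * U) + tpi * k) (by rw [hre]; exact (hlog U hU).le)
    rw [h2.2.1, g1, hre, hexp U hU] at g2
    refine g2.trans (mul_le_mul_of_nonneg_right e4 (Real.rpow_nonneg (norm_nonneg _) _))
  refine h1 α R (1 + 1 / (d : ℝ)) (|C1| + |C2|)
    (fun U => D (log ((σ : ℂ) * U) + tpi * (k : ℂ))) hα hRp hθ ?_ ?_ ?_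
  · intro U hU
    have hU : R < U.im := hU
    have hy : log ((σ : ℂ) * U) + tpi * (k : ℂ) ∈ Hp L := by
      change L < (log ((σ : ℂ) * U) + tpi * (k : ℂ)).re
      rw [hre]
      have := hlog U hU
      linarith
    have hop : IsOpen (Hp L) := isOpen_lt continuous_const continuous_re
    have hDa : DifferentiableAt ℂ D (log ((σ : ℂ) * U) + tpi * (k : ℂ)) :=
      hD.differentiableAt (hop.mem_nhds hy)
    have hsl : (σ : ℂ) * U ∈ slitPlane := by
      rw [mem_slitPlane_iff]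
      right
      rcases hσ with rfl | rfl
      · simpa using (hRp.trans hU).ne'
      · simpa using (hRp.trans hU).ne'
    have hla : DifferentiableAt ℂ (fun V : ℂ => log ((σ : ℂ) * V) + tpi * (k : ℂ)) U :=
      ((differentiableAt_id.const_mul (σ : ℂ)).clog hsl).add_const _
    exact (DifferentiableAt.comp U hDa hla).differentiableWithinAt
  · intro U hU
    refine hstep l1 tpi C1 el1 (by linarith) (by linarith)
      ((le_abs_self C1).trans (by linarith [abs_nonneg C2])) ?_ U hU ?_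
    · intro y hy
      exact hC1 y (by linarith)
    · rw [add_im, tpi_im]
      have := Real.pi_pos
      linarith
  · intro U hU hU'
    refine hstep l2 (tpi * α) C2 el2 (by linarith) (by linarith)
      ((le_abs_self C2).trans (by linarith [abs_nonneg C1])) ?_ U hU hU'
    intro y hy
    exact hC2 y (by linarith)

end DB3x

open DB3x in
theorem thm_DB3 (h1 : St_DB2) (h2 : St_SG) : St_DB3 := by
  intro α d L D hα hd hD hper hs
  obtain ⟨R1, hR1⟩ := half h1 h2 hα hd hD hs (σ := 1) (Or.inl rfl)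
  obtain ⟨R2, hR2⟩ := half h1 h2 hα hd hD hs (σ := -1) (Or.inr rfl)
  set R : ℝ := max (max R1 R2) 0 with hR
  have r1 : R1 ≤ R := (le_max_left _ _).trans (le_max_left _ _)
  have r2 : R2 ≤ R := (le_max_right _ _).trans (le_max_left _ _)
  have r0 : 0 ≤ R := le_max_right _ _
  choose M1 hM1 using hR1 R r1
  choose M2 hM2 using hR2 R r2
  set M : ℝ := ∑ j ∈ Finset.range d, (|M1 j| + |M2 j|) with hM
  have hMj : ∀ j : ℕ, j < d → |M1 j| + |M2 j| ≤ M := fun j hj =>
    Finset.single_le_sum (f := fun j : ℕ => |M1 j| + |M2 j|) (fun i _ => by positivity)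
      (Finset.mem_range.2 hj)
  -- outside the strip
  have key : ∀ y : ℂ, L < y.re → R < |(exp y).im| → ‖D y‖ ≤ M := by
    intro y hy him
    have hred : ∀ z : ℂ, exp z = exp y → ∃ j : ℕ, j < d ∧ D y = D (z + tpi * (j : ℤ)) := by
      intro z hz
      obtain ⟨n, hn⟩ := exp_eq_exp_iff_exists_int.1 hz.symm
      have hdp : (0 : ℤ) < d := by exact_mod_cast hd
      refine ⟨(n % d).toNat, ?_, ?_⟩
      · have := Int.emod_lt_of_pos n hdp
        have := Int.emod_nonneg n hdp.ne'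
        omega
      · have e1 : (((n % d).toNat : ℕ) : ℤ) = n % d := Int.toNat_of_nonneg (Int.emod_nonneg n hdp.ne')
        rw [e1]
        have e2 : (n : ℂ) = ((n % d : ℤ) : ℂ) + (d : ℂ) * ((n / d : ℤ) : ℂ) := by
          have := Int.emod_add_mul_ediv n d
          exact_mod_cast this.symm
        have e3 : y = z + tpi * ((n % d : ℤ) : ℂ) + tpi * ((d : ℂ) * ((n / d : ℤ) : ℂ)) := by
          rw [hn, e2, tpi]; ring
        have e4 : z + tpi * ((n % d : ℤ) : ℂ) ∈ Hp L := by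
          change L < (z + tpi * ((n % d : ℤ) : ℂ)).re
          have e5 : y.re = (z + tpi * ((n % d : ℤ) : ℂ)).re := by
            rw [e3, add_re (z + _) , tpi_re ((d : ℂ) * ((n / d : ℤ) : ℂ)) (by simp), add_zero]
          rw [← e5]
          exact hy
        conv_lhs => rw [e3]
        exact per_int hper _ _ e4
    rcases lt_abs.1 him with h | h
    · obtain ⟨j, hj, ej⟩ := hred (log (((1 : ℤ) : ℂ) * exp y)) (by
        rw [Int.cast_one, one_mul, exp_log (exp_ne_zero y)])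
      rw [ej]
      refine (hM1 (j : ℤ) (exp y) h).trans (((le_abs_self _).trans ?_).trans (hMj j hj))
      have := abs_nonneg (M2 j)
      linarith
    · obtain ⟨j, hj, ej⟩ := hred (log (((-1 : ℤ) : ℂ) * (-exp y))) (by
        rw [Int.cast_neg, Int.cast_one, neg_mul_neg, one_mul, exp_log (exp_ne_zero y)])
      rw [ej]
      refine (hM2 (j : ℤ) (-exp y) (by rw [neg_im]; exact h)).trans
        (((le_abs_self _).trans ?_).trans (hMj j hj))
      have := abs_nonneg (M1 j)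
      linarith
  -- the strip
  obtain ⟨n0, hn0⟩ := exists_nat_gt (2 * R + 1)
  obtain ⟨C, L3, hC⟩ := hs 0 (-(n0 : ℤ))
  set l : ℂ := lam α 0 (-(n0 : ℤ)) with hl
  have el : l = -(tpi * (n0 : ℂ)) := by
    rw [hl, lam]; push_cast; ring
  refine ⟨M + |C|, |L| + |L3| + |Ls l| + 2, fun y hy => ?_⟩
  have b0 := abs_nonneg L
  have b1 := abs_nonneg L3
  have b2 := abs_nonneg (Ls l)
  have c0 := le_abs_self L
  have c1 := le_abs_self L3
  have c2 := le_abs_self (Ls l)
  by_cases him : R < |(exp y).im|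
  · have := key y (by linarith) him
    have := abs_nonneg C
    linarith
  · rw [not_lt, abs_le] at him
    obtain ⟨s1, -, s3, -, -⟩ := h2.1 l y (by linarith)
    have s4 : |(sg l y - y).re| ≤ 1 := (abs_re_le_norm _).trans s3
    rw [sub_re, abs_le] at s4
    have s5 : R < |(exp (sg l y)).im| := by
      rw [s1, el, sub_neg_eq_add, add_im]
      have e1 : (tpi * (n0 : ℂ)).im = 2 * Real.pi * n0 := by simp [tpi]
      rw [e1]
      refine lt_of_lt_of_le ?_ (le_abs_self _)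
      have e2 := Real.pi_gt_three
      have e3 : (0 : ℝ) ≤ n0 := Nat.cast_nonneg _
      nlinarith [him.1]
    have s6 := key (sg l y) (by linarith) s5
    have s7 := hC y (by linarith)
    have s8 : C * Real.exp (-(1 + 1 / (d : ℝ)) * y.re) ≤ |C| := by
      refine (mul_le_mul_of_nonneg_right (le_abs_self C) (Real.exp_nonneg _)).trans ?_
      refine mul_le_of_le_one_right (abs_nonneg C) (Real.exp_le_one_iff.2 ?_)
      have e1 : (0 : ℝ) ≤ 1 / (d : ℝ) := by positivity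
      have e2 : 0 ≤ y.re := by linarith
      nlinarith [mul_nonneg e1 e2]
    have s9 : ‖D y‖ ≤ ‖D (sg l y)‖ + ‖D (sg l y) - D y‖ := by
      have := norm_sub_le (D (sg l y)) (D (sg l y) - D y)
      rwa [sub_sub_cancel] at this
    linarith

end Pool.Agent.ECF
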