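import Pool.Agent.ECF.StA

/-!
# ECF, module DPER: entire functions with two independent periods are constant
-/

set_option autoImplicit false

open Complex Polynomial Metric Filter Topology

namespace Pool.Agent.ECF

private theorem per_int {L : ℂ → ℂ} {p : ℂ} (h : ∀ z, L (z + p) = L z) (k : ℤ) (z : ℂ) :
    L (z + k * p) = L z := by
  induction k using Int.induction_on generalizing z with
  | zero => simp
  | succ n ih =>
    have h1 : z + (((n : ℤ) + 1 : ℤ) : ℂ) * p = (z + (n : ℤ) * p) + p := by push_cast; ring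
    rw [h1, h, ih]
  | pred n ih =>
    have h1 : L (z + ((-(n : ℤ) - 1 : ℤ) : ℂ) * p) =
        L ((z + ((-(n : ℤ) - 1 : ℤ) : ℂ) * p) + p) := (h _).symm
    have h2 : (z + ((-(n : ℤ) - 1 : ℤ) : ℂ) * p) + p = z + ((-(n : ℤ) : ℤ) : ℂ) * p := by
      push_cast; ring
    rw [h1, h2, ih]

theorem tpi_ne' : tpi ≠ 0 := by
  unfold tpi
  simp [Real.pi_ne_zero]

private theorem real_case {α : ℂ} {L : ℂ → ℂ} (hα : Irr α) (hL : Differentiable ℂ L)
    (h1 : ∀ z, L (z + tpi) = L z) (h2 : ∀ z, L (z + tpi * α) = L z) (him : α.im = 0) (z w : ℂ) :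
    L z = L w := by
  have hre : α = (α.re : ℂ) := by
    apply Complex.ext <;> simp [him]
  -- nonzero small periods
  have key : ∀ n : ℕ, ∃ ε : ℂ, ε ≠ 0 ∧ ‖ε‖ ≤ 2 * Real.pi / (n + 1) ∧ ∀ z, L (z + ε) = L z := by
    intro n
    obtain ⟨j, k, hk0, -, hjk⟩ := Real.exists_int_int_abs_mul_sub_le α.re (Nat.succ_pos n)
    refine ⟨tpi * (α * k + (-j : ℤ)), ?_, ?_, ?_⟩
    · refine mul_ne_zero tpi_ne' fun h0 => ?_
      have := hα k (-j) h0
      omega
    · have h3 : α * k + ((-j : ℤ) : ℂ) = (((k : ℝ) * α.re - j : ℝ) : ℂ) := by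
        rw [hre]; push_cast; simp; ring
      have h4 : ‖tpi‖ = 2 * Real.pi := by
        unfold tpi
        simp [abs_of_pos Real.pi_pos]
      rw [norm_mul, h4, h3, norm_real, Real.norm_eq_abs, div_eq_mul_one_div]
      refine mul_le_mul_of_nonneg_left (hjk.trans ?_) (by positivity)
      push_cast
      apply one_div_le_one_div_of_le <;> [positivity; linarith]
    · intro z
      have e1 : z + tpi * (α * k + ((-j : ℤ) : ℂ)) = (z + k * (tpi * α)) + ((-j : ℤ) : ℂ) * tpi := by
        ring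
      rw [e1, per_int h1, per_int h2]
  -- identity theorem
  set f : ℂ → ℂ := fun x => L (z + x) - L z with hf
  have hfd : Differentiable ℂ f := (hL.comp ((differentiable_const z).add differentiable_id)).sub_const _
  have hfreq : ∃ᶠ x in 𝓝[≠] (0 : ℂ), f x = 0 := by
    choose ε hε0 hε1 hε2 using key
    have ht : Tendsto ε atTop (𝓝[≠] 0) := by
      rw [tendsto_nhdsWithin_iff]
      refine ⟨?_, Eventually.of_forall fun n => hε0 n⟩
      have h5 : Tendsto (fun n : ℕ => 2 * Real.pi / ((n : ℝ) + 1)) atTop (𝓝 0) :=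
        tendsto_const_div_atTop_nhds_zero_nat (2 * Real.pi) |>.comp (tendsto_add_atTop_nat 1)
          |>.congr fun n => by simp
      exact squeeze_zero_norm hε1 h5
    refine ht.frequently (Frequently.of_forall fun n => ?_)
    simp [hf, hε2]
  have hfa : AnalyticOnNhd ℂ f Set.univ := fun x _ => hfd.analyticAt x
  have hz := hfa.eqOn_zero_of_preconnected_of_frequently_eq_zero isPreconnected_univ
    (Set.mem_univ 0) hfreq (Set.mem_univ (w - z))
  have : L (z + (w - z)) - L z = 0 := hz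
  rw [add_sub_cancel] at this
  exact (sub_eq_zero.1 this).symm

private theorem im_case {α : ℂ} {L : ℂ → ℂ} (hL : Differentiable ℂ L)
    (h1 : ∀ z, L (z + tpi) = L z) (h2 : ∀ z, L (z + tpi * α) = L z) (him : α.im ≠ 0) (z w : ℂ) :
    L z = L w := by
  set K : Set ℂ := (fun p : ℝ × ℝ => tpi * ((p.1 : ℂ) + p.2 * α)) '' (Set.Icc 0 1 ×ˢ Set.Icc 0 1)
    with hK
  have hKc : IsCompact K := by
    refine (isCompact_Icc.prod isCompact_Icc).image ?_
    fun_prop
  obtain ⟨M, hM⟩ := (hKc.image hL.continuous).isBounded.exists_norm_le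
  have hbd : ∀ z, ‖L z‖ ≤ M := by
    intro z
    set y : ℝ := (z / tpi).im / α.im with hy
    set x : ℝ := (z / tpi).re - y * α.re with hx
    have hz : z = tpi * ((x : ℂ) + y * α) := by
      have h3 : z / tpi = (x : ℂ) + y * α := by
        apply Complex.ext
        · simp [hx]
        · simp [hy]; field_simp
      rw [← h3, mul_div_cancel₀ _ tpi_ne']
    have h4 : L z = L (tpi * (((Int.fract x : ℝ) : ℂ) + (Int.fract y : ℝ) * α)) := by
      have h5 : z = tpi * (((Int.fract x : ℝ) : ℂ) + (Int.fract y : ℝ) * α) + (⌊x⌋ : ℤ) * tpi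
          + (⌊y⌋ : ℤ) * (tpi * α) := by
        conv_lhs => rw [hz, ← Int.fract_add_floor x, ← Int.fract_add_floor y]
        push_cast
        ring
      rw [h5, per_int h2, per_int h1]
    rw [h4]
    apply hM
    refine ⟨_, ⟨(Int.fract x, Int.fract y), ⟨⟨Int.fract_nonneg _, (Int.fract_lt_one _).le⟩,
      ⟨Int.fract_nonneg _, (Int.fract_lt_one _).le⟩⟩, rfl⟩, rfl⟩
  exact hL.apply_eq_apply_of_bounded (isBounded_iff_forall_norm_le.2
    ⟨M, by rintro _ ⟨z, rfl⟩; exact hbd z⟩) z w

theorem thm_DPER : St_DPER := by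
  intro α L hα hL h1 h2 z w
  by_cases him : α.im = 0
  · exact real_case hα hL h1 h2 him z w
  · exact im_case hL h1 h2 him z w

end Pool.Agent.ECF
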