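import Pool.Agent.ECF.StC

/-!
# ECF / EGR: in the irrational case all the differences grow polynomially
-/

set_option autoImplicit false

open Complex Polynomial Metric

namespace Pool.Agent.ECF

namespace EGRx

theorem tpi_re (d : ℕ) : (tpi * d).re = 0 := by simp [tpi]

theorem tpi_im (d : ℕ) : (tpi * d).im = 2 * Real.pi * d := by simp [tpi]

theorem exp_per (y : ℂ) (d : ℕ) : exp (-(y + tpi * d)) = exp (-y) := by
  rw [Complex.exp_eq_exp_iff_exists_int]
  refine ⟨-(d : ℤ), ?_⟩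
  unfold tpi
  push_cast
  ring

theorem hp_open (L : ℝ) : IsOpen (Hp L) := isOpen_lt continuous_const Complex.continuous_re

theorem hp_mono {L K : ℝ} (h : L ≤ K) : Hp K ⊆ Hp L := fun y hy => by
  have hy' : K < y.re := hy
  exact lt_of_le_of_lt h hy'

theorem hp_per {L : ℝ} {d : ℕ} {y : ℂ} (h : y ∈ Hp L) (j : ℤ) : y + j * (tpi * d) ∈ Hp L := by
  have h1 : ((j : ℂ) * (tpi * d)).re = 0 := by simp [tpi]
  change L < (y + j * (tpi * d)).re
  rw [Complex.add_re, h1, add_zero]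
  exact h

theorem per_nat {f : ℂ → ℂ} {d : ℕ} {L : ℝ} (h : ∀ y ∈ Hp L, f (y + tpi * d) = f y) (j : ℕ) :
    ∀ y ∈ Hp L, f (y + (j : ℤ) * (tpi * d)) = f y := by
  induction j with
  | zero => intro y _; simp
  | succ j ih =>
    intro y hy
    have h1 : y + ((j + 1 : ℕ) : ℤ) * (tpi * d) = (y + (j : ℤ) * (tpi * d)) + tpi * d := by
      push_cast
      ring
    rw [h1, h _ (hp_per hy j), ih y hy]

theorem per_int {f : ℂ → ℂ} {d : ℕ} {L : ℝ} (h : ∀ y ∈ Hp L, f (y + tpi * d) = f y) (j : ℤ)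
    {y : ℂ} (hy : y ∈ Hp L) : f (y + j * (tpi * d)) = f y := by
  obtain ⟨n, rfl | rfl⟩ := Int.eq_nat_or_neg j
  · exact per_nat h n y hy
  · have h1 := per_nat h n (y + ((-(n : ℤ) : ℤ) : ℂ) * (tpi * d)) (hp_per hy _)
    rw [← h1]
    congr 1
    push_cast
    ring

/-- every point can be moved into the strip -/
theorem strip {d : ℕ} (hd : 1 ≤ d) (y : ℂ) : ∃ j : ℤ, (y + j * (tpi * d)).re = y.re ∧
    |(y + j * (tpi * d)).im| ≤ 2 * Real.pi * d := by
  have hp : (0 : ℝ) < 2 * Real.pi * d := by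
    have : (0 : ℝ) < d := by exact_mod_cast hd
    positivity
  refine ⟨-⌊y.im / (2 * Real.pi * d)⌋, by simp [tpi], ?_⟩
  have e1 : (y + ((-⌊y.im / (2 * Real.pi * d)⌋ : ℤ) : ℂ) * (tpi * d)).im =
      y.im - ⌊y.im / (2 * Real.pi * d)⌋ * (2 * Real.pi * d) := by
    rw [Complex.add_im, Complex.mul_im, tpi_re, tpi_im]
    simp
    ring
  rw [e1]
  have h1 := Int.floor_le (y.im / (2 * Real.pi * d))
  have h2 := Int.lt_floor_add_one (y.im / (2 * Real.pi * d))
  rw [le_div_iff₀ hp] at h1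
  rw [div_lt_iff₀ hp] at h2
  rw [abs_le]
  constructor <;> nlinarith

/-- linear against exponential -/
theorem lin_exp {d : ℕ} (hd : 1 ≤ d) (A1 A2 E : ℝ) {c' : ℝ} (hc : 0 < c') :
    ∃ X : ℝ, 0 ≤ X ∧ ∀ x : ℝ, X ≤ x → A1 * x + A2 - c' * Real.exp (x / d) ≤ E := by
  have hd0 : (0 : ℝ) < d := by exact_mod_cast hd
  set B : ℝ := |A1| + |A2| + |E| with hB
  have hB0 : 0 ≤ B := by positivity
  refine ⟨1 + 2 * d ^ 2 / c' * B, by positivity, fun x hx => ?_⟩
  have hx1 : 1 ≤ x := by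
    have : 0 ≤ 2 * (d : ℝ) ^ 2 / c' * B := by positivity
    linarith
  have hx2 : 2 * (d : ℝ) ^ 2 / c' * B ≤ x := by linarith
  have h1 : (x / d) ^ 2 / 2 ≤ Real.exp (x / d) := by
    have := Real.quadratic_le_exp_of_nonneg (x := x / d) (by positivity)
    have h0 : 0 ≤ x / d := by positivity
    linarith
  have h2 : B * x ≤ c' * ((x / d) ^ 2 / 2) := by
    have h3 : B ≤ c' * x / (2 * (d : ℝ) ^ 2) := by
      rw [le_div_iff₀ (by positivity)]
      rw [div_mul_eq_mul_div, div_le_iff₀ hc] at hx2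
      linarith
    calc B * x ≤ c' * x / (2 * (d : ℝ) ^ 2) * x := mul_le_mul_of_nonneg_right h3 (by linarith)
      _ = c' * ((x / d) ^ 2 / 2) := by
          field_simp
  have h3 : c' * ((x / d) ^ 2 / 2) ≤ c' * Real.exp (x / d) := mul_le_mul_of_nonneg_left h1 hc.le
  have h4 : A1 * x ≤ |A1| * x := mul_le_mul_of_nonneg_right (le_abs_self _) (by linarith)
  have h5 : A2 ≤ |A2| * x := (le_abs_self _).trans (le_mul_of_one_le_right (abs_nonneg _) hx1)
  have h6 : -E ≤ |E| * x := (neg_le_abs _).trans (le_mul_of_one_le_right (abs_nonneg _) hx1)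
  have h7 : B * x = |A1| * x + |A2| * x + |E| * x := by rw [hB]; ring
  linarith

/-- the bound for a function comparable with `exp e` -/
theorem key {d : ℕ} (hd : 1 ≤ d) {F G e : ℂ → ℂ} {L1 : ℝ} (hG : ∀ y ∈ Hp L1, exp (e y) = G y)
    (hc : Cmp d F G) {c0 : ℂ} {b : ℂ → ℝ} {C L2 : ℝ}
    (he : ∀ y : ℂ, L2 ≤ y.re → (e y).re ≤ ‖c0‖ * ‖y‖ + C + b y) :
    ∃ A1 A2 L' : ℝ, 0 ≤ A1 ∧ 0 ≤ L' ∧ ∀ y : ℂ, L' ≤ y.re → ‖F y‖ ≤ Real.exp (A1 * ‖y‖ + A2 + b y) := by
  obtain ⟨κ, c, C1, L3, h, -, hF⟩ := hc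
  have hd0 : (1 : ℝ) ≤ d := by exact_mod_cast hd
  refine ⟨|(κ : ℝ)| + ‖c0‖, ‖c‖ + |C1| + C, max (max (L3 + 1) (L1 + 1)) (max L2 0), by positivity,
    (le_max_right _ _).trans (le_max_right _ _), fun y hy => ?_⟩
  have y3 : L3 + 1 ≤ y.re := ((le_max_left _ _).trans (le_max_left _ _)).trans hy
  have y1 : L1 + 1 ≤ y.re := ((le_max_right _ _).trans (le_max_left _ _)).trans hy
  have y2 : L2 ≤ y.re := ((le_max_left _ _).trans (le_max_right _ _)).trans hy
  have y0 : 0 ≤ y.re := ((le_max_right _ _).trans (le_max_right _ _)).trans hy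
  have m3 : y ∈ Hp L3 := by
    change L3 < y.re
    linarith
  have m1 : y ∈ Hp L1 := by
    change L1 < y.re
    linarith
  obtain ⟨e1, e2⟩ := hF y m3
  rw [e1, ← hG y m1, norm_mul, Complex.norm_exp, Complex.norm_exp, ← Real.exp_add]
  refine Real.exp_le_exp.2 ?_
  have h1 : (h y).re ≤ |(κ : ℝ)| * ‖y‖ + ‖c‖ + |C1| := by
    have e3 : ‖(κ : ℂ) * y / d‖ ≤ |(κ : ℝ)| * ‖y‖ := by
      rw [norm_div, norm_mul, Complex.norm_intCast, Complex.norm_natCast]
      exact div_le_self (by positivity) hd0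
    have e4 : C1 * Real.exp (-y.re / d) ≤ |C1| := by
      have e5 : Real.exp (-y.re / d) ≤ 1 := by
        rw [Real.exp_le_one_iff]
        exact div_nonpos_of_nonpos_of_nonneg (by linarith) (by linarith)
      calc C1 * Real.exp (-y.re / d) ≤ |C1| * Real.exp (-y.re / d) :=
            mul_le_mul_of_nonneg_right (le_abs_self _) (Real.exp_pos _).le
        _ ≤ |C1| * 1 := mul_le_mul_of_nonneg_left e5 (abs_nonneg _)
        _ = |C1| := mul_one _
    calc (h y).re ≤ ‖h y‖ := Complex.re_le_norm _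
      _ = ‖(h y - κ * y / d - c) + κ * y / d + c‖ := by
          congr 1
          ring
      _ ≤ ‖h y - κ * y / d - c‖ + ‖(κ : ℂ) * y / d‖ + ‖c‖ :=
          (norm_add_le _ _).trans (add_le_add_left (norm_add_le _ _) _)
      _ ≤ _ := by linarith
  have h2 := he y y2
  have h3 : (|(κ : ℝ)| + ‖c0‖) * ‖y‖ = |(κ : ℝ)| * ‖y‖ + ‖c0‖ * ‖y‖ := by ring
  linarith

theorem norm_le {y : ℂ} {R : ℝ} (h0 : 0 ≤ y.re) (hR : |y.im| ≤ R) : ‖y‖ ≤ y.re + R := by
  have h := Complex.norm_le_abs_re_add_abs_im y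
  rw [abs_of_nonneg h0] at h
  linarith

end EGRx

open EGRx

theorem thm_EGR (h1 : St_EWD) (h2 : St_DB1) (h3 : St_DB3) (h4 : St_EXN) (h5 : St_CCA)
    (h6 : St_CCB) (h7 : St_CMS) (h8 : St_FZ) (h9 : St_SG) : St_EGR := by
  intro α d L q hD
  obtain ⟨e, L1, he1, he2, he3, he4⟩ := h1 α d L q hD
  have hd := hD.pos
  -- the derivative of `e`
  have hDd : DifferentiableOn ℂ (fun y => deriv e y * exp (-y)) (Hp L1) :=
    (he1.deriv (hp_open L1)).mul (Complex.differentiable_exp.comp differentiable_neg).differentiableOn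
  obtain ⟨M, L2, hM⟩ := h3 α d L1 (fun y => deriv e y * exp (-y)) hD.irr hd hDd
    (fun y hy => by
      change deriv e (y + tpi * d) * exp (-(y + tpi * d)) = deriv e y * exp (-y)
      rw [he3 y hy, exp_per])
    (fun m n => h2 d L1 e (lam α m n) hd he1 (he4 m n))
  -- the expansion of `e`
  obtain ⟨c0, B, C, L3, hB0, hexp⟩ := h4 d (max L1 L2) M e hd
    (he1.mono (hp_mono (le_max_left L1 L2)))
    (fun y hy => he3 y (hp_mono (le_max_left L1 L2) hy))
    (fun y hy => by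
      have hy3 : L1 ⊔ L2 < y.re := hy
      have hy2 : L2 ≤ y.re := (lt_of_le_of_lt (le_max_right L1 L2) hy3).le
      have h := hM y hy2
      rw [norm_mul, Complex.norm_exp, Complex.neg_re] at h
      have e1 : ‖deriv e y‖ = ‖deriv e y‖ * Real.exp (-y.re) * Real.exp y.re := by
        rw [mul_assoc, ← Real.exp_add, neg_add_cancel, Real.exp_zero, mul_one]
      rw [e1]
      exact mul_le_mul_of_nonneg_right h (Real.exp_pos _).le)
  have hre : ∀ y : ℂ, L3 ≤ y.re → (e y).re ≤ ‖c0‖ * ‖y‖ + C + (B.eval (exp (y / d))).re := by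
    intro y hy
    have e1 := (Complex.re_le_norm _).trans (hexp y hy)
    have e2 : (c0 * y).re ≤ ‖c0‖ * ‖y‖ := (Complex.re_le_norm _).trans (norm_mul_le _ _)
    rw [Complex.sub_re, Complex.sub_re] at e1
    linarith
  -- `B = 0`
  have hB : B = 0 := by
    by_contra hne
    have hdeg : 1 ≤ B.natDegree := by
      by_contra hlt
      have h0 : B.natDegree = 0 := by omega
      have e1 := Polynomial.eq_C_of_natDegree_eq_zero h0
      rw [hB0, map_zero] at e1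
      exact hne e1
    obtain ⟨θ0, δ, c', L4, hδ, hc', hneg⟩ := h5 d B hd hdeg
    have hsmall : ∀ m n : ℤ, ¬ (m = 0 ∧ n = 0) → ∀ ε : ℝ, 0 < ε → ∃ L' : ℝ, ∀ y : ℂ, L' ≤ y.re →
        |y.im - θ0| ≤ δ → ‖fz q α m n 0 y‖ ≤ ε := by
      intro m n hmn ε hε
      obtain ⟨A1, A2, L5, hA1, hL5, hF⟩ := key hd he2
        ((h7 α d L q hD).1 m n 0 0 1 0 hmn (by simp)) hre
      obtain ⟨X, hX, hlin⟩ := lin_exp hd A1 (A1 * (|θ0| + δ) + A2) (Real.log ε) hc'
      refine ⟨max (max L4 L5) X, fun y hy hyi => ?_⟩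
      have y4 : L4 ≤ y.re := ((le_max_left _ _).trans (le_max_left _ _)).trans hy
      have y5 : L5 ≤ y.re := ((le_max_right _ _).trans (le_max_left _ _)).trans hy
      have yX : X ≤ y.re := (le_max_right _ _).trans hy
      have y0 : 0 ≤ y.re := hX.trans yX
      have hyim : |y.im| ≤ |θ0| + δ := by
        have e1 : y.im = θ0 + (y.im - θ0) := by ring
        rw [e1]
        exact (abs_add_le _ _).trans (by linarith)
      have hyn := norm_le y0 hyim
      refine (hF y y5).trans ?_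
      rw [← Real.exp_log hε]
      refine Real.exp_le_exp.2 ?_
      have e2 := hneg y y4 hyi
      have e3 := hlin y.re yX
      have e4 : A1 * ‖y‖ ≤ A1 * (y.re + (|θ0| + δ)) := mul_le_mul_of_nonneg_left hyn hA1
      linarith
    refine h6 α q L θ0 δ hδ hD.diff fun ε hε => ?_
    obtain ⟨La, ha⟩ := hsmall 0 1 (by simp) ε hε
    obtain ⟨Lb, hb⟩ := hsmall 1 0 (by simp) ε hε
    refine ⟨max La Lb, fun y hy hyi => ⟨?_, ?_⟩⟩
    · have e1 := ha y ((le_max_left _ _).trans hy) hyi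
      simpa [fz, lam] using e1
    · have e1 := hb y ((le_max_right _ _).trans hy) hyi
      simpa [fz, lam] using e1
  -- growth for nonzero `(m, n)`
  have hre' : ∀ y : ℂ, L3 ≤ y.re → (e y).re ≤ ‖c0‖ * ‖y‖ + C + (fun _ : ℂ => (0 : ℝ)) y := by
    intro y hy
    have e1 := hre y hy
    rw [hB, Polynomial.eval_zero, Complex.zero_re] at e1
    exact e1
  have hgrow : ∀ m n k : ℤ, ¬ (m = 0 ∧ n = 0) → ∃ (N : ℕ) (C L' : ℝ), 0 ≤ C ∧ 0 ≤ L' ∧
      ∀ y : ℂ, L' ≤ y.re → ‖fz q α m n k y‖ ≤ C * Real.exp (N * y.re) := by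
    intro m n k hmn
    obtain ⟨A1, A2, L5, hA1, hL5, hF⟩ := key hd he2
      ((h7 α d L q hD).1 m n k 0 1 0 hmn (by simp)) hre'
    obtain ⟨L6, -, hper, -⟩ := (h8 α d L q hD).1 m n k
    refine ⟨⌈A1⌉₊, Real.exp (A1 * (2 * Real.pi * d) + A2), max L5 (L6 + 1), (Real.exp_pos _).le,
      hL5.trans (le_max_left _ _), fun y hy => ?_⟩
    have y5 : L5 ≤ y.re := (le_max_left _ _).trans hy
    have y6 : L6 + 1 ≤ y.re := (le_max_right _ _).trans hy
    have m6 : y ∈ Hp L6 := by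
      change L6 < y.re
      linarith
    obtain ⟨j, hj1, hj2⟩ := strip hd y
    rw [← per_int hper j m6]
    have y0 : 0 ≤ (y + j * (tpi * d)).re := by
      rw [hj1]
      linarith
    have hyn := norm_le y0 hj2
    refine (hF _ (by rw [hj1]; exact y5)).trans ?_
    rw [← Real.exp_add]
    refine Real.exp_le_exp.2 ?_
    rw [hj1] at hyn
    have e4 : A1 * ‖y + j * (tpi * d)‖ ≤ A1 * (y.re + 2 * Real.pi * d) :=
      mul_le_mul_of_nonneg_left hyn hA1
    have e5 : A1 * y.re ≤ (⌈A1⌉₊ : ℝ) * y.re :=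
      mul_le_mul_of_nonneg_right (Nat.le_ceil A1) (by rw [hj1] at y0; exact y0)
    linarith
  intro m n k
  by_cases hmn : m = 0 ∧ n = 0
  · obtain ⟨rfl, rfl⟩ := hmn
    obtain ⟨N1, C1, K1, hC1, hK1, g1⟩ := hgrow 0 1 0 (by simp)
    obtain ⟨N2, C2, K2, hC2, hK2, g2⟩ := hgrow 0 (-1) k (by simp)
    obtain ⟨K3, g3⟩ := (h8 α d L q hD).2 0 1 0 0 (-1) k
    refine ⟨max N1 N2, C1 + C2 * Real.exp N2, max (max K1 (K2 + 1)) (max (K3 + 1)
      (Ls (lam α 0 1) + 1)), fun y hy => ?_⟩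
    have y1 : K1 ≤ y.re := ((le_max_left _ _).trans (le_max_left _ _)).trans hy
    have y2 : K2 + 1 ≤ y.re := ((le_max_right _ _).trans (le_max_left _ _)).trans hy
    have y3 : K3 + 1 ≤ y.re := ((le_max_left _ _).trans (le_max_right _ _)).trans hy
    have y4 : Ls (lam α 0 1) + 1 ≤ y.re := ((le_max_right _ _).trans (le_max_right _ _)).trans hy
    have y0 : 0 ≤ y.re := hK1.trans y1
    have m3 : y ∈ Hp K3 := by
      change K3 < y.re
      linarith
    have e1 := g3 y m3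
    have e2 : fz q α (0 + 0) (1 + -1) (0 + k) y = fz q α 0 0 k y := by norm_num
    rw [e2] at e1
    rw [← e1]
    obtain ⟨-, -, s1, -, -⟩ := h9.1 (lam α 0 1) y (by linarith)
    have s2 := abs_le.1 ((Complex.abs_re_le_norm _).trans s1)
    rw [Complex.sub_re] at s2
    have e3 : sg (lam α 0 1) y + tpi * ((0 : ℤ) : ℂ) = sg (lam α 0 1) y := by simp
    rw [e3]
    have b1 := g1 y y1
    have b2 := g2 (sg (lam α 0 1) y) (by linarith [s2.1])
    have hm1 : (N1 : ℝ) * y.re ≤ ((max N1 N2 : ℕ) : ℝ) * y.re :=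
      mul_le_mul_of_nonneg_right (by exact_mod_cast le_max_left _ _) y0
    have hm2 : (N2 : ℝ) * (sg (lam α 0 1) y).re ≤ N2 + ((max N1 N2 : ℕ) : ℝ) * y.re := by
      have t1 : (N2 : ℝ) * (sg (lam α 0 1) y).re ≤ (N2 : ℝ) * (y.re + 1) :=
        mul_le_mul_of_nonneg_left (by linarith [s2.2]) (Nat.cast_nonneg _)
      have t2 : (N2 : ℝ) * y.re ≤ ((max N1 N2 : ℕ) : ℝ) * y.re :=
        mul_le_mul_of_nonneg_right (by exact_mod_cast le_max_right _ _) y0
      linarith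
    calc ‖fz q α 0 1 0 y + fz q α 0 (-1) k (sg (lam α 0 1) y)‖
        ≤ C1 * Real.exp (N1 * y.re) + C2 * Real.exp (N2 * (sg (lam α 0 1) y).re) :=
          (norm_add_le _ _).trans (add_le_add b1 b2)
      _ ≤ C1 * Real.exp (((max N1 N2 : ℕ) : ℝ) * y.re) +
          C2 * Real.exp (N2 + ((max N1 N2 : ℕ) : ℝ) * y.re) :=
          add_le_add (mul_le_mul_of_nonneg_left (Real.exp_le_exp.2 hm1) hC1)
            (mul_le_mul_of_nonneg_left (Real.exp_le_exp.2 hm2) hC2)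
      _ = _ := by
          rw [Real.exp_add]
          ring
  · obtain ⟨N, C', L', -, -, hg⟩ := hgrow m n k hmn
    exact ⟨N, C', L', hg⟩

end Pool.Agent.ECF
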