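import Pool.Agent.ECF.StB

/-!
# ECF, EWD: the logarithm of `fz q α 0 1 0` and its shifts
-/

set_option autoImplicit false

open Complex Polynomial Metric

namespace Pool.Agent.ECF

namespace EWDx

lemma isOpen_Hp (L : ℝ) : IsOpen (Hp L) := isOpen_lt continuous_const continuous_re

lemma convex_Hp (L : ℝ) : Convex ℝ (Hp L) := convex_halfSpace_re_gt L

lemma re_tpi (d : ℕ) : (tpi * (d : ℂ)).re = 0 := by
  unfold tpi
  simp

lemma mem_add {L : ℝ} {y : ℂ} (d : ℕ) (hy : y ∈ Hp L) : y + tpi * d ∈ Hp L := by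
  change L < (y + tpi * d).re
  rw [add_re, re_tpi, add_zero]
  exact hy

/-- the derivative of a logarithm of a periodic function is periodic -/
lemma deriv_per {L : ℝ} {d : ℕ} {e E : ℂ → ℂ} (he : DifferentiableOn ℂ e (Hp L))
    (hE : ∀ y ∈ Hp L, exp (e y) = E y) (hp : ∀ y ∈ Hp L, E (y + tpi * d) = E y) {y : ℂ}
    (hy : y ∈ Hp L) : deriv e (y + tpi * d) = deriv e y := by
  have key : ∀ z ∈ Hp L, deriv E z = exp (e z) * deriv e z := by
    intro z hz
    have h1 : (fun w => exp (e w)) =ᶠ[nhds z] E := by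
      filter_upwards [(isOpen_Hp L).mem_nhds hz] with w hw
      exact hE w hw
    have h2 : HasDerivAt (fun w => exp (e w)) (exp (e z) * deriv e z) z :=
      ((he.differentiableAt ((isOpen_Hp L).mem_nhds hz)).hasDerivAt).cexp
    rw [← h1.deriv_eq, h2.deriv]
  have h1 : deriv E (y + tpi * d) = deriv E y := by
    have h2 : (fun w => E (w + tpi * d)) =ᶠ[nhds y] E := by
      filter_upwards [(isOpen_Hp L).mem_nhds hy] with w hw
      exact hp w hw
    rw [← h2.deriv_eq, deriv_comp_add_const]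
  rw [key y hy, key _ (mem_add d hy), hE _ (mem_add d hy), hp y hy, ← hE y hy] at h1
  exact mul_left_cancel₀ (exp_ne_zero _) h1

end EWDx

open EWDx in
theorem thm_EWD (h1 : St_CMS) (h2 : St_CMT) (h3 : St_FZ) (h4 : St_WND) (h5 : St_LOG) (h6 : St_SG) :
    St_EWD := by
  intro α d L q hD
  obtain ⟨L1, hE1, hE2, hE3⟩ := (h3 α d L q hD).1 0 1 0
  have hE3' := hE3 (by norm_num)
  obtain ⟨e, he, hee⟩ := h5 (Hp L1) (fz q α 0 1 0) (isOpen_Hp L1) (convex_Hp L1) hE1 hE3'
  obtain ⟨hsg1, -, hsg3, hsg4, -⟩ := h6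
  obtain ⟨-, hcs, hct, hcc⟩ := h2 d
  obtain ⟨hc1, hc2⟩ := h1 α d L q hD
  have main : ∀ m n : ℤ, ¬ (m = 0 ∧ n = 0) → ¬ (m = 0 ∧ n + 1 = 0) →
      ∃ (c : ℂ) (C L' : ℝ), ∀ y : ℂ, L' ≤ y.re →
        ‖e (sg (lam α m n) y) - e y - c‖ ≤ C * Real.exp (-y.re / d) := by
    intro m n hmn hmn1
    refine h4 d L1 e (lam α m n) hD.pos he ?_ ?_
    · intro y hy
      rw [hee _ (mem_add d hy), hee y hy, hE2 y hy]
    · have a1 := hc2 m n 0 0 1 0 hmn (by norm_num) (by rwa [add_zero])
      have a2 := hc1 (m + 0) (n + 1) (0 + 0) 0 1 0 (by rwa [add_zero]) (by norm_num)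
      have a3 := hct _ _ _ a1 a2
      have a4 : Cmp d (fun y => exp (e (sg (lam α m n) y))) (fz q α 0 1 0) := by
        refine hcc _ _ _ ⟨max (Ls (lam α m n)) (L1 + 1), fun y hy => ?_⟩ a3
        have hy' : max (Ls (lam α m n)) (L1 + 1) < y.re := hy
        have hy1 := (le_max_left _ _).trans_lt hy'
        have hy2 := (le_max_right _ _).trans_lt hy'
        obtain ⟨-, -, b3, -⟩ := hsg1 (lam α m n) y hy1
        have b4 : sg (lam α m n) y ∈ Hp L1 := by
          change L1 < (sg (lam α m n) y).re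
          have b5 := (abs_re_le_norm (sg (lam α m n) y - y)).trans b3
          rw [sub_re, abs_le] at b5
          linarith [b5.1]
        simp only [Int.cast_zero, mul_zero, add_zero]
        rw [hee _ b4]
      have a5 : Cmp d (fun y => exp (e y)) (fz q α 0 1 0) := by
        refine hcc (fz q α 0 1 0) _ _ ⟨L1, fun y hy => (hee y hy).symm⟩ ((h2 d).1 _)
      exact hct _ _ _ a4 (hcs _ _ a5)
  refine ⟨e, L1, he, hee, fun y hy => deriv_per he hee hE2 hy, fun m n => ?_⟩
  by_cases hmn : m = 0 ∧ n = 0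
  · obtain ⟨rfl, rfl⟩ := hmn
    refine ⟨0, 0, 0, fun y _ => ?_⟩
    have hl : lam α 0 0 = 0 := by
      unfold lam
      simp
    rw [hl, hsg4, sub_self, sub_zero, norm_zero, zero_mul]
  by_cases hmn1 : m = 0 ∧ n + 1 = 0
  · obtain ⟨rfl, hn⟩ := hmn1
    have hn' : n = -1 := by omega
    subst hn'
    obtain ⟨c1, C1, l1, b1⟩ := main 1 0 (by norm_num) (by norm_num)
    obtain ⟨c2, C2, l2, b2⟩ := main (-1) (-1) (by norm_num) (by norm_num)
    set u1 := lam α 1 0 with hu1
    set u2 := lam α (-1) (-1) with hu2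
    have hsum : u1 + u2 = lam α 0 (-1) := by
      rw [hu1, hu2]
      unfold lam
      push_cast
      ring
    refine ⟨c1 + c2, C1 + |C2| * Real.exp (1 / d),
      max (max (Ls u1 + 1) (Ls u1 + Ls u2 + 3)) (max l1 (l2 + 1)), fun y hy => ?_⟩
    have y1 : Ls u1 + 1 ≤ y.re := ((le_max_left _ _).trans (le_max_left _ _)).trans hy
    have y2 : Ls u1 + Ls u2 + 3 ≤ y.re := ((le_max_right _ _).trans (le_max_left _ _)).trans hy
    have y3 : l1 ≤ y.re := ((le_max_left _ _).trans (le_max_right _ _)).trans hy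
    have y4 : l2 + 1 ≤ y.re := ((le_max_right _ _).trans (le_max_right _ _)).trans hy
    obtain ⟨-, -, s3, -⟩ := hsg1 u1 y (by linarith)
    have s5 := (abs_re_le_norm (sg u1 y - y)).trans s3
    rw [sub_re, abs_le] at s5
    have s6 : y.re - 1 ≤ (sg u1 y).re := by linarith [s5.1]
    have e1 := b1 y y3
    have e2 := b2 (sg u1 y) (by linarith)
    rw [hsg3 u1 u2 y (by linarith), hsum] at e2
    have hd : (0 : ℝ) < d := Nat.cast_pos.2 hD.pos
    have e3 : C2 * Real.exp (-(sg u1 y).re / d) ≤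
        |C2| * Real.exp (1 / d) * Real.exp (-y.re / d) := by
      rw [mul_assoc, ← Real.exp_add]
      refine mul_le_mul (le_abs_self _) (Real.exp_le_exp.2 ?_) (Real.exp_pos _).le (abs_nonneg _)
      rw [← add_div]
      exact div_le_div_of_nonneg_right (by linarith) hd.le
    have e4 : e (sg (lam α 0 (-1)) y) - e y - (c1 + c2) =
        (e (sg (lam α 0 (-1)) y) - e (sg u1 y) - c2) + (e (sg u1 y) - e y - c1) := by ring
    rw [e4]
    refine (norm_add_le _ _).trans ?_
    rw [add_mul]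
    linarith
  · exact main m n hmn hmn1

end Pool.Agent.ECF
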