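import Pool.Agent.ECF.StC

/-!
# ECF, module EXN: expansion of `e`
-/

set_option autoImplicit false

open Complex Polynomial Metric

namespace Pool.Agent.ECF

namespace EXNx

theorem isOpen_Hp (L : ℝ) : IsOpen (Hp L) := isOpen_lt continuous_const Complex.continuous_re

/-- a primitive of `Q (exp (y / d))` without the constant term -/
theorem prim (d : ℕ) (hd : 1 ≤ d) (Q : ℂ[X]) : ∃ B : ℂ[X], B.coeff 0 = 0 ∧
    ∀ y : ℂ, HasDerivAt (fun y => B.eval (exp (y / d))) (Q.eval (exp (y / d)) - Q.coeff 0) y := by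
  have hd0 : (d : ℂ) ≠ 0 := Nat.cast_ne_zero.2 (by omega)
  refine ⟨∑ j ∈ Finset.range Q.natDegree, C ((d : ℂ) / ((j : ℂ) + 1) * Q.coeff (j + 1)) *
    X ^ (j + 1), ?_, ?_⟩
  · rw [Polynomial.coeff_zero_eq_eval_zero, Polynomial.eval_finsetSum]
    refine Finset.sum_eq_zero fun j _ => ?_
    simp
  · intro y
    have h1 : (fun y : ℂ => (∑ j ∈ Finset.range Q.natDegree,
        C ((d : ℂ) / ((j : ℂ) + 1) * Q.coeff (j + 1)) * X ^ (j + 1) : ℂ[X]).eval (exp (y / d))) =
        fun y : ℂ => ∑ j ∈ Finset.range Q.natDegree,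
          ((d : ℂ) / ((j : ℂ) + 1) * Q.coeff (j + 1)) * exp (((j : ℂ) + 1) * (y / d)) := by
      funext y
      rw [Polynomial.eval_finsetSum]
      refine Finset.sum_congr rfl fun j _ => ?_
      rw [Polynomial.eval_mul, Polynomial.eval_C, Polynomial.eval_pow, Polynomial.eval_X,
        ← Complex.exp_nat_mul]
      push_cast
      rfl
    have h2 : Q.eval (exp (y / d)) - Q.coeff 0 = ∑ j ∈ Finset.range Q.natDegree,
        Q.coeff (j + 1) * exp (((j : ℂ) + 1) * (y / d)) := by
      rw [Polynomial.eval_eq_sum_range, Finset.sum_range_succ', pow_zero, mul_one,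
        add_sub_cancel_right]
      refine Finset.sum_congr rfl fun j _ => ?_
      rw [← Complex.exp_nat_mul]
      push_cast
      rfl
    rw [h1, h2]
    refine HasDerivAt.fun_sum fun j _ => ?_
    have h3 : HasDerivAt (fun y : ℂ => ((j : ℂ) + 1) * (y / d)) (((j : ℂ) + 1) * (1 / d)) y :=
      ((hasDerivAt_id y).div_const (d : ℂ)).const_mul _
    have h4 := (h3.cexp).const_mul ((d : ℂ) / ((j : ℂ) + 1) * Q.coeff (j + 1))
    have hj : (j : ℂ) + 1 ≠ 0 := Nat.cast_add_one_ne_zero j
    refine h4.congr_deriv ?_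
    field_simp

end EXNx

open EXNx

theorem thm_EXN (h1 : St_PER) : St_EXN := by
  intro d L M e hd he hper hM
  have hdR : (0 : ℝ) < d := Nat.cast_pos.2 (by omega)
  obtain ⟨Q, C, -, hQ⟩ := h1 d d L M 0 (deriv e) hd le_rfl zero_lt_one (he.deriv (isOpen_Hp L))
    hper (by
      intro y hy
      refine (hM y hy).trans (le_of_eq ?_)
      rw [add_zero, mul_comm (d : ℝ), mul_div_assoc, div_self hdR.ne', mul_one])
  obtain ⟨B, hB0, hB⟩ := prim d hd Q
  set r : ℂ → ℂ := fun y => e y - Q.coeff 0 * y - B.eval (exp (y / d)) with hr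
  have hrd : ∀ y ∈ Hp L, HasDerivAt r (deriv e y - Q.eval (exp (y / d))) y := by
    intro y hy
    have h2 : HasDerivAt e (deriv e y) y :=
      (he.differentiableAt ((isOpen_Hp L).mem_nhds hy)).hasDerivAt
    have h3 : HasDerivAt (fun y : ℂ => Q.coeff 0 * y) (Q.coeff 0 * 1) y :=
      (hasDerivAt_id y).const_mul _
    refine ((h2.sub h3).sub (hB y)).congr_deriv ?_
    ring
  have hC : 0 ≤ C := by
    have h2 := hQ ((L + 1 : ℝ) : ℂ) (by rw [Complex.ofReal_re])
    have h3 := (norm_nonneg _).trans h2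
    exact nonneg_of_mul_nonneg_left h3 (Real.exp_pos _)
  set L2 : ℝ := L + 2 with hL2
  -- vertical estimate
  have hvert : ∀ (x b : ℝ), L2 ≤ x →
      ‖r ((x : ℂ) + b * I) - r x‖ ≤ C * Real.exp (-x / d) * |b| := by
    intro x b hx
    have hconv : Convex ℝ {y : ℂ | x ≤ y.re} := convex_halfSpace_re_ge x
    have h2 := hconv.norm_image_sub_le_of_norm_hasDerivWithin_le (f := r)
      (f' := fun y => deriv e y - Q.eval (exp (y / d))) (C := C * Real.exp (-x / d))
      (x := (x : ℂ)) (y := (x : ℂ) + b * I) (𝕜 := ℂ) ?_ ?_ ?_ ?_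
    · have h3 : (x : ℂ) + b * I - x = b * I := by ring
      rw [h3, norm_mul, Complex.norm_I, mul_one, Complex.norm_real, Real.norm_eq_abs] at h2
      exact h2
    · intro y hy
      have hy' : x ≤ y.re := hy
      refine (hrd y ?_).hasDerivWithinAt
      show L < y.re
      linarith
    · intro y hy
      have hy' : x ≤ y.re := hy
      refine (hQ y (by linarith)).trans ?_
      refine mul_le_mul_of_nonneg_left (Real.exp_le_exp.2 ?_) hC
      rw [neg_div, neg_div]
      exact neg_le_neg ((div_le_div_iff_of_pos_right hdR).2 hy')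
    · show x ≤ (x : ℂ).re
      rw [Complex.ofReal_re]
    · show x ≤ ((x : ℂ) + b * I).re
      simp
  -- horizontal estimate
  have hhor : ∀ (a x b : ℝ), L2 ≤ a → a ≤ x →
      ‖r ((x : ℂ) + b * I) - r ((a : ℂ) + b * I)‖ ≤ C * d * Real.exp (-L2 / d) := by
    intro a x b ha hx
    set f : ℝ → ℂ := fun s => r ((s : ℂ) + b * I) - r ((a : ℂ) + b * I) with hf
    have hfd : ∀ s : ℝ, a ≤ s → HasDerivAt f
        (deriv e ((s : ℂ) + b * I) - Q.eval (exp (((s : ℂ) + b * I) / d))) s := by
      intro s hs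
      have h2 : ((s : ℂ) + b * I) ∈ Hp L := by
        show L < ((s : ℂ) + b * I).re
        simp
        linarith
      have h3 : HasDerivAt (fun s : ℝ => ((s : ℂ) + b * I)) 1 s := by
        have h4 : HasDerivAt (fun s : ℝ => (s : ℂ)) 1 s := Complex.ofRealCLM.hasDerivAt
        exact h4.add_const _
      have h5 := (hrd _ h2).comp s h3
      rw [mul_one] at h5
      exact h5.sub_const _
    have h2 := image_norm_le_of_norm_deriv_right_le_deriv_boundary (f := f) (a := a) (b := x)
      (f' := fun s => deriv e ((s : ℂ) + b * I) - Q.eval (exp (((s : ℂ) + b * I) / d)))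
      (fun s hs => (hfd s hs.1).continuousAt.continuousWithinAt)
      (fun s hs => (hfd s hs.1).hasDerivWithinAt)
      (B := fun s => C * d * (Real.exp (-a / d) - Real.exp (-s / d)))
      (B' := fun s => C * Real.exp (-s / d)) ?_ ?_ ?_ (Set.right_mem_Icc.2 hx)
    · refine h2.trans ?_
      refine mul_le_mul_of_nonneg_left ?_ (mul_nonneg hC hdR.le)
      have h3 : Real.exp (-a / d) ≤ Real.exp (-L2 / d) := by
        refine Real.exp_le_exp.2 ?_
        rw [neg_div, neg_div]
        exact neg_le_neg ((div_le_div_iff_of_pos_right hdR).2 ha)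
      have h4 := Real.exp_pos (-x / d)
      linarith
    · show ‖r ((a : ℂ) + b * I) - r ((a : ℂ) + b * I)‖ ≤ _
      rw [sub_self, norm_zero, sub_self, mul_zero]
    · intro s
      have h3 : HasDerivAt (fun s : ℝ => -s / d) (-1 / d) s :=
        ((hasDerivAt_id s).neg).div_const _
      have h4 := ((h3.exp).const_sub (Real.exp (-a / d))).const_mul (C * d)
      refine h4.congr_deriv ?_
      field_simp
    · intro s hs
      have h3 := hQ ((s : ℂ) + b * I) (by
        simp
        linarith [hs.1])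
      have h4 : ((s : ℂ) + b * I).re = s := by simp
      rw [h4] at h3
      exact h3
  refine ⟨Q.coeff 0, B, ‖r L2‖ + 2 * (C * d * Real.exp (-L2 / d)) + 1, L2, hB0, ?_⟩
  intro y hy
  -- a far point
  set x : ℝ := max y.re (d * (C * |y.im|)) with hx
  have hx1 : y.re ≤ x := le_max_left _ _
  have hx2 : d * (C * |y.im|) ≤ x := le_max_right _ _
  have hyeq : ((y.re : ℝ) : ℂ) + (y.im : ℝ) * I = y := Complex.re_add_im y
  have e1 := hhor y.re x y.im hy hx1
  rw [hyeq] at e1
  have e2 := hvert x y.im (hy.trans hx1)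
  have e3 := hhor L2 x 0 le_rfl (hy.trans hx1)
  rw [Complex.ofReal_zero, zero_mul, add_zero, add_zero] at e3
  have e4 : C * Real.exp (-x / d) * |y.im| ≤ 1 := by
    have h2 : C * |y.im| ≤ x / d := by
      rw [le_div_iff₀ hdR, mul_comm]
      exact hx2
    have h3 : x / d + 1 ≤ Real.exp (x / d) := Real.add_one_le_exp _
    have h4 : C * |y.im| ≤ Real.exp (x / d) := by linarith
    have h5 : C * Real.exp (-x / d) * |y.im| = C * |y.im| / Real.exp (x / d) := by
      rw [neg_div, Real.exp_neg]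
      ring
    rw [h5]
    exact (div_le_one (Real.exp_pos _)).2 h4
  have e5 : r y = r L2 + (r x - r L2) + (r ((x : ℂ) + (y.im : ℝ) * I) - r x) -
      (r ((x : ℂ) + (y.im : ℝ) * I) - r y) := by ring
  show ‖r y‖ ≤ _
  rw [e5]
  have t1 := norm_sub_le (r L2 + (r x - r L2) + (r ((x : ℂ) + (y.im : ℝ) * I) - r x))
    (r ((x : ℂ) + (y.im : ℝ) * I) - r y)
  have t2 := norm_add_le (r L2 + (r x - r L2)) (r ((x : ℂ) + (y.im : ℝ) * I) - r x)
  have t3 := norm_add_le (r L2) (r x - r L2)
  linarith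

end Pool.Agent.ECF
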