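import Pool.Agent.ECF.StC
import Pool.Agent.Helper86.FBCore

/-!
# ECF, module FIN: no entire curve on which `α a + β b` is a polynomial
-/

set_option autoImplicit false

open Complex Polynomial Metric

namespace Pool.Agent.ECF

private theorem tpi_ne : tpi ≠ 0 := by
  unfold tpi
  simp [Real.pi_ne_zero]

private theorem exp_eq_of_sub {x y : ℂ} {n : ℤ} (h : x - y = tpi * n) : exp x = exp y := by
  rw [exp_eq_exp_iff_exists_int]
  exact ⟨n, by rw [← sub_eq_iff_eq_add', h]; unfold tpi; ring⟩

theorem thm_FIN (h1 : St_IRR) (h2 : St_FM) : St_FIN := by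
  intro a b ψ P α β hαβ ha hb hinj hψ hnc hP
  -- the rational case
  by_cases hrat : ∃ (c : ℂ) (m n : ℤ), ¬ (m = 0 ∧ n = 0) ∧ α = c * m ∧ β = c * n
  · obtain ⟨c, m, n, hmn, hα, hβ⟩ := hrat
    have hc : c ≠ 0 := by
      rintro rfl
      exact hαβ ⟨by simpa using hα, by simpa using hβ⟩
    refine h2 a b ψ (C c⁻¹ * P) m n hmn ha hb hinj hψ hnc fun s => ?_
    rw [eval_mul, eval_C, ← hP s, hα, hβ]
    field_simp
  push Not at hrat
  have hβ : β ≠ 0 := by
    rintro rfl
    exact hrat α 1 0 (by simp) (by simp) (by simp)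
  have hirr : Irr (α / β) := by
    intro m n h0
    by_contra hmn
    have hm : m ≠ 0 := by
      rintro rfl
      have : (n : ℂ) = 0 := by simpa using h0
      exact hmn ⟨rfl, by exact_mod_cast this⟩
    have hmC : (m : ℂ) ≠ 0 := by exact_mod_cast hm
    refine hrat (β / m) (-n) m (fun _ => hm) ?_ ?_
    · have h3 : α * m + n * β = 0 := by
        have : (α / β * m + n) * β = 0 := by rw [h0, zero_mul]
        field_simp at this
        linear_combination this
      push_cast
      field_simp
      linear_combination h3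
    · field_simp
  set P' : ℂ[X] := C β⁻¹ * P with hP'
  have hP1 : ∀ s, α / β * a (ψ s) + b (ψ s) = P'.eval s := by
    intro s
    rw [hP', eval_mul, eval_C, ← hP s]
    field_simp
  have hp : Differentiable ℂ fun s => a (ψ s) := ha.comp hψ
  rcases Nat.eq_zero_or_pos P'.natDegree with hd | hd
  · -- constant along the curve
    obtain ⟨s, s', hss⟩ := hnc
    refine hss (Pool.Agent.Helper86.FB.no_curve (α := α / β) (β := 1) ha hb hinj (by simp) hψ
      (fun s => ?_) s s')
    have h3 : P' = C (P'.coeff 0) := eq_C_of_natDegree_eq_zero hd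
    show α / β * a (ψ s) + 1 * b (ψ s) = α / β * a (ψ 0) + 1 * b (ψ 0)
    rw [one_mul, one_mul, hP1, hP1, h3, eval_C, eval_C]
  obtain ⟨Q, hQ⟩ := h1 (α / β) P' (fun s => a (ψ s)) hirr hd hp (by
    rintro s t m n hmn ⟨h3, h4⟩
    have h5 : b (ψ s) - b (ψ t) = tpi * n := by
      rw [← hP1, ← hP1] at h3
      unfold lam at h3
      linear_combination h3 - α / β * h4
    have h6 : ψ s = ψ t := hinj (Prod.ext (exp_eq_of_sub h4) (exp_eq_of_sub h5))
    apply hmn
    rw [h6, sub_self] at h4 h5
    constructor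
    · have := (mul_eq_zero.1 h4.symm).resolve_left tpi_ne
      exact_mod_cast this
    · have := (mul_eq_zero.1 h5.symm).resolve_left tpi_ne
      exact_mod_cast this)
  refine h2 a b ψ (P' - C (α / β) * Q) 0 1 (by simp) ha hb hinj hψ hnc fun s => ?_
  have h7 : (P' - C (α / β) * Q).eval s = P'.eval s - α / β * Q.eval s := by simp
  rw [h7, ← hQ s, ← hP1 s]
  push_cast
  ring

end Pool.Agent.ECF
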