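import Pool.Agent.ECF.StB

/-!
# ECF FM: no curve with an integer combination of the logarithms polynomial
-/

set_option autoImplicit false

open Complex Polynomial Metric

namespace Pool.Agent.ECF

/-- division by the greatest common divisor -/
theorem FM_gcd {m n : ℤ} (h : ¬ (m = 0 ∧ n = 0)) : ∃ g m' n' u v : ℤ, g ≠ 0 ∧ m = g * m' ∧
    n = g * n' ∧ u * m' + v * n' = 1 := by
  have hg : ((Int.gcd m n : ℕ) : ℤ) ≠ 0 := by
    intro h0
    have h1 : Int.gcd m n = 0 := by exact_mod_cast h0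
    exact h (Int.gcd_eq_zero_iff.1 h1)
  obtain ⟨m', hm⟩ := Int.gcd_dvd_left m n
  obtain ⟨n', hn⟩ := Int.gcd_dvd_right m n
  refine ⟨(Int.gcd m n : ℕ), m', n', Int.gcdA m n, Int.gcdB m n, hg, hm, hn, ?_⟩
  have h2 := Int.gcd_eq_gcd_ab m n
  refine mul_left_cancel₀ hg ?_
  calc ((Int.gcd m n : ℕ) : ℤ) * (Int.gcdA m n * m' + Int.gcdB m n * n')
      = ((Int.gcd m n : ℕ) : ℤ) * m' * Int.gcdA m n +
        ((Int.gcd m n : ℕ) : ℤ) * n' * Int.gcdB m n := by ring
    _ = m * Int.gcdA m n + n * Int.gcdB m n := by rw [← hm, ← hn]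
    _ = ((Int.gcd m n : ℕ) : ℤ) * 1 := by rw [← h2, mul_one]

/-- equal exponentials of integer combinations -/
theorem FM_exp {z w z' w' : ℂ} (h1 : exp z = exp z') (h2 : exp w = exp w') (i j : ℤ) :
    exp (i * z + j * w) = exp (i * z' + j * w') := by
  rw [exp_add, exp_add, exp_int_mul, exp_int_mul, exp_int_mul, exp_int_mul, h1, h2]

/-- **FM** -/
theorem thm_FM (h1 : St_FR) : St_FM := by
  intro a b ψ P m n hmn ha hb hinj hψ hne hP
  obtain ⟨g, m', n', u, v, hg, hm, hn, huv⟩ := FM_gcd hmn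
  have hgc : (g : ℂ) ≠ 0 := by exact_mod_cast hg
  have huvc : (u : ℂ) * m' + v * n' = 1 := by exact_mod_cast huv
  refine h1 (fun x => v * a x - u * b x) (fun x => m' * a x + n' * b x) ψ
    (Polynomial.C ((g : ℂ)⁻¹) * P) ((ha.const_mul _).sub (hb.const_mul _))
    ((ha.const_mul _).add (hb.const_mul _)) ?_ hψ hne ?_
  · intro x y hxy
    obtain ⟨e1, e2⟩ := Prod.mk.inj hxy
    refine hinj (Prod.ext ?_ ?_)
    · have e3 := FM_exp e1 e2 n' u
      have e4 : ∀ x, (n' : ℂ) * (v * a x - u * b x) + u * (m' * a x + n' * b x) = a x := by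
        intro x
        linear_combination (a x) * huvc
      rw [e4, e4] at e3
      exact e3
    · have e3 := FM_exp e1 e2 (-m') v
      have e4 : ∀ x, ((-m' : ℤ) : ℂ) * (v * a x - u * b x) + v * (m' * a x + n' * b x) = b x := by
        intro x
        push_cast
        linear_combination (b x) * huvc
      rw [e4, e4] at e3
      exact e3
  · intro s
    rw [Polynomial.eval_mul, Polynomial.eval_C, ← hP s, hm, hn]
    push_cast
    field_simp

end Pool.Agent.ECF
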