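import Pool.Agent.ECF.StB
import Pool.Agent.Helper86.FBCore

/-!
# ECF, FR: no curve with `b ∘ ψ` polynomial (helper4)
-/

set_option autoImplicit false

open Complex Polynomial

namespace Pool.Agent.ECF

namespace FRx

theorem tpi_ne : tpi ≠ 0 := by
  unfold tpi
  simp [Real.pi_ne_zero]

theorem exp_eq {x y : ℂ} (h : exp x = exp y) : ∃ n : ℤ, x = y + n * tpi := by
  obtain ⟨n, hn⟩ := Complex.exp_eq_exp_iff_exists_int.1 h
  exact ⟨n, by rw [hn, tpi]⟩

theorem exp_shift (y : ℂ) (n : ℤ) : exp (y + tpi * n) = exp y := by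
  rw [Complex.exp_eq_exp_iff_exists_int]
  exact ⟨n, by rw [tpi]; ring⟩

end FRx

open FRx Pool.Agent.Helper86.FB in
theorem thm_FR (hR : St_RAT) : St_FR := by
  intro a b ψ P ha hb hinj hψ hnc hP
  obtain ⟨s0, s1, hne⟩ := hnc
  have ht := tpi_ne
  rcases Nat.eq_zero_or_pos P.natDegree with hdeg | hdeg
  · obtain ⟨c, rfl⟩ : ∃ c, P = Polynomial.C c := ⟨_, Polynomial.eq_C_of_natDegree_eq_zero hdeg⟩
    apply hne
    refine no_curve (α := 0) (β := 1) ha hb hinj (by simp) hψ (fun s => ?_) s0 s1
    simp only [uu, hP, Polynomial.eval_C]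
    ring
  · have key : ∀ (s t : ℂ) (m n : ℤ), ¬ (m = 0 ∧ n = 0) →
        ¬ (P.eval s - P.eval t = tpi * n ∧ a (ψ s) - a (ψ t) = tpi * m) := by
      rintro s t m n hmn ⟨h1, h2⟩
      rw [← hP, ← hP] at h1
      have e : ψ s = ψ t := by
        apply hinj
        show (exp (a (ψ s)), exp (b (ψ s))) = (exp (a (ψ t)), exp (b (ψ t)))
        rw [show a (ψ s) = a (ψ t) + tpi * m by linear_combination h2,
          show b (ψ s) = b (ψ t) + tpi * n by linear_combination h1, exp_shift, exp_shift]
      rw [e, sub_self] at h1 h2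
      have h3 : (n : ℂ) = 0 := (mul_eq_zero.1 h1.symm).resolve_left ht
      have h4 : (m : ℂ) = 0 := (mul_eq_zero.1 h2.symm).resolve_left ht
      exact hmn ⟨by exact_mod_cast h4, by exact_mod_cast h3⟩
    obtain ⟨c, k, hk, hkp, hck⟩ := hR P (fun s => a (ψ s)) hdeg (ha.comp hψ) key
    have hper : Function.Periodic k tpi := hkp
    apply hne
    have hinj' : Function.Injective fun x => (exp (a x - k (b x)), exp (b x)) := by
      intro x y hxy
      have h1 : exp (a x - k (b x)) = exp (a y - k (b y)) := congrArg Prod.fst hxy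
      have h2 : exp (b x) = exp (b y) := congrArg Prod.snd hxy
      obtain ⟨j, hj⟩ := exp_eq h2
      have h3 : k (b x) = k (b y) := by
        rw [hj]
        exact hper.int_mul j (b y)
      obtain ⟨i, hi⟩ := exp_eq h1
      rw [h3] at hi
      apply hinj
      show (exp (a x), exp (b x)) = (exp (a y), exp (b y))
      rw [h2, show a x = a y + tpi * i by linear_combination hi, exp_shift]
    refine no_curve (a := fun x => a x - k (b x)) (b := b) (α := 1) (β := -c)
      (ha.sub (hk.comp hb)) hb hinj' (by simp) hψ (fun s => ?_) s0 s1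
    have e : ∀ s, a (ψ s) - k (b (ψ s)) - c * b (ψ s) = 0 := by
      intro s
      have h := hck s

      rw [h, ← hP s]
      ring
    simp only [uu]
    linear_combination e s - e 0

end Pool.Agent.ECF
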