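import Pool.Agent.ECF.StB

/-!
# ECF/FZ (helper96): the difference functions `fz`
-/

set_option autoImplicit false

open Complex Polynomial Metric

namespace Pool.Agent.ECF

namespace FZx

theorem re_tpi (k : ℤ) : (tpi * (k : ℂ)).re = 0 := by
  simp [tpi]

theorem exp_tpi (k : ℤ) : exp (tpi * (k : ℂ)) = 1 := by
  have h := Complex.exp_int_mul_two_pi_mul_I k
  rw [tpi, mul_comm]
  exact h

theorem isOpen_Hp (L : ℝ) : IsOpen (Hp L) := by
  exact isOpen_lt continuous_const Complex.continuous_re

theorem mem_of_close {L : ℝ} {y z : ℂ} (h : ‖z - y‖ ≤ 1) (hy : L + 1 < y.re) : z ∈ Hp L := by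
  have h1 := (Complex.abs_re_le_norm (z - y)).trans h
  rw [Complex.sub_re] at h1
  have h2 := (abs_le.1 h1).1
  show L < z.re
  linarith

end FZx

open FZx in
/-- **FZ** -/
theorem thm_FZ (h1 : St_SG) : St_FZ := by
  obtain ⟨hs1, hs2, hs3, -, -⟩ := h1
  intro α d L q hD
  refine ⟨?_, ?_⟩
  · intro m n k
    set l : ℂ := lam α m n with hl
    have hmem : ∀ y ∈ Hp (max L (Ls l) + 2), Ls l < y.re ∧ y ∈ Hp L ∧ sg l y + tpi * k ∈ Hp L := by
      intro y hy
      have hy' : max L (Ls l) + 2 < y.re := hy
      have e1 := le_max_left L (Ls l)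
      have e2 := le_max_right L (Ls l)
      have e3 : Ls l < y.re := by linarith
      refine ⟨e3, ?_, ?_⟩
      · show L < y.re
        linarith
      · have e4 := mem_of_close (L := L) (hs1 l y e3).2.2.1 (by linarith)
        show L < (sg l y + tpi * k).re
        rw [Complex.add_re, re_tpi, add_zero]
        exact e4
    refine ⟨max L (Ls l) + 2, ?_, ?_, ?_⟩
    · intro y hy
      obtain ⟨e3, e4, e5⟩ := hmem y hy
      have f1 : DifferentiableAt ℂ q y := (hD.diff y e4).differentiableAt
        ((isOpen_Hp L).mem_nhds e4)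
      have f2 : DifferentiableAt ℂ q (sg l y + tpi * k) := (hD.diff _ e5).differentiableAt
        ((isOpen_Hp L).mem_nhds e5)
      have f3 : DifferentiableAt ℂ (fun y => sg l y + tpi * k) y :=
        ((hs1 l y e3).2.2.2.2.differentiableAt).add_const _
      have f4 : DifferentiableAt ℂ (fun y => q (sg l y + tpi * k)) y :=
        DifferentiableAt.comp (g := q) y f2 f3
      have f5 : DifferentiableAt ℂ (fz q α m n k) y := by
        unfold fz
        exact (f1.sub f4).sub_const _
      exact f5.differentiableWithinAt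
    · intro y hy
      obtain ⟨e3, e4, e5⟩ := hmem y hy
      have f1 := hs2 l y (d : ℤ)
      have f2 : (((d : ℤ)) : ℂ) = (d : ℂ) := by push_cast; rfl
      rw [f2] at f1
      unfold fz
      rw [← hl, f1, hD.per y e4]
      have f3 : sg l y + tpi * d + tpi * k = (sg l y + tpi * k) + tpi * d := by ring
      rw [f3, hD.per _ e5]
    · intro hmn y hy h0
      obtain ⟨e3, e4, e5⟩ := hmem y hy
      refine hD.sep y e4 _ e5 m n hmn ⟨?_, ?_⟩
      · rw [Complex.exp_add, exp_tpi, mul_one, (hs1 l y e3).1, ← hl]
        ring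
      · unfold fz at h0
        rw [← hl] at h0
        exact sub_eq_zero.1 h0
  · intro m n k m' n' k'
    refine ⟨Ls (lam α m n) + Ls (lam α m' n') + 2, fun y hy => ?_⟩
    have hy' : Ls (lam α m n) + Ls (lam α m' n') + 2 < y.re := hy
    have f1 := hs3 (lam α m n) (lam α m' n') y hy'
    have f2 : lam α m n + lam α m' n' = lam α (m + m') (n + n') := by
      unfold lam
      push_cast
      ring
    unfold fz
    rw [hs2, f1, f2]
    have f3 : sg (lam α (m + m') (n + n')) y + tpi * (k : ℂ) + tpi * (k' : ℂ) =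
        sg (lam α (m + m') (n + n')) y + tpi * ((k + k' : ℤ) : ℂ) := by
      push_cast
      ring
    rw [f3]
    push_cast
    ring

end Pool.Agent.ECF
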