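import Pool.Agent.ECF.StA

/-!
# ECF, module GRO: polynomial growth of functions omitting the integers
-/

set_option autoImplicit false

open Complex Polynomial Metric

namespace Pool.Agent.ECF

theorem thm_GRO (h1 : St_LAN) : St_GRO := by
  obtain ⟨C, hC, hL⟩ := h1
  obtain ⟨N, hN⟩ := exists_nat_ge C
  refine ⟨N, fun L u hu ho x v hx => ?_⟩
  have hopen : IsOpen (Hp L) := isOpen_lt continuous_const continuous_re
  set γ : ℝ → ℂ := fun s => ((L + Real.exp s : ℝ) : ℂ) + v * I with hγ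
  have hγre : ∀ s, (γ s).re = L + Real.exp s := by
    intro s
    simp only [hγ, add_re, ofReal_re, re_ofReal_mul, I_re, mul_zero, add_zero]
  have hball : ∀ s, ball (γ s) (Real.exp s) ⊆ Hp L := by
    intro s z hz
    have h2 : ‖z - γ s‖ < Real.exp s := by simpa [dist_eq_norm] using hz
    have h3 : |(z - γ s).re| ≤ ‖z - γ s‖ := abs_re_le_norm _
    rw [sub_re, hγre] at h3
    show L < z.re
    have := (abs_le.1 h3).1
    linarith
  have hmem : ∀ s, γ s ∈ Hp L := fun s => hball s (mem_ball_self (Real.exp_pos s))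
  have hγd : ∀ s, HasDerivAt γ ((Real.exp s : ℝ) : ℂ) s := by
    intro s
    have h2 : HasDerivAt (fun s : ℝ => L + Real.exp s) (Real.exp s) s :=
      (Real.hasDerivAt_exp s).const_add L
    exact (h2.ofReal_comp).add_const _
  have hφd : ∀ s, HasDerivAt (fun s => u (γ s)) (deriv u (γ s) * ((Real.exp s : ℝ) : ℂ)) s := by
    intro s
    have h2 : HasDerivAt u (deriv u (γ s)) (γ s) :=
      (hu.differentiableAt (hopen.mem_nhds (hmem s))).hasDerivAt
    exact h2.comp s (hγd s)
  have hbound : ∀ s, ‖deriv u (γ s) * ((Real.exp s : ℝ) : ℂ)‖ ≤ C * ‖u (γ s)‖ + C := by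
    intro s
    have h2 := hL u (γ s) (Real.exp s) (Real.exp_pos s) (hu.mono (hball s))
      (fun z hz n => ho z (hball s hz) n)
    rw [norm_mul, norm_real, Real.norm_eq_abs, abs_of_pos (Real.exp_pos s)]
    linarith
  have hpos : 0 < x - L := by linarith
  set b : ℝ := Real.log (x - L) with hb
  have hb0 : 0 ≤ b := Real.log_nonneg (by linarith)
  have hG := norm_le_gronwallBound_of_norm_deriv_right_le (f := fun s => u (γ s))
    (f' := fun s => deriv u (γ s) * ((Real.exp s : ℝ) : ℂ)) (δ := ‖u (γ 0)‖) (K := C) (ε := C)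
    (a := 0) (b := b)
    (fun s _ => (hφd s).continuousAt.continuousWithinAt)
    (fun s _ => (hφd s).hasDerivWithinAt) le_rfl (fun s _ => hbound s) b ⟨hb0, le_rfl⟩
  rw [gronwallBound_of_K_ne_0 hC.ne', div_self hC.ne'] at hG
  simp only [one_mul, sub_zero] at hG
  have hγb : γ b = (x : ℂ) + v * I := by
    simp only [hγ, hb]
    rw [Real.exp_log hpos]
    congr 2
    ring
  have hγ0 : γ 0 = ((L + 1 : ℝ) : ℂ) + v * I := by
    simp only [hγ, Real.exp_zero]
  rw [← hγb, ← hγ0]
  have hexp : Real.exp (C * b) ≤ (x - L) ^ N := by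
    rw [← Real.rpow_natCast, Real.rpow_def_of_pos hpos, Real.exp_le_exp, mul_comm]
    exact mul_le_mul_of_nonneg_left hN hb0
  have h0 : 0 ≤ ‖u (γ 0)‖ := norm_nonneg _
  have h1' : 1 ≤ Real.exp (C * b) := Real.one_le_exp (by positivity)
  calc ‖u (γ b)‖ ≤ ‖u (γ 0)‖ * Real.exp (C * b) + (Real.exp (C * b) - 1) := hG
    _ ≤ (1 + ‖u (γ 0)‖) * Real.exp (C * b) := by nlinarith
    _ ≤ (1 + ‖u (γ 0)‖) * (x - L) ^ N := mul_le_mul_of_nonneg_left hexp (by positivity)

end Pool.Agent.ECF
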