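import Pool.Agent.ECF.StA

/-!
# ECF, INV: a small perturbation of the identity on a half-plane is invertible (helper4)
-/

set_option autoImplicit false

open Complex Filter Topology

namespace Pool.Agent.ECF

namespace INVx

theorem isOpen_Hp (L : ℝ) : IsOpen (Hp L) := isOpen_lt continuous_const Complex.continuous_re

theorem convex_Hp (L : ℝ) : Convex ℝ (Hp L) := by
  have h : Hp L = {y : ℂ | L < (Complex.reCLM : ℂ →L[ℝ] ℝ) y} := rfl
  rw [h]
  exact convex_halfSpace_gt (Complex.reCLM : ℂ →L[ℝ] ℝ).isBoundedLinearMap.toIsLinearMap L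

theorem ball_sub {L : ℝ} {y x : ℂ} (hy : y ∈ Hp (L + 1)) (hx : ‖x - y‖ ≤ 1 / 2) : x ∈ Hp L := by
  have h1 : L + 1 < y.re := hy
  have h2 : |(x - y).re| ≤ ‖x - y‖ := Complex.abs_re_le_norm _
  have h3 : -(‖x - y‖) ≤ (x - y).re := by
    have := neg_abs_le (x - y).re
    linarith
  rw [Complex.sub_re] at h3
  show L < x.re
  linarith

end INVx

open INVx in
theorem thm_INV : St_INV := by
  intro η L hd hb hdb
  have hdat : ∀ x ∈ Hp L, DifferentiableAt ℂ η x := fun x hx =>
    hd.differentiableAt ((isOpen_Hp L).mem_nhds hx)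
  have hlip : ∀ x ∈ Hp L, ∀ y ∈ Hp L, ‖η y - η x‖ ≤ 1 / 2 * ‖y - x‖ := fun x hx y hy =>
    Convex.norm_image_sub_le_of_norm_deriv_le hdat hdb (convex_Hp L) hx hy
  have hinj : Set.InjOn (fun x => x + η x) (Hp L) := by
    intro x hx y hy hxy
    have h1 : x + η x = y + η y := hxy
    have h2 := hlip x hx y hy
    have h3 : y - x = -(η y - η x) := by linear_combination -h1
    have h4 : ‖y - x‖ = ‖η y - η x‖ := by rw [h3, norm_neg]
    have h5 : ‖y - x‖ = 0 := by
      have := norm_nonneg (y - x)
      linarith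
    have h6 : y - x = 0 := norm_eq_zero.mp h5
    exact (sub_eq_zero.mp h6).symm
  refine ⟨hinj, ?_⟩
  have hex : ∀ y ∈ Hp (L + 1), ∃ x ∈ Hp L, x + η x = y := by
    intro y hy
    have hsub : ∀ x ∈ Metric.closedBall y (1 / 2), x ∈ Hp L := fun x hx => by
      refine ball_sub hy ?_
      rw [← dist_eq_norm]; exact hx
    have hmaps : Set.MapsTo (fun x => y - η x) (Metric.closedBall y (1 / 2))
        (Metric.closedBall y (1 / 2)) := by
      intro x hx
      rw [Metric.mem_closedBall, dist_eq_norm]
      have : y - η x - y = -(η x) := by ring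
      show ‖y - η x - y‖ ≤ 1 / 2
      rw [this, norm_neg]
      exact hb x (hsub x hx)
    have hcon : ContractingWith (1 / 2 : NNReal) (hmaps.restrict _ _ _) := by
      refine ⟨?_, ?_⟩
      · rw [div_lt_one (by norm_num)]; norm_num
      · refine LipschitzWith.of_dist_le_mul fun u v => ?_
        rw [Subtype.dist_eq, Set.MapsTo.val_restrict_apply, Set.MapsTo.val_restrict_apply, dist_eq_norm,
          Subtype.dist_eq, dist_eq_norm]
        have h := hlip _ (hsub u u.2) _ (hsub v v.2)
        have e : y - η u - (y - η v) = η v - η u := by ring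
        show ‖y - η u - (y - η v)‖ ≤ _
        rw [e, norm_sub_rev (u : ℂ) v]
        refine h.trans (le_of_eq ?_)
        push_cast
        ring
    obtain ⟨x, hx, hfix, -⟩ := ContractingWith.exists_fixedPoint' (Metric.isClosed_closedBall.isComplete) hmaps
      hcon (Metric.mem_closedBall_self (by norm_num)) (edist_ne_top _ _)
    refine ⟨x, hsub x hx, ?_⟩
    have h : y - η x = x := hfix
    linear_combination -h
  choose! g hgm hge using hex
  have hglip : ∀ y ∈ Hp (L + 1), ∀ z ∈ Hp (L + 1), ‖g z - g y‖ ≤ 2 * ‖z - y‖ := by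
    intro y hy z hz
    have h1 := hlip _ (hgm y hy) _ (hgm z hz)
    have e : g z - g y = (z - y) - (η (g z) - η (g y)) := by
      linear_combination hge z hz - hge y hy
    have h2 : ‖g z - g y‖ ≤ ‖z - y‖ + ‖η (g z) - η (g y)‖ := by
      conv_lhs => rw [e]
      exact norm_sub_le _ _
    linarith
  refine ⟨g, fun y hy => ?_, fun y hy => ⟨hgm y hy, hge y hy⟩⟩
  have hcont : ContinuousAt g y := by
    rw [Metric.continuousAt_iff']
    intro ε hε
    have hU : Hp (L + 1) ∈ 𝓝 y := (isOpen_Hp (L + 1)).mem_nhds hy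
    filter_upwards [hU, Metric.ball_mem_nhds y (show (0 : ℝ) < ε / 2 by positivity)] with z hz hz2
    rw [dist_eq_norm]
    rw [Metric.mem_ball, dist_eq_norm] at hz2
    have := hglip y hy z hz
    linarith
  have hf : HasDerivAt (fun x => x + η x) (1 + deriv η (g y)) (g y) :=
    (hasDerivAt_id' (g y)).add (hdat _ (hgm y hy)).hasDerivAt
  have hne : 1 + deriv η (g y) ≠ 0 := by
    intro h0
    have h1 : deriv η (g y) = -1 := by linear_combination h0
    have h2 := hdb _ (hgm y hy)
    rw [h1, norm_neg, norm_one] at h2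
    norm_num at h2
  have hev : ∀ᶠ z in 𝓝 y, (fun x => x + η x) (g z) = z := by
    filter_upwards [(isOpen_Hp (L + 1)).mem_nhds hy] with z hz
    exact hge z hz
  exact (HasDerivAt.of_local_left_inverse hcont hf hne hev).differentiableAt.differentiableWithinAt

end Pool.Agent.ECF
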