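import Pool.Agent.ECF.StC

/-!
# ECF, module IRR: the irrational case on a curve
-/

set_option autoImplicit false

open Complex Polynomial Metric

namespace Pool.Agent.ECF

private lemma IRR_mono {C x : ℝ} {N M : ℕ} (hN : N ≤ M) (hx : 0 ≤ x) :
    C * Real.exp (N * x) ≤ |C| * Real.exp (M * x) := by
  have h1 : Real.exp (N * x) ≤ Real.exp (M * x) := by
    apply Real.exp_le_exp.2
    have : (N : ℝ) ≤ M := by exact_mod_cast hN
    nlinarith
  calc C * Real.exp (N * x) ≤ |C| * Real.exp (N * x) :=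
        mul_le_mul_of_nonneg_right (le_abs_self C) (Real.exp_pos _).le
    _ ≤ _ := mul_le_mul_of_nonneg_left h1 (abs_nonneg C)

/-- **IRR** -/
theorem thm_IRR (h1 : St_BR) (h2 : St_EGR) (h3 : St_KK) (h4 : St_POK) (h5 : St_SG) : St_IRR := by
  intro α P p hα hdeg hp hsep
  obtain ⟨-, -, -, hsg0, -⟩ := h5
  obtain ⟨L, t, hbr⟩ := h1 P hdeg
  have hD : Dat α P.natDegree L (fun y => p (t y)) :=
    { irr := hα
      pos := hdeg
      diff := hp.comp_differentiableOn hbr.diff
      per := fun y hy => by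
        show p (t (y + tpi * P.natDegree)) = p (t y)
        rw [hbr.per y hy]
      sep := fun y hy y' hy' m n hmn h => by
        refine hsep (t y) (t y') m n hmn ⟨?_, h.2⟩
        have e1 := hbr.eqn y hy
        have e2 := hbr.eqn y' hy'
        rw [e1, e2]
        exact h.1 }
  have hE := h2 α P.natDegree L _ hD
  choose N C L' hb using hE
  set M : ℕ := max (max (N 0 1 0) (N 1 0 0)) ((Finset.range P.natDegree).sup fun k => N 0 0 k)
    with hM
  have hM1 : N 0 1 0 ≤ M := (le_max_left _ _).trans (le_max_left _ _)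
  have hM2 : N 1 0 0 ≤ M := (le_max_right _ _).trans (le_max_left _ _)
  have hM3 : ∀ k : ℕ, k < P.natDegree → N 0 0 k ≤ M := fun k hk =>
    (Finset.le_sup (f := fun k : ℕ => N 0 0 k) (Finset.mem_range.2 hk)).trans (le_max_right _ _)
  obtain ⟨K, hK, ⟨Q, -, hpQ⟩, hR⟩ := h3 P L t p (fun y => p (t y)) hdeg hbr hp (fun y _ => rfl) M
    (fun k hk => by
      refine ⟨|C 0 0 k|, max (L' 0 0 k) 0, fun y hy => ?_⟩
      have h6 := hb 0 0 k y ((le_max_left _ _).trans hy)
      have h7 : fz (fun y => p (t y)) α 0 0 k y = p (t y) - p (t (y + tpi * k)) := by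
        simp [fz, lam, hsg0]
      rw [h7] at h6
      exact h6.trans (IRR_mono (hM3 k hk) ((le_max_right _ _).trans hy)))
  obtain ⟨R1, -, hK1⟩ := hR tpi (by
    refine ⟨|C 0 1 0|, max (L' 0 1 0) 0, fun y hy => ?_⟩
    have h6 := hb 0 1 0 y ((le_max_left _ _).trans hy)
    have h7 : fz (fun y => p (t y)) α 0 1 0 y = p (t y) - p (t (sg tpi y)) := by
      simp [fz, lam]
    rw [h7] at h6
    exact h6.trans (IRR_mono hM1 ((le_max_right _ _).trans hy)))
  obtain ⟨R2, -, hK2⟩ := hR (tpi * α) (by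
    refine ⟨|C 1 0 0| + ‖tpi‖, max (L' 1 0 0) 0, fun y hy => ?_⟩
    have h6 := hb 1 0 0 y ((le_max_left _ _).trans hy)
    have h7 : p (t y) - p (t (sg (tpi * α) y)) = fz (fun y => p (t y)) α 1 0 0 y + tpi := by
      simp [fz, lam]
    have hx : 0 ≤ y.re := (le_max_right _ _).trans hy
    have h8 : (1 : ℝ) ≤ Real.exp (M * y.re) := Real.one_le_exp (by positivity)
    show ‖p (t y) - p (t (sg (tpi * α) y))‖ ≤ _
    rw [h7, add_mul]
    refine (norm_add_le _ _).trans (add_le_add (h6.trans (IRR_mono hM2 hx)) ?_)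
    exact le_mul_of_one_le_right (norm_nonneg _) h8)
  obtain ⟨Q1, hQ1⟩ := h4 α K hα hK ⟨R1, hK1⟩ ⟨R2, hK2⟩
  refine ⟨Q1.comp P + Q, fun s => ?_⟩
  rw [hpQ s, hQ1, eval_add, eval_comp]

end Pool.Agent.ECF

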