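import Pool.Agent.ECF.StA

/-!
# ECF KK: from almost periodic behaviour in `y` to a function of `P` (helper52)
-/

set_option autoImplicit false

open Complex Polynomial Metric

namespace Pool.Agent.ECF

namespace KKx

theorem re_add (y : ℂ) (k : ℕ) : (y + tpi * k).re = y.re := by
  have h : (tpi * (k : ℂ)).re = 0 := by
    unfold tpi
    simp
  rw [add_re, h, add_zero]

/-- An entire function bounded by a power outside a disc. -/
theorem grow (f : ℂ → ℂ) (hf : Differentiable ℂ f) (T C : ℝ) (n : ℕ)
    (h : ∀ s, T < ‖s‖ → ‖f s‖ ≤ C * ‖s‖ ^ n) :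
    ∃ K : ℝ, ∀ z, (f z).re ≤ K * (1 + ‖z‖ ^ n) := by
  obtain ⟨B, hB⟩ := (isCompact_closedBall (0 : ℂ) T).exists_bound_of_continuousOn
    (f := f) hf.continuous.continuousOn
  refine ⟨|C| + |B|, fun z => ?_⟩
  have h1 : (f z).re ≤ ‖f z‖ := re_le_norm _
  have h2 : 0 ≤ ‖z‖ ^ n := by positivity
  rcases le_or_gt ‖z‖ T with h3 | h3
  · have h4 := hB z (by rw [mem_closedBall_zero_iff]; exact h3)
    have h5 := le_abs_self B
    have h6 := abs_nonneg B
    have h7 := abs_nonneg C
    nlinarith
  · have h4 := h z h3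
    have h5 := le_abs_self C
    have h6 := abs_nonneg B
    have h7 := abs_nonneg C
    nlinarith

/-- A polynomial is bounded by the power outside the unit disc. -/
theorem pbd (P : ℂ[X]) : ∃ A : ℝ, 0 ≤ A ∧ ∀ s : ℂ, 1 ≤ ‖s‖ →
    ‖P.eval s‖ ≤ A * ‖s‖ ^ P.natDegree := by
  refine ⟨∑ i ∈ Finset.range (P.natDegree + 1), ‖P.coeff i‖,
    Finset.sum_nonneg fun i _ => norm_nonneg _, fun s hs => ?_⟩
  rw [eval_eq_sum_range, Finset.sum_mul]
  refine (norm_sum_le _ _).trans (Finset.sum_le_sum fun i hi => ?_)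
  rw [norm_mul, norm_pow]
  have h1 : i ≤ P.natDegree := by
    have := Finset.mem_range.1 hi
    omega
  exact mul_le_mul_of_nonneg_left (pow_le_pow_right₀ hs h1) (norm_nonneg _)

end KKx

open KKx in
theorem thm_KK (h1 : St_SG) (h2 : St_POL) (h3 : St_LAU) : St_KK := by
  intro P L t p q hd hBr hp hq N hk
  obtain ⟨d, hdd⟩ : ∃ d, d = P.natDegree := ⟨_, rfl⟩
  rw [← hdd] at hd hBr hk ⊢
  have hd0 : (0 : ℝ) < d := by exact_mod_cast hd
  have hd1 : (d : ℂ) ≠ 0 := by
    have : d ≠ 0 := by omega
    exact_mod_cast this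
  have hopen : IsOpen (Hp L) := by
    unfold Hp
    exact isOpen_lt continuous_const continuous_re
  have hmem : ∀ y : ℂ, y ∈ Hp L ↔ L < y.re := fun y => Iff.rfl
  -- the function `q`
  have hqd : DifferentiableOn ℂ q (Hp L) :=
    (hp.comp_differentiableOn hBr.diff).congr hq
  have hqper : ∀ y ∈ Hp L, q (y + tpi * d) = q y := by
    intro y hy
    have hy' : y + tpi * d ∈ Hp L := by
      rw [hmem, re_add]
      exact hy
    rw [hq _ hy', hq _ hy, hBr.per y hy]
  -- the average
  obtain ⟨m, hm⟩ : ∃ m : ℂ → ℂ, ∀ y, m y = (d : ℂ)⁻¹ * ∑ k ∈ Finset.range d, q (y + tpi * k) :=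
    ⟨_, fun _ => rfl⟩
  have hmd : DifferentiableOn ℂ m (Hp L) := by
    have hmf : m = fun y => (d : ℂ)⁻¹ * ∑ k ∈ Finset.range d, q (y + tpi * k) := funext hm
    rw [hmf]
    refine DifferentiableOn.const_mul ?_ _
    refine DifferentiableOn.fun_sum fun k _ => ?_
    refine DifferentiableOn.comp (g := q) (t := Hp L) hqd ?_ ?_
    · exact (differentiable_id.add_const _).differentiableOn
    · intro y hy
      rw [hmem, re_add]
      exact hy
  have hmper : ∀ y ∈ Hp L, m (y + tpi) = m y := by
    intro y hy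
    rw [hm, hm]
    congr 1
    have e1 : ∑ k ∈ Finset.range d, q (y + tpi + tpi * k) =
        ∑ k ∈ Finset.range d, q (y + tpi * ((k + 1 : ℕ) : ℂ)) := by
      refine Finset.sum_congr rfl fun k _ => ?_
      congr 1
      push_cast
      ring
    have e2 := Finset.sum_range_succ' (fun k : ℕ => q (y + tpi * (k : ℂ))) d
    have e3 := Finset.sum_range_succ (fun k : ℕ => q (y + tpi * (k : ℂ))) d
    rw [e3] at e2
    have e4 : q (y + tpi * ((0 : ℕ) : ℂ)) = q y := by
      congr 1
      push_cast
      ring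
    rw [e4, hqper y hy] at e2
    rw [e1]
    exact (add_right_cancel e2).symm
  obtain ⟨K, hK, C1, L1, hC1⟩ := h3 L m hmd hmper
  have hC1' : ∀ y : ℂ, L1 ≤ y.re → ‖m y - K (exp y)‖ ≤ |C1| :=
    fun y hy => (hC1 y hy).trans (le_abs_self _)
  -- comparison of `q` and the average
  have hqm : ∃ C2 L2 : ℝ, 0 ≤ C2 ∧ ∀ y : ℂ, L2 ≤ y.re →
      ‖q y - m y‖ ≤ C2 * Real.exp (N * y.re) := by
    choose! Ck Lk hCk using hk
    refine ⟨∑ k ∈ Finset.range d, |Ck k|, ∑ k ∈ Finset.range d, |Lk k|,
      Finset.sum_nonneg fun k _ => abs_nonneg _, fun y hy => ?_⟩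
    have e1 : q y - m y = (d : ℂ)⁻¹ * ∑ k ∈ Finset.range d, (q y - q (y + tpi * k)) := by
      rw [hm, Finset.sum_sub_distrib, Finset.sum_const, Finset.card_range, nsmul_eq_mul, mul_sub,
        ← mul_assoc, inv_mul_cancel₀ hd1, one_mul]
    rw [e1, norm_mul, norm_inv, norm_natCast]
    have e2 : ‖∑ k ∈ Finset.range d, (q y - q (y + tpi * k))‖ ≤
        (∑ k ∈ Finset.range d, |Ck k|) * Real.exp (N * y.re) := by
      rw [Finset.sum_mul]
      refine (norm_sum_le _ _).trans (Finset.sum_le_sum fun k hk' => ?_)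
      have hkd := Finset.mem_range.1 hk'
      have e3 : Lk k ≤ y.re := by
        refine le_trans ?_ hy
        exact (le_abs_self _).trans
          (Finset.single_le_sum (f := fun k => |Lk k|) (fun i _ => abs_nonneg _) hk')
      refine (hCk k hkd y e3).trans ?_
      exact mul_le_mul_of_nonneg_right (le_abs_self _) (Real.exp_pos _).le
    have e4 : (d : ℝ)⁻¹ ≤ 1 := by
      apply inv_le_one_of_one_le₀
      exact_mod_cast hd
    have e5 : 0 ≤ ‖∑ k ∈ Finset.range d, (q y - q (y + tpi * k))‖ := norm_nonneg _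
    calc (d : ℝ)⁻¹ * ‖∑ k ∈ Finset.range d, (q y - q (y + tpi * k))‖
        ≤ 1 * ‖∑ k ∈ Finset.range d, (q y - q (y + tpi * k))‖ :=
          mul_le_mul_of_nonneg_right e4 e5
      _ ≤ _ := by rw [one_mul]; exact e2
  obtain ⟨C2, L2, hC20, hC2⟩ := hqm
  have hexp1 : ∀ y : ℂ, 0 ≤ y.re → 1 ≤ Real.exp (N * y.re) := by
    intro y hy
    apply Real.one_le_exp
    positivity
  have hexpN : ∀ y : ℂ, Real.exp (N * y.re) = ‖exp y‖ ^ N := by
    intro y
    rw [norm_exp, ← Real.exp_nat_mul]
  refine ⟨K, hK, ?_, ?_⟩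
  · -- the first part
    obtain ⟨L3, hL3⟩ : ∃ L3, L3 = max L (max L1 (max L2 0)) := ⟨_, rfl⟩
    have l0 : L ≤ L3 := by rw [hL3]; exact le_max_left _ _
    have l1 : L1 ≤ L3 := by
      rw [hL3]
      exact (le_max_left _ _).trans (le_max_right _ _)
    have l2 : L2 ≤ L3 := by
      rw [hL3]
      exact ((le_max_left _ _).trans (le_max_right _ _)).trans (le_max_right _ _)
    have l3 : 0 ≤ L3 := by
      rw [hL3]
      exact ((le_max_right _ _).trans (le_max_right _ _)).trans (le_max_right _ _)
    obtain ⟨T, hT⟩ := hBr.cov L3 l0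
    obtain ⟨A, hA0, hA⟩ := pbd P
    rw [← hdd] at hA
    have hdiff : Differentiable ℂ (fun s => p s - K (P.eval s)) :=
      hp.sub (hK.comp P.differentiable)
    obtain ⟨B, hB⟩ := grow (fun s => p s - K (P.eval s)) hdiff (max T 1)
      ((|C1| + C2) * A ^ N) (d * N) (by
        intro s hs
        have hs1 : T < ‖s‖ := (le_max_left _ _).trans_lt hs
        have hs2 : 1 < ‖s‖ := (le_max_right _ _).trans_lt hs
        obtain ⟨y, hy, hys⟩ := hT s hs1
        have hy3 : L3 < y.re := hy
        have hyL : y ∈ Hp L := lt_of_le_of_lt l0 hy3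
        have e1 : P.eval s = exp y := by
          rw [← hys]
          exact hBr.eqn y hyL
        have e2 : p s = q y := by
          rw [hq y hyL, hys]
        have e3 : p s - K (P.eval s) = (q y - m y) + (m y - K (exp y)) := by
          rw [e1, e2]
          ring
        have e4 : ‖P.eval s‖ ^ N ≤ A ^ N * ‖s‖ ^ (d * N) := by
          rw [pow_mul, ← mul_pow]
          exact pow_le_pow_left₀ (norm_nonneg _) (hA s hs2.le) N
        have e5 := hC2 y (l2.trans hy3.le)
        have e6 := hC1' y (l1.trans hy3.le)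
        have e7 := hexp1 y (l3.trans hy3.le)
        rw [hexpN, ← e1] at e5 e7
        show ‖p s - K (P.eval s)‖ ≤ _
        rw [e3]
        refine (norm_add_le _ _).trans ?_
        have e8 := abs_nonneg C1
        calc ‖q y - m y‖ + ‖m y - K (exp y)‖
            ≤ C2 * ‖P.eval s‖ ^ N + |C1| * ‖P.eval s‖ ^ N := by
              refine add_le_add e5 (e6.trans ?_)
              exact le_mul_of_one_le_right e8 e7
          _ = (|C1| + C2) * ‖P.eval s‖ ^ N := by ring
          _ ≤ (|C1| + C2) * (A ^ N * ‖s‖ ^ (d * N)) :=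
              mul_le_mul_of_nonneg_left e4 (by positivity)
          _ = _ := by ring)
    obtain ⟨Q, hQ1, hQ2⟩ := h2 _ B (d * N) hdiff hB
    refine ⟨Q, hQ1, fun s => ?_⟩
    have := hQ2 s
    rw [← this]
    ring
  · -- the second part
    rintro l ⟨C, L', hC⟩
    have hdiff : Differentiable ℂ (fun U => K U - K (U - l)) :=
      hK.sub (hK.comp (differentiable_id.sub_const _))
    obtain ⟨L3, hL3⟩ : ∃ L3, L3 = max (L1 + 1) (max L' (max (Ls l + 1) 0)) := ⟨_, rfl⟩
    have l1 : L1 + 1 ≤ L3 := by rw [hL3]; exact le_max_left _ _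
    have l2 : L' ≤ L3 := by
      rw [hL3]
      exact (le_max_left _ _).trans (le_max_right _ _)
    have l3 : Ls l + 1 ≤ L3 := by
      rw [hL3]
      exact ((le_max_left _ _).trans (le_max_right _ _)).trans (le_max_right _ _)
    have l4 : 0 ≤ L3 := by
      rw [hL3]
      exact ((le_max_right _ _).trans (le_max_right _ _)).trans (le_max_right _ _)
    obtain ⟨B, hB⟩ := grow (fun U => K U - K (U - l)) hdiff (Real.exp L3)
      (2 * |C1| + |C|) N (by
        intro U hU
        have hU0 : U ≠ 0 := by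
          intro h
          rw [h, norm_zero] at hU
          exact absurd hU (not_lt.2 (Real.exp_pos _).le)
        obtain ⟨y, hy⟩ : ∃ y, y = log U := ⟨_, rfl⟩
        have hyU : exp y = U := by rw [hy, exp_log hU0]
        have hyre : L3 < y.re := by
          have : Real.exp L3 < Real.exp y.re := by
            rw [← norm_exp, hyU]
            exact hU
          exact Real.exp_lt_exp.1 this
        obtain ⟨s1, s2, s3, _, _⟩ := h1.1 l y (by linarith)
        have hre : y.re - 1 ≤ (sg l y).re := by
          have h := (abs_re_le_norm (sg l y - y)).trans s3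
          rw [sub_re] at h
          have := (abs_le.1 h).1
          linarith
        have e1 := hC1' y (by linarith)
        have e2 := hC1' (sg l y) (by linarith)
        rw [s1, hyU] at e2
        rw [hyU] at e1
        have e3 : m y - m (sg l y) =
            (d : ℂ)⁻¹ * ∑ k ∈ Finset.range d, (q (y + tpi * k) - q (sg l (y + tpi * k))) := by
          rw [hm, hm, ← mul_sub, ← Finset.sum_sub_distrib]
          congr 1
          refine Finset.sum_congr rfl fun k _ => ?_
          have := h1.2.1 l y (k : ℤ)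
          rw [Int.cast_natCast] at this
          rw [this]
        have e4 : ‖m y - m (sg l y)‖ ≤ |C| * Real.exp (N * y.re) := by
          rw [e3, norm_mul, norm_inv, norm_natCast]
          have e5 : ‖∑ k ∈ Finset.range d, (q (y + tpi * k) - q (sg l (y + tpi * k)))‖ ≤
              d * (|C| * Real.exp (N * y.re)) := by
            have e6 : ∑ _k ∈ Finset.range d, (|C| * Real.exp (N * y.re)) =
                d * (|C| * Real.exp (N * y.re)) := by
              rw [Finset.sum_const, Finset.card_range, nsmul_eq_mul]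
            rw [← e6]
            refine (norm_sum_le _ _).trans (Finset.sum_le_sum fun k _ => ?_)
            have e7 := hC (y + tpi * k) (by rw [re_add]; linarith)
            rw [re_add] at e7
            exact e7.trans (mul_le_mul_of_nonneg_right (le_abs_self _) (Real.exp_pos _).le)
          calc (d : ℝ)⁻¹ * ‖∑ k ∈ Finset.range d, (q (y + tpi * k) - q (sg l (y + tpi * k)))‖
              ≤ (d : ℝ)⁻¹ * (d * (|C| * Real.exp (N * y.re))) :=
                mul_le_mul_of_nonneg_left e5 (by positivity)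
            _ = |C| * Real.exp (N * y.re) := by
                rw [← mul_assoc, inv_mul_cancel₀ hd0.ne', one_mul]
        have e8 := hexp1 y (l4.trans hyre.le)
        rw [hexpN, hyU] at e4 e8
        show ‖K U - K (U - l)‖ ≤ _
        have e9 : K U - K (U - l) = -(m y - K U) + (m y - m (sg l y)) +
            (m (sg l y) - K (U - l)) := by ring
        rw [e9]
        refine (norm_add_le _ _).trans ?_
        have e10 := norm_add_le (-(m y - K U)) (m y - m (sg l y))
        rw [norm_neg] at e10
        have e11 := abs_nonneg C1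
        nlinarith)
    obtain ⟨R, hR1, hR2⟩ := h2 _ B N hdiff hB
    exact ⟨R, hR1, hR2⟩

end Pool.Agent.ECF
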