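import Pool.Agent.ECF.StA

/-!
# ECF, module LAN (Landau's theorem for functions omitting the integers)
-/

set_option autoImplicit false

open Complex Polynomial Metric

namespace Pool.Agent.ECF

namespace LANx

/-- The points `w_N`. -/
noncomputable def w (N : ℕ) : ℝ := Real.log (√(N : ℝ) + √((N : ℝ) - 1))

lemma pos_arg (N : ℕ) (hN : 1 ≤ N) : 0 < √(N : ℝ) + √((N : ℝ) - 1) := by
  have h1 : (1 : ℝ) ≤ N := by exact_mod_cast hN
  have h2 : 0 < √(N : ℝ) := Real.sqrt_pos.2 (by linarith)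
  have h3 := Real.sqrt_nonneg ((N : ℝ) - 1)
  linarith

lemma w_one : w 1 = 0 := by
  unfold w
  simp

lemma w_succ (N : ℕ) (hN : 1 ≤ N) : w (N + 1) ≤ w N + 1 := by
  have h1 : (1 : ℝ) ≤ N := by exact_mod_cast hN
  have hpos := pos_arg N hN
  have h2 : 0 < √(N : ℝ) := Real.sqrt_pos.2 (by linarith)
  have h3 := Real.sqrt_nonneg ((N : ℝ) - 1)
  have h4 : w N + 1 = Real.log ((√(N : ℝ) + √((N : ℝ) - 1)) * Real.exp 1) := by
    rw [Real.log_mul hpos.ne' (Real.exp_pos 1).ne', Real.log_exp, w]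
  rw [h4]
  unfold w
  apply Real.log_le_log (pos_arg (N + 1) (by omega))
  have h5 : √((N + 1 : ℕ) : ℝ) ≤ 1.5 * √(N : ℝ) := by
    rw [Real.sqrt_le_left (by positivity)]
    rw [mul_pow, Real.sq_sqrt (by linarith)]
    push_cast
    nlinarith
  have h6 : (((N + 1 : ℕ) : ℝ) - 1) = N := by
    push_cast
    ring
  rw [h6]
  have h7 : (2.5 : ℝ) ≤ Real.exp 1 := by
    have := Real.exp_one_gt_d9
    linarith
  have h8 : (2.5 : ℝ) * √(N : ℝ) ≤ Real.exp 1 * √(N : ℝ) :=
    mul_le_mul_of_nonneg_right h7 h2.le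
  have h9 : 0 ≤ √((N : ℝ) - 1) * Real.exp 1 := mul_nonneg h3 (Real.exp_pos 1).le
  nlinarith

lemma w_unbounded (x : ℝ) : ∃ N : ℕ, 1 ≤ N ∧ x < w N := by
  obtain ⟨N, hN⟩ := exists_nat_gt (Real.exp x ^ 2 + 1)
  have he : 0 < Real.exp x := Real.exp_pos x
  have h1 : (1 : ℝ) ≤ N := by
    have : 0 ≤ Real.exp x ^ 2 := by positivity
    linarith
  refine ⟨N, by exact_mod_cast h1, ?_⟩
  unfold w
  have h3 := Real.sqrt_nonneg ((N : ℝ) - 1)
  have h4 : Real.exp x < √(N : ℝ) := by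
    rw [Real.lt_sqrt he.le]
    linarith
  calc x = Real.log (Real.exp x) := (Real.log_exp x).symm
    _ < Real.log (√(N : ℝ) + √((N : ℝ) - 1)) :=
        Real.log_lt_log he (by linarith)

lemma exists_w (x : ℝ) (hx : 0 ≤ x) : ∃ N : ℕ, 1 ≤ N ∧ |x - w N| ≤ 1 := by
  classical
  have hex := w_unbounded x
  set M := Nat.find hex with hM
  have hs := Nat.find_spec hex
  rw [← hM] at hs
  have hM1 : M ≠ 1 := by
    intro h
    rw [h, w_one] at hs
    linarith [hs.2]
  obtain ⟨K, hK⟩ : ∃ K, M = K + 1 := ⟨M - 1, by omega⟩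
  have hK1 : 1 ≤ K := by omega
  have hnot := Nat.find_min hex (m := K) (by omega)
  push Not at hnot
  have h1 := hnot hK1
  have h2 := w_succ K hK1
  have h3 := hs.2
  rw [hK] at h3
  refine ⟨K, hK1, ?_⟩
  rw [abs_le]
  constructor <;> linarith

/-- `exp (2 w_N) + exp (-2 w_N) = 4 N - 2`. -/
lemma exp_w (N : ℕ) (hN : 1 ≤ N) :
    Real.exp (2 * w N) + Real.exp (-(2 * w N)) = 4 * N - 2 := by
  have h1 : (1 : ℝ) ≤ N := by exact_mod_cast hN
  have hpos := pos_arg N hN
  have ha : √(N : ℝ) ^ 2 = N := Real.sq_sqrt (by linarith)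
  have hb : √((N : ℝ) - 1) ^ 2 = (N : ℝ) - 1 := Real.sq_sqrt (by linarith)
  have he : Real.exp (w N) = √(N : ℝ) + √((N : ℝ) - 1) := by
    unfold w
    rw [Real.exp_log hpos]
  have hi : Real.exp (-(w N)) = √(N : ℝ) - √((N : ℝ) - 1) := by
    rw [Real.exp_neg, he]
    apply inv_eq_of_mul_eq_one_right
    linear_combination ha - hb
  have e1 : Real.exp (2 * w N) = Real.exp (w N) ^ 2 := by
    rw [← Real.exp_nat_mul]
    norm_num
  have e2 : Real.exp (-(2 * w N)) = Real.exp (-(w N)) ^ 2 := by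
    rw [← Real.exp_nat_mul]
    congr 1
    push_cast
    ring
  rw [e1, e2, he, hi]
  nlinarith

/-- Every point is at distance `< 2` from a point `p` with
`exp (2 p) + exp (-2 p) = 4 N - 2` for a natural number `N`. -/
lemma exists_pt (c : ℂ) : ∃ (p : ℂ) (N : ℕ), ‖p - c‖ < 2 ∧
    exp (2 * p) + exp (-(2 * p)) = 4 * N - 2 := by
  obtain ⟨N, hN, hw⟩ := exists_w |c.re| (abs_nonneg _)
  have hpi : 0 < Real.pi := Real.pi_pos
  set k : ℤ := round (c.im / Real.pi) with hk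
  have hkim : |c.im - Real.pi * k| ≤ Real.pi / 2 := by
    have h1 := abs_sub_round (c.im / Real.pi)
    rw [← hk] at h1
    have h2 : c.im - Real.pi * k = (c.im / Real.pi - k) * Real.pi := by
      field_simp
    rw [h2, abs_mul, abs_of_pos hpi]
    nlinarith
  have hper : ∀ q : ℂ, exp (2 * (q + k * (Real.pi * I))) = exp (2 * q) := by
    intro q
    have : 2 * (q + k * (Real.pi * I)) = 2 * q + k * (2 * Real.pi * I) := by ring
    rw [this, Complex.exp_add, Complex.exp_int_mul_two_pi_mul_I, mul_one]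
  have hper' : ∀ q : ℂ, exp (-(2 * (q + k * (Real.pi * I)))) = exp (-(2 * q)) := by
    intro q
    rw [Complex.exp_neg, hper, Complex.exp_neg]
  have hw2 : exp (2 * ((w N : ℝ) : ℂ)) + exp (-(2 * ((w N : ℝ) : ℂ))) = 4 * N - 2 := by
    have := exp_w N hN
    have h2 : ((Real.exp (2 * w N) + Real.exp (-(2 * w N)) : ℝ) : ℂ) = ((4 * N - 2 : ℝ) : ℂ) := by
      rw [this]
    push_cast at h2
    exact h2
  have hdist : ∀ p : ℂ, |p.re - c.re| ≤ 1 → p.im = Real.pi * k → ‖p - c‖ < 2 := by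
    intro p hre him
    have h1 : ‖p - c‖ ^ 2 = (p.re - c.re) ^ 2 + (p.im - c.im) ^ 2 := by
      rw [← Complex.normSq_eq_norm_sq, Complex.normSq_apply]
      simp only [Complex.sub_re, Complex.sub_im]
      ring
    have h2 : (p.re - c.re) ^ 2 ≤ 1 := by
      rw [← sq_abs]
      have := abs_nonneg (p.re - c.re)
      nlinarith
    have h3 : (p.im - c.im) ^ 2 ≤ (Real.pi / 2) ^ 2 := by
      rw [him, ← sq_abs, abs_sub_comm]
      have := abs_nonneg (c.im - Real.pi * k)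
      exact pow_le_pow_left₀ this hkim 2
    have h4 : Real.pi < 3.15 := Real.pi_lt_d2
    have h5 : (Real.pi / 2) ^ 2 < 3 := by nlinarith
    by_contra hcon
    push Not at hcon
    nlinarith
  rcases le_total 0 c.re with hc | hc
  · refine ⟨(w N : ℝ) + k * (Real.pi * I), N, ?_, ?_⟩
    · apply hdist
      · simp
        rw [abs_of_nonneg hc, abs_sub_comm] at hw
        exact hw
      · simp
        ring
    · rw [hper, hper']
      exact hw2
  · refine ⟨-(w N : ℝ) + k * (Real.pi * I), N, ?_, ?_⟩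
    · apply hdist
      · simp
        rw [abs_of_nonpos hc] at hw
        have : -w N - c.re = -c.re - w N := by ring
        rw [this]
        exact hw
      · simp
        ring
    · rw [hper, hper']
      rw [← hw2]
      have e1 : 2 * -((w N : ℝ) : ℂ) = -(2 * ((w N : ℝ) : ℂ)) := by ring
      rw [e1, neg_neg, add_comm]

end LANx

open LANx in
/-- Landau's theorem for functions omitting the integers. -/
theorem thm_LAN (h1 : St_BLO) (h2 : St_LOG) : St_LAN := by
  refine ⟨400, by norm_num, ?_⟩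
  intro u y0 ρ hρ hu homit
  have hopen : IsOpen (ball y0 ρ) := isOpen_ball
  have hconv : Convex ℝ (ball y0 ρ) := convex_ball y0 ρ
  have hu0 : ∀ z ∈ ball y0 ρ, u z ≠ 0 := by
    intro z hz
    have := homit z hz 0
    simpa using this
  have hu1 : ∀ z ∈ ball y0 ρ, u z - 1 ≠ 0 := by
    intro z hz
    have := homit z hz 1
    rw [sub_ne_zero]
    simpa using this
  obtain ⟨a, ha, hau⟩ := h2 (ball y0 ρ) u hopen hconv hu hu0
  obtain ⟨b, hb, hbu⟩ := h2 (ball y0 ρ) (fun z => u z - 1) hopen hconv (hu.sub_const 1) hu1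
  set s : ℂ → ℂ := fun z => exp (a z / 2) with hs
  set r : ℂ → ℂ := fun z => exp (b z / 2) with hr
  have hs2 : ∀ z ∈ ball y0 ρ, s z ^ 2 = u z := by
    intro z hz
    rw [hs]
    simp only
    rw [← Complex.exp_nat_mul, ← hau z hz]
    congr 1
    push_cast
    ring
  have hr2 : ∀ z ∈ ball y0 ρ, r z ^ 2 = u z - 1 := by
    intro z hz
    rw [hr]
    simp only
    rw [← Complex.exp_nat_mul]
    have := hbu z hz
    rw [← this]
    congr 1
    push_cast
    ring
  have hsd : DifferentiableOn ℂ s (ball y0 ρ) := (ha.div_const 2).cexp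
  have hrd : DifferentiableOn ℂ r (ball y0 ρ) := (hb.div_const 2).cexp
  have hprod : ∀ z ∈ ball y0 ρ, (s z - r z) * (s z + r z) = 1 := by
    intro z hz
    linear_combination hs2 z hz - hr2 z hz
  have hg0 : ∀ z ∈ ball y0 ρ, s z - r z ≠ 0 := by
    intro z hz h0
    have := hprod z hz
    rw [h0, zero_mul] at this
    exact zero_ne_one this
  obtain ⟨h, hh, hhg⟩ := h2 (ball y0 ρ) (fun z => s z - r z) hopen hconv (hsd.sub hrd) hg0
  have e1 : ∀ z ∈ ball y0 ρ, exp (2 * h z) = (s z - r z) ^ 2 := by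
    intro z hz
    rw [← hhg z hz, ← Complex.exp_nat_mul]
    congr 1
  have e2 : ∀ z ∈ ball y0 ρ, exp (-(2 * h z)) = (s z + r z) ^ 2 := by
    intro z hz
    rw [Complex.exp_neg, e1 z hz]
    apply inv_eq_of_mul_eq_one_right
    rw [← mul_pow, hprod z hz, one_pow]
  have hE : ∀ z ∈ ball y0 ρ, exp (2 * h z) + exp (-(2 * h z)) = 4 * u z - 2 := by
    intro z hz
    rw [e1 z hz, e2 z hz]
    linear_combination 2 * hs2 z hz + 2 * hr2 z hz
  -- Bloch
  obtain ⟨c, hc⟩ := h1 h y0 ρ hρ hh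
  obtain ⟨p, N, hpc, hp⟩ := exists_pt c
  have hbound : ρ * ‖deriv h y0‖ ≤ 200 := by
    by_contra hcon
    push Not at hcon
    have hpin : p ∈ ball c (ρ * ‖deriv h y0‖ / 100) := by
      rw [mem_ball, dist_eq_norm]
      linarith
    obtain ⟨z, hz, hzp⟩ := hc hpin
    have h3 := hE z hz
    rw [hzp, hp] at h3
    have h4 : u z = ((N : ℤ) : ℂ) := by
      push_cast
      linear_combination (-1 / 4 : ℂ) * h3
    exact homit z hz N h4
  -- the derivative of u
  have hy0 : y0 ∈ ball y0 ρ := mem_ball_self hρ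
  have hhd : HasDerivAt h (deriv h y0) y0 :=
    (hh.differentiableAt (hopen.mem_nhds hy0)).hasDerivAt
  have hEd : HasDerivAt (fun z => (exp (2 * h z) + exp (-(2 * h z)) + 2) / 4)
      ((exp (2 * h y0) * (2 * deriv h y0) + exp (-(2 * h y0)) * (-(2 * deriv h y0))) / 4) y0 := by
    have d1 := (hhd.const_mul 2).cexp
    have d2 := (hhd.const_mul 2).neg.cexp
    exact ((d1.add d2).add_const 2).div_const 4
  have heq : u =ᶠ[nhds y0] (fun z => (exp (2 * h z) + exp (-(2 * h z)) + 2) / 4) := by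
    filter_upwards [hopen.mem_nhds hy0] with z hz
    rw [hE z hz]
    ring
  have hud : deriv u y0 =
      (exp (2 * h y0) * (2 * deriv h y0) + exp (-(2 * h y0)) * (-(2 * deriv h y0))) / 4 := by
    rw [heq.deriv_eq]
    exact hEd.deriv
  have hud2 : deriv u y0 = -(2 * s y0 * r y0 * deriv h y0) := by
    rw [hud, e1 y0 hy0, e2 y0 hy0]
    ring
  have hsn : ‖s y0‖ ^ 2 = ‖u y0‖ := by
    rw [← norm_pow, hs2 y0 hy0]
  have hrn : ‖r y0‖ ^ 2 ≤ ‖u y0‖ + 1 := by
    rw [← norm_pow, hr2 y0 hy0]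
    calc ‖u y0 - 1‖ ≤ ‖u y0‖ + ‖(1 : ℂ)‖ := norm_sub_le _ _
      _ = ‖u y0‖ + 1 := by rw [norm_one]
  have hnorm : ‖deriv u y0‖ = 2 * (‖s y0‖ * ‖r y0‖) * ‖deriv h y0‖ := by
    rw [hud2, norm_neg, norm_mul, norm_mul, norm_mul]
    simp only [Complex.norm_ofNat]
    ring
  have hsr : 2 * (‖s y0‖ * ‖r y0‖) ≤ 2 * ‖u y0‖ + 1 := by
    have := sq_nonneg (‖s y0‖ - ‖r y0‖)
    nlinarith
  have hun := norm_nonneg (u y0)
  calc ρ * ‖deriv u y0‖ = 2 * (‖s y0‖ * ‖r y0‖) * (ρ * ‖deriv h y0‖) := by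
        rw [hnorm]
        ring
    _ ≤ (2 * ‖u y0‖ + 1) * (ρ * ‖deriv h y0‖) :=
        mul_le_mul_of_nonneg_right hsr (by positivity)
    _ ≤ (2 * ‖u y0‖ + 1) * 200 := mul_le_mul_of_nonneg_left hbound (by positivity)
    _ ≤ 400 * (1 + ‖u y0‖) := by linarith

end Pool.Agent.ECF
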