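import Pool.Agent.ECF.StA

/-!
# ECF, module LAU: the entire part of the Laurent decomposition at infinity (helper72)
-/

set_option autoImplicit false

open Complex Polynomial Metric

namespace Pool.Agent.ECF

namespace LAUx

/-- the Cauchy integral over the circle of radius `R` -/
noncomputable def CI (M : ℂ → ℂ) (R : ℝ) (U : ℂ) : ℂ :=
  (2 * Real.pi * I : ℂ)⁻¹ • ∮ z in C(0, R), (z - U)⁻¹ • M z

/-- the Cauchy integral is holomorphic inside -/
theorem diff {M : ℂ → ℂ} {R : ℝ} (hR : 0 < R) (hM : ContinuousOn M (sphere 0 R)) {U : ℂ}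
    (hU : ‖U‖ < R) : DifferentiableAt ℂ (CI M R) U := by
  lift R to NNReal using hR.le
  have h1 : CircleIntegrable M 0 R := hM.circleIntegrable R.2
  have h2 := hasFPowerSeriesOn_cauchy_integral h1 (by exact_mod_cast hR)
  refine h2.differentiableOn.differentiableAt (x := U) ?_
  refine Metric.isOpen_eball.mem_nhds ?_
  rw [Metric.mem_eball, edist_zero_right, enorm_eq_nnnorm]
  exact_mod_cast hU

/-- independence of the radius -/
theorem indep {M : ℂ → ℂ} {ρ R R' : ℝ} (h0 : 0 < R) (h1 : ρ < R) (h2 : R ≤ R')
    (hM : ∀ z : ℂ, ρ < ‖z‖ → DifferentiableAt ℂ M z) {U : ℂ} (hU : ‖U‖ < R) :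
    CI M R' U = CI M R U := by
  unfold CI
  congr 1
  have hd : ∀ z : ℂ, R ≤ ‖z‖ → DifferentiableAt ℂ (fun z => (z - U)⁻¹ • M z) z := by
    intro z hz
    have hne : z - U ≠ 0 := by
      intro h
      rw [sub_eq_zero] at h
      rw [h] at hz
      linarith
    exact ((differentiableAt_id.sub_const U).inv hne).smul (hM z (by linarith))
  refine Complex.circleIntegral_eq_of_differentiable_on_annulus_off_countable h0 h2
    Set.countable_empty ?_ ?_
  · intro z hz
    refine (hd z ?_).continuousAt.continuousWithinAt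
    have := hz.2
    rw [mem_ball_zero_iff, not_lt] at this
    exact this
  · intro z hz
    refine hd z ?_
    have := hz.1.2
    rw [mem_closedBall_zero_iff, not_le] at this
    exact this.le

/-- the integral of `1 / (z - U)` for `U` outside -/
theorem outer {r : ℝ} (hr : 0 < r) {U : ℂ} (hU : r < ‖U‖) : ∮ z in C(0, r), (z - U)⁻¹ = 0 := by
  have hd : ∀ z : ℂ, ‖z‖ ≤ r → DifferentiableAt ℂ (fun z => (z - U)⁻¹) z := by
    intro z hz
    have hne : z - U ≠ 0 := by
      intro h
      rw [sub_eq_zero] at h
      rw [h] at hz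
      linarith
    exact (differentiableAt_id.sub_const U).inv hne
  refine Complex.circleIntegral_eq_zero_of_differentiable_on_off_countable hr.le
    Set.countable_empty ?_ ?_
  · intro z hz
    rw [mem_closedBall_zero_iff] at hz
    exact (hd z hz).continuousAt.continuousWithinAt
  · intro z hz
    have := hz.1
    rw [mem_ball_zero_iff] at this
    exact hd z this.le

/-- the Laurent decomposition -/
theorem dec {M : ℂ → ℂ} {ρ r R : ℝ} (hr : 0 < r) (h1 : ρ < r)
    (hM : ∀ z : ℂ, ρ < ‖z‖ → DifferentiableAt ℂ M z) {U : ℂ} (hU : r < ‖U‖) (hU' : ‖U‖ < R) :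
    CI M R U - CI M r U = M U := by
  have hrR : r ≤ R := (hU.trans hU').le
  have hR : 0 < R := hr.trans_le hrR
  have hcM : ∀ R' : ℝ, r ≤ R' → ContinuousOn M (sphere 0 R') := by
    intro R' h z hz
    rw [mem_sphere_zero_iff_norm] at hz
    exact (hM z (by linarith)).continuousAt.continuousWithinAt
  have hinv : ∀ R' : ℝ, R' ≠ ‖U‖ → ContinuousOn (fun z : ℂ => (z - U)⁻¹) (sphere 0 R') := by
    intro R' h z hz
    rw [mem_sphere_zero_iff_norm] at hz
    have hne : z - U ≠ 0 := by
      intro h'
      rw [sub_eq_zero] at h'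
      rw [h'] at hz
      exact h hz.symm
    exact ((continuousAt_id.sub continuousAt_const).inv₀ hne).continuousWithinAt
  -- the integrals of the difference quotient
  have hds : (∮ z in C(0, R), dslope M U z) = ∮ z in C(0, r), dslope M U z := by
    have hc : ContinuousOn (dslope M U) {z : ℂ | ρ < ‖z‖} := by
      refine (continuousOn_dslope (𝕜 := ℂ) (s := {z : ℂ | ρ < ‖z‖})
        ((isOpen_lt continuous_const continuous_norm).mem_nhds (h1.trans hU))).2
        ⟨fun z hz => (hM z hz).continuousAt.continuousWithinAt, hM U (h1.trans hU)⟩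
    refine Complex.circleIntegral_eq_of_differentiable_on_annulus_off_countable hr hrR
      (Set.countable_singleton U) (hc.mono ?_) ?_
    · intro z hz
      have := hz.2
      rw [mem_ball_zero_iff, not_lt] at this
      exact h1.trans_le this
    · intro z hz
      have h2 := hz.1.2
      rw [mem_closedBall_zero_iff, not_le] at h2
      exact (differentiableAt_dslope_of_ne hz.2).2 (hM z (h1.trans h2))
  have hexp : ∀ R' : ℝ, r ≤ R' → R' ≠ ‖U‖ → (∮ z in C(0, R'), dslope M U z) =
      (∮ z in C(0, R'), (z - U)⁻¹ • M z) - M U * ∮ z in C(0, R'), (z - U)⁻¹ := by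
    intro R' h hne
    have hR' : 0 ≤ R' := hr.le.trans h
    have e1 : (∮ z in C(0, R'), dslope M U z) =
        ∮ z in C(0, R'), ((z - U)⁻¹ • M z - (z - U)⁻¹ * M U) := by
      refine circleIntegral.integral_congr hR' fun z hz => ?_
      rw [mem_sphere_zero_iff_norm] at hz
      have hzU : z ≠ U := by
        intro h'
        rw [h'] at hz
        exact hne hz.symm
      rw [dslope_of_ne M hzU, slope_def_module, smul_sub, smul_eq_mul, smul_eq_mul]
    rw [e1, circleIntegral.integral_sub]
    · congr 1
      rw [mul_comm (M U)]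
      rw [← smul_eq_mul (∮ z in C(0, R'), (z - U)⁻¹), ← circleIntegral.integral_smul_const]
      simp only [smul_eq_mul]
    · exact ((hinv R' hne).smul (hcM R' h)).circleIntegrable hR'
    · exact ((hinv R' hne).mul continuousOn_const).circleIntegrable hR'
  have h2 := hexp R hrR hU'.ne'
  have h3 := hexp r le_rfl hU.ne
  rw [outer hr hU, mul_zero, sub_zero] at h3
  rw [circleIntegral.integral_sub_inv_of_mem_ball (by rw [mem_ball_zero_iff]; exact hU')] at h2
  rw [h2, h3] at hds
  have hpi : (2 * Real.pi * I : ℂ) ≠ 0 := Complex.two_pi_I_ne_zero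
  unfold CI
  rw [← smul_sub, ← hds, sub_sub_cancel, smul_eq_mul]
  field_simp

end LAUx

open LAUx

theorem thm_LAU : St_LAU := by
  intro L m hm hper
  -- the function on the punctured plane
  obtain ⟨M, hMdef⟩ : ∃ M : ℂ → ℂ, M = fun U => m (Complex.log U) := ⟨_, rfl⟩
  have hpt : tpi = 2 * Real.pi * I := rfl
  have htre : ∀ (y : ℂ) (n : ℤ), (y + n * tpi).re = y.re := by
    intro y n
    rw [hpt]
    simp
  have hperN : ∀ (n : ℕ), ∀ y ∈ Hp L, m (y + n * tpi) = m y := by
    intro n
    induction n with
    | zero =>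
      intro y _
      simp
    | succ n ih =>
      intro y hy
      have h1 : y + (n : ℂ) * tpi ∈ Hp L := by
        have := htre y n
        push_cast at this
        show L < (y + (n : ℂ) * tpi).re
        rw [this]
        exact hy
      have h2 := hper _ h1
      rw [ih y hy] at h2
      rw [← h2]
      congr 1
      push_cast
      ring
  have hperZ : ∀ (n : ℤ), ∀ y ∈ Hp L, m (y + n * tpi) = m y := by
    intro n y hy
    obtain ⟨k, rfl | rfl⟩ := n.eq_nat_or_neg
    · exact_mod_cast hperN k y hy
    · have h1 : y + ((-(k : ℤ) : ℤ) : ℂ) * tpi ∈ Hp L := by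
        show L < _
        rw [htre]
        exact hy
      have h2 := hperN k _ h1
      rw [← h2]
      congr 1
      push_cast
      ring
  have hMexp : ∀ y ∈ Hp L, M (exp y) = m y := by
    intro y hy
    obtain ⟨n, hn⟩ := Complex.log_exp_exists y
    rw [hMdef]
    show m (Complex.log (exp y)) = m y
    rw [hn]
    exact hperZ n y hy
  have hMd : ∀ U : ℂ, Real.exp L < ‖U‖ → DifferentiableAt ℂ M U := by
    intro U hU
    have hU0 : U ≠ 0 := by
      intro h
      rw [h, norm_zero] at hU
      exact absurd hU (not_lt.2 (Real.exp_pos L).le)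
    have hUn : 0 < ‖U‖ := norm_pos_iff.2 hU0
    have hy : Complex.log U ∈ Hp L := by
      show L < (Complex.log U).re
      rw [Complex.log_re, Real.lt_log_iff_exp_lt hUn]
      exact hU
    -- a local logarithm
    have hgd : DifferentiableAt ℂ (fun V => Complex.log (V / U) + Complex.log U) U := by
      refine DifferentiableAt.add_const _ ?_
      refine DifferentiableAt.clog (differentiableAt_id.div_const U) ?_
      simp only [div_self hU0]
      exact Complex.one_mem_slitPlane
    have hgU : Complex.log (U / U) + Complex.log U = Complex.log U := by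
      rw [div_self hU0, Complex.log_one, zero_add]
    have hopen : IsOpen (Hp L) := isOpen_lt continuous_const Complex.continuous_re
    have hmd : DifferentiableAt ℂ m (Complex.log (U / U) + Complex.log U) := by
      rw [hgU]
      exact (hm _ hy).differentiableAt (hopen.mem_nhds hy)
    have hcomp : DifferentiableAt ℂ (fun V => m (Complex.log (V / U) + Complex.log U)) U :=
      DifferentiableAt.comp U hmd hgd
    refine hcomp.congr_of_eventuallyEq ?_
    have e1 : ∀ᶠ V in nhds U, Complex.log (V / U) + Complex.log U ∈ Hp L := by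
      refine hgd.continuousAt.eventually_mem (hopen.mem_nhds ?_)
      rw [hgU]
      exact hy
    have e2 : ∀ᶠ V : ℂ in nhds U, V ≠ 0 := isOpen_ne.mem_nhds hU0
    filter_upwards [e1, e2] with V h1 h2
    rw [← hMexp _ h1, exp_add, Complex.exp_log (div_ne_zero h2 hU0), Complex.exp_log hU0,
      div_mul_cancel₀ _ hU0]
  -- the entire function
  obtain ⟨r, hr⟩ : ∃ r : ℝ, r = Real.exp L + 1 := ⟨_, rfl⟩
  have hL0 : 0 < Real.exp L := Real.exp_pos L
  have hr0 : 0 < r := by linarith
  have hLr : Real.exp L < r := by linarith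
  have hcM : ∀ R' : ℝ, r ≤ R' → ContinuousOn M (sphere 0 R') := by
    intro R' h z hz
    rw [mem_sphere_zero_iff_norm] at hz
    exact (hMd z (by linarith)).continuousAt.continuousWithinAt
  obtain ⟨K, hK⟩ : ∃ K : ℂ → ℂ, K = fun U => CI M (‖U‖ + r + 1) U := ⟨_, rfl⟩
  have hKR : ∀ (R : ℝ) (U : ℂ), r < R → ‖U‖ < R → K U = CI M R U := by
    intro R U h1 h2
    rw [hK]
    show CI M (‖U‖ + r + 1) U = CI M R U
    have hU := norm_nonneg U
    rcases le_total R (‖U‖ + r + 1) with h | h
    · exact indep (by linarith) (by linarith) h hMd h2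
    · exact (indep (by linarith) (by linarith) h hMd (by linarith)).symm
  obtain ⟨B, hB⟩ := (isCompact_sphere (0 : ℂ) r).exists_bound_of_continuousOn (hcM r le_rfl)
  refine ⟨K, ?_, r * B, Real.log (r + 1), ?_⟩
  · intro U
    have hU := norm_nonneg U
    have h1 : DifferentiableAt ℂ (CI M (‖U‖ + r + 1)) U :=
      diff (by linarith) (hcM _ (by linarith)) (by linarith)
    refine h1.congr_of_eventuallyEq ?_
    have e1 : ∀ᶠ V : ℂ in nhds U, ‖V‖ < ‖U‖ + r + 1 :=
      (isOpen_lt continuous_norm continuous_const).mem_nhds (by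
        show ‖U‖ < ‖U‖ + r + 1
        linarith)
    filter_upwards [e1] with V hV
    exact hKR _ V (by linarith) hV
  · intro y hy
    have h1 : r + 1 ≤ ‖exp y‖ := by
      rw [Complex.norm_exp]
      rw [Real.log_le_iff_le_exp (by linarith)] at hy
      exact hy
    have hyL : y ∈ Hp L := by
      show L < y.re
      rw [Complex.norm_exp] at h1
      rw [← Real.exp_lt_exp]
      linarith
    rw [← hMexp y hyL]
    have h2 := dec (R := ‖exp y‖ + r + 1) hr0 hLr hMd (by linarith) (by linarith)
    rw [hKR (‖exp y‖ + r + 1) (exp y) (by linarith [norm_nonneg (exp y)]) (by linarith), ← h2]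
    rw [sub_sub_cancel_left, norm_neg]
    unfold CI
    refine circleIntegral.norm_two_pi_i_inv_smul_integral_le_of_norm_le_const hr0.le ?_
    intro z hz
    have hzn : ‖z‖ = r := mem_sphere_zero_iff_norm.1 hz
    rw [norm_smul, norm_inv]
    have h3 : 1 ≤ ‖z - exp y‖ := by
      have := norm_sub_norm_le (exp y) z
      rw [norm_sub_rev] at this
      linarith
    have h4 : ‖z - exp y‖⁻¹ ≤ 1 := inv_le_one_of_one_le₀ h3
    calc ‖z - exp y‖⁻¹ * ‖M z‖ ≤ 1 * B :=
          mul_le_mul h4 (hB z hz) (norm_nonneg _) zero_le_one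
      _ = B := one_mul B

end Pool.Agent.ECF
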