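import Pool.Agent.ECF.StA

/-!
# ECF/OMT (helper96): asymptotics of functions omitting the integers
-/

set_option autoImplicit false

open Complex Polynomial Metric

namespace Pool.Agent.ECF

namespace OMTx

theorem re_per (d : ℕ) (k : ℤ) (y : ℂ) : (y + tpi * d * k).re = y.re := by
  simp [tpi]

theorem im_per (d : ℕ) (k : ℤ) (y : ℂ) :
    (y + tpi * d * k).im = y.im + 2 * Real.pi * d * k := by
  simp [tpi]

theorem per_int {L : ℝ} {l : ℂ → ℂ} {d : ℕ} (h : ∀ y ∈ Hp L, l (y + tpi * d) = l y) (k : ℤ) :
    ∀ y ∈ Hp L, l (y + tpi * d * k) = l y := by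
  induction k using Int.induction_on with
  | zero =>
    intro y _
    simp
  | succ k ih =>
    intro y hy
    have h1 : y + tpi * d * ((k + 1 : ℤ) : ℂ) = (y + tpi * d * ((k : ℤ) : ℂ)) + tpi * d := by
      push_cast
      ring
    have h2 : y + tpi * d * ((k : ℤ) : ℂ) ∈ Hp L := by
      show L < _
      rw [re_per]
      exact hy
    rw [h1, h _ h2, ih y hy]
  | pred k ih =>
    intro y hy
    have h1 : y + tpi * d * ((-k : ℤ) : ℂ) = (y + tpi * d * ((-k - 1 : ℤ) : ℂ)) + tpi * d := by
      push_cast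
      ring
    have h2 : y + tpi * d * ((-k - 1 : ℤ) : ℂ) ∈ Hp L := by
      show L < _
      rw [re_per]
      exact hy
    rw [← ih y hy, h1, h _ h2]

/-- powers are bounded by exponentials -/
theorem pow_le (N : ℕ) (a t : ℝ) (ha : 0 < a) (ht : 0 ≤ t) :
    t ^ N ≤ (N.factorial * a ^ N) * Real.exp (t / a) := by
  have h1 := Real.pow_div_factorial_le_exp (t / a) (by positivity) N
  have h2 : (t / a) ^ N ≤ N.factorial * Real.exp (t / a) := by
    rw [div_le_iff₀ (by positivity)] at h1
    linarith
  calc t ^ N = (t / a) ^ N * a ^ N := by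
        rw [← mul_pow, div_mul_cancel₀ _ ha.ne']
    _ ≤ (N.factorial * Real.exp (t / a)) * a ^ N :=
        mul_le_mul_of_nonneg_right h2 (by positivity)
    _ = _ := by ring

end OMTx

open OMTx in
/-- **OMT** -/
theorem thm_OMT (h1 : St_GRO) (h2 : St_PER) : St_OMT := by
  obtain ⟨N, hN⟩ := h1
  intro d L u c hd hu hint hper
  have hdR : (0 : ℝ) < d := by exact_mod_cast hd
  have hdC : (d : ℂ) ≠ 0 := by exact_mod_cast (by omega : d ≠ 0)
  have htpi : tpi ≠ 0 := by
    simp [tpi]
  have hpi := Real.pi_pos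
  -- the periodic function
  set l : ℂ → ℂ := fun y => u y - c / (tpi * d) * y with hl
  have hlper : ∀ y ∈ Hp L, l (y + tpi * d) = l y := by
    intro y hy
    rw [hl]
    dsimp only
    rw [hper y hy]
    field_simp
    ring
  have hlk := fun k : ℤ => per_int hlper k
  -- bound on the segment
  have hseg : ContinuousOn (fun v : ℝ => u (((L + 1 : ℝ) : ℂ) + v * I))
      (Set.Icc 0 (2 * Real.pi * d)) := by
    refine hu.continuousOn.comp (by fun_prop) ?_
    intro v _
    show L < _
    simp
  obtain ⟨M, hM⟩ := isCompact_Icc.exists_bound_of_continuousOn hseg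
  have hM0 : 0 ≤ M := (norm_nonneg _).trans (hM 0 ⟨le_rfl, by positivity⟩)
  set a : ℝ := 2 * d with ha
  have ha0 : 0 < a := by positivity
  set L1 : ℝ := max (L + 1) 0 with hL1
  set q : ℝ := ‖c / (tpi * d)‖ with hq
  have hq0 : 0 ≤ q := norm_nonneg _
  set C : ℝ := (1 + M) * ((N.factorial * a ^ N) * Real.exp (-L / a)) +
    q * (a + 2 * Real.pi * d) with hC
  have hbound : ∀ y ∈ Hp L1, ‖l y‖ ≤ C * Real.exp (((0 : ℕ) + (1 / 2 : ℝ)) * y.re / d) := by
    intro y hy
    have hy1 : L + 1 < y.re := lt_of_le_of_lt (le_max_left _ _) hy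
    have hy0 : 0 < y.re := lt_of_le_of_lt (le_max_right _ _) hy
    have hyL : y ∈ Hp L := by
      show L < y.re
      linarith
    -- reduce to the strip
    set k : ℤ := ⌊y.im / (2 * Real.pi * d)⌋ with hk
    set y' : ℂ := y + tpi * d * ((-k : ℤ) : ℂ) with hy'
    have hre : y'.re = y.re := by rw [hy', re_per]
    have him : y'.im = y.im - 2 * Real.pi * d * k := by
      rw [hy', im_per]
      push_cast
      ring
    have hpd : 0 < 2 * Real.pi * d := by positivity
    have him0 : 0 ≤ y'.im := by
      have h3 := Int.floor_le (y.im / (2 * Real.pi * d))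
      rw [le_div_iff₀ hpd] at h3
      rw [him, hk]
      linarith
    have him1 : y'.im ≤ 2 * Real.pi * d := by
      have h3 := (Int.lt_floor_add_one (y.im / (2 * Real.pi * d))).le
      rw [div_le_iff₀ hpd] at h3
      rw [him, hk]
      linarith
    have hll : l y = l y' := (hlk (-k) y hyL).symm
    have hexp : ((0 : ℕ) + (1 / 2 : ℝ)) * y.re / d = y.re / a := by
      rw [ha]
      push_cast
      field_simp
      ring
    rw [hexp]
    have hyy : y' = ((y.re : ℝ) : ℂ) + (y'.im : ℝ) * I := by
      rw [← hre]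
      exact (Complex.re_add_im y').symm
    -- growth
    have h4 : ‖u y'‖ ≤ (1 + M) * (y.re - L) ^ N := by
      have h5 := hN L u hu hint y.re y'.im hy1.le
      rw [← hyy] at h5
      refine h5.trans ?_
      have h6 := hM y'.im ⟨him0, him1⟩
      have h7 : 0 ≤ (y.re - L) ^ N := pow_nonneg (by linarith) N
      exact mul_le_mul_of_nonneg_right (by linarith) h7
    have h8 : (y.re - L) ^ N ≤ ((N.factorial * a ^ N) * Real.exp (-L / a)) *
        Real.exp (y.re / a) := by
      refine (pow_le N a (y.re - L) ha0 (by linarith)).trans (le_of_eq ?_)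
      rw [mul_assoc _ (Real.exp (-L / a)), ← Real.exp_add]
      congr 2
      ring
    have h9 : ‖c / (tpi * d) * y'‖ ≤ q * (a + 2 * Real.pi * d) * Real.exp (y.re / a) := by
      rw [norm_mul, ← hq, mul_assoc]
      refine mul_le_mul_of_nonneg_left ?_ hq0
      have e1 : ‖y'‖ ≤ y.re + 2 * Real.pi * d := by
        refine (Complex.norm_le_abs_re_add_abs_im y').trans ?_
        rw [hre, abs_of_pos hy0, abs_of_nonneg him0]
        linarith
      have e2 : y.re ≤ a * Real.exp (y.re / a) := by
        have e3 := Real.add_one_le_exp (y.re / a)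
        have e4 : y.re = a * (y.re / a) := by field_simp
        have e5 : a * (y.re / a) ≤ a * Real.exp (y.re / a) :=
          mul_le_mul_of_nonneg_left (by linarith) ha0.le
        linarith
      have e6 : 1 ≤ Real.exp (y.re / a) := Real.one_le_exp (by positivity)
      have e7 : 2 * Real.pi * d ≤ 2 * Real.pi * d * Real.exp (y.re / a) :=
        le_mul_of_one_le_right hpd.le e6
      linarith
    rw [hll]
    calc ‖l y'‖ ≤ ‖u y'‖ + ‖c / (tpi * d) * y'‖ := norm_sub_le _ _
      _ ≤ (1 + M) * (((N.factorial * a ^ N) * Real.exp (-L / a)) * Real.exp (y.re / a)) +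
          q * (a + 2 * Real.pi * d) * Real.exp (y.re / a) := by
          refine add_le_add (h4.trans ?_) h9
          exact mul_le_mul_of_nonneg_left h8 (by linarith)
      _ = C * Real.exp (y.re / a) := by
          rw [hC]
          ring
  have hsub : Hp L1 ⊆ Hp L := by
    intro y hy
    have : L + 1 < y.re := lt_of_le_of_lt (le_max_left _ _) hy
    show L < y.re
    linarith
  have hldiff : DifferentiableOn ℂ l (Hp L1) := by
    refine DifferentiableOn.sub (hu.mono hsub) ?_
    fun_prop
  obtain ⟨B, C', hB, hfin⟩ := h2 d 0 L1 C (1 / 2) l hd (by norm_num) (by norm_num) hldiff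
    (fun y hy => hlper y (hsub hy)) hbound
  refine ⟨B.coeff 0, C', L1 + 1, fun y hy => ?_⟩
  have h3 := hfin y hy
  rw [Polynomial.eq_C_of_natDegree_le_zero hB, eval_C] at h3
  rw [hl] at h3
  exact h3

end Pool.Agent.ECF
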