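import Pool.Agent.ECF.StA

/-!
# ECF PER: periodic functions on a half-plane of moderate growth
-/

set_option autoImplicit false

open Complex Polynomial Metric

namespace Pool.Agent.ECF

namespace PERx

private lemma hp_open (L : ℝ) : IsOpen (Hp L) :=
  isOpen_lt continuous_const Complex.continuous_re

private lemma tpi_mul_re (d : ℕ) (k : ℤ) : ((k : ℂ) * (tpi * d)).re = 0 := by
  unfold tpi
  simp

private lemma per_nat {d : ℕ} {L : ℝ} {l : ℂ → ℂ} (hper : ∀ y ∈ Hp L, l (y + tpi * d) = l y)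
    (k : ℕ) : ∀ y ∈ Hp L, l (y + ((k : ℤ) : ℂ) * (tpi * d)) = l y := by
  induction k with
  | zero => intro y _; simp
  | succ k ih =>
    intro y hy
    have h1 : y + ((k : ℤ) : ℂ) * (tpi * d) ∈ Hp L := by
      show L < (y + ((k : ℤ) : ℂ) * (tpi * d)).re
      rw [add_re, tpi_mul_re, add_zero]
      exact hy
    have h2 := hper _ h1
    rw [ih y hy] at h2
    rw [← h2]
    congr 1
    push_cast
    ring

private lemma per_int {d : ℕ} {L : ℝ} {l : ℂ → ℂ} (hper : ∀ y ∈ Hp L, l (y + tpi * d) = l y)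
    (k : ℤ) : ∀ y ∈ Hp L, l (y + (k : ℂ) * (tpi * d)) = l y := by
  intro y hy
  rcases Int.eq_nat_or_neg k with ⟨m, rfl | rfl⟩
  · exact per_nat hper m y hy
  · have h1 : y + ((-(m : ℤ) : ℤ) : ℂ) * (tpi * d) ∈ Hp L := by
      show L < (y + ((-(m : ℤ) : ℤ) : ℂ) * (tpi * d)).re
      rw [add_re, tpi_mul_re, add_zero]
      exact hy
    have h2 := per_nat hper m _ h1
    rw [← h2]
    congr 1
    push_cast
    ring

/-- Taylor expansion with remainder -/
private lemma tay (r : ℝ) (hr : 0 < r) (m : ℕ) : ∀ F : ℂ → ℂ, DifferentiableOn ℂ F (ball 0 r) →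
    ∃ (c : ℕ → ℂ) (R : ℂ → ℂ), DifferentiableOn ℂ R (ball 0 r) ∧
      ∀ w, F w = (∑ k ∈ Finset.range m, c k * w ^ k) + w ^ m * R w := by
  induction m with
  | zero => intro F hF; exact ⟨fun _ => 0, F, hF, fun w => by simp⟩
  | succ m ih =>
    intro F hF
    have h1 : DifferentiableOn ℂ (dslope F 0) (ball 0 r) :=
      (Complex.differentiableOn_dslope (ball_mem_nhds 0 hr)).2 hF
    obtain ⟨c, R, hR, hc⟩ := ih _ h1
    refine ⟨fun k => if k = 0 then F 0 else c (k - 1), R, hR, fun w => ?_⟩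
    have h2 : F w = F 0 + w * dslope F 0 w := by
      have := sub_smul_dslope F 0 w
      rw [sub_zero, smul_eq_mul] at this
      rw [this]
      ring
    rw [h2, hc w, Finset.sum_range_succ']
    simp only [Nat.add_sub_cancel, Nat.succ_ne_zero, if_false, if_true, pow_zero, mul_one]
    rw [mul_add, Finset.mul_sum]
    have h3 : ∑ k ∈ Finset.range m, w * (c k * w ^ k) =
        ∑ k ∈ Finset.range m, c k * w ^ (k + 1) :=
      Finset.sum_congr rfl fun k _ => by ring
    rw [h3]
    ring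

end PERx

open PERx in
theorem thm_PER : St_PER := by
  intro d n L C θ l hd hθ0 hθ1 hl hper hgr
  have hd0 : (0 : ℝ) < d := by exact_mod_cast hd
  have hdc : (d : ℂ) ≠ 0 := by exact_mod_cast hd0.ne'
  obtain ⟨r0, hr0⟩ : ∃ r0 : ℝ, r0 = Real.exp (-L / d) := ⟨_, rfl⟩
  have hr0p : 0 < r0 := by rw [hr0]; positivity
  -- the point above `w`
  have hmem : ∀ y : ℂ, exp (-y / d) ∈ ball (0 : ℂ) r0 ↔ y ∈ Hp L := by
    intro y
    have e : (-y / d).re = -y.re / d := by
      rw [Complex.div_natCast_re, neg_re]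
    rw [mem_ball_zero_iff, Complex.norm_exp, e, hr0, Real.exp_lt_exp,
      div_lt_div_iff_of_pos_right hd0, neg_lt_neg_iff]
    exact Iff.rfl
  have hval : ∀ y y' : ℂ, y ∈ Hp L → exp (-y / d) = exp (-y' / d) → l y' = l y := by
    intro y y' hy he
    obtain ⟨k, hk⟩ := Complex.exp_eq_exp_iff_exists_int.1 he
    have h1 : y' = y + (k : ℂ) * (tpi * d) := by
      unfold tpi
      field_simp at hk
      linear_combination hk
    rw [h1]
    exact per_int hper k y hy
  obtain ⟨G, hG⟩ : ∃ G : ℂ → ℂ, G = fun w => l (-d * Complex.log w) := ⟨_, rfl⟩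
  have hlog : ∀ w : ℂ, w ≠ 0 → exp (-(-d * Complex.log w) / d) = w := by
    intro w hw
    have : -(-d * Complex.log w) / d = Complex.log w := by field_simp
    rw [this, Complex.exp_log hw]
  have hGl : ∀ y ∈ Hp L, G (exp (-y / d)) = l y := by
    intro y hy
    rw [hG]
    exact hval _ _ hy (hlog _ (Complex.exp_ne_zero _)).symm
  have hGd : ∀ w ∈ ball (0 : ℂ) r0, w ≠ 0 → DifferentiableAt ℂ G w := by
    intro w0 hw0 hne
    obtain ⟨y0, hy0⟩ : ∃ y0 : ℂ, exp (-y0 / d) = w0 := ⟨_, hlog w0 hne⟩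
    have hy0L : y0 ∈ Hp L := by rw [← hmem, hy0]; exact hw0
    obtain ⟨F, hF⟩ : ∃ F : ℂ → ℂ, F = fun w => y0 - d * Complex.log (w / w0) := ⟨_, rfl⟩
    have hF0 : F w0 = y0 := by
      rw [hF]
      simp [div_self hne]
    have hFd : DifferentiableAt ℂ F w0 := by
      rw [hF]
      refine (differentiableAt_const _).sub ((differentiableAt_const _).mul ?_)
      refine DifferentiableAt.clog (by fun_prop) ?_
      rw [div_self hne]
      exact Complex.one_mem_slitPlane
    have hlF : DifferentiableAt ℂ (fun w => l (F w)) w0 := by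
      refine DifferentiableAt.comp w0 ?_ hFd
      rw [hF0]
      exact hl.differentiableAt ((hp_open L).mem_nhds hy0L)
    refine hlF.congr_of_eventuallyEq ?_
    have h1 : ∀ᶠ w in nhds w0, F w ∈ Hp L := by
      refine hFd.continuousAt.eventually_mem ?_
      rw [hF0]
      exact (hp_open L).mem_nhds hy0L
    have h2 : ∀ᶠ w in nhds w0, w ≠ 0 := isOpen_ne.mem_nhds hne
    filter_upwards [h1, h2] with w hw1 hw2
    have h3 : exp (-(F w) / d) = w := by
      rw [hF]
      have h4 : -(y0 - d * Complex.log (w / w0)) / d = -y0 / d + Complex.log (w / w0) := by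
        field_simp
        ring
      rw [h4, Complex.exp_add, hy0, Complex.exp_log (div_ne_zero hw2 hne), mul_div_cancel₀ _ hne]
    have h5 := hGl _ hw1
    rw [h3] at h5
    exact h5
  obtain ⟨H, hH⟩ : ∃ H : ℂ → ℂ, H = fun w => w ^ (n + 1) * G w := ⟨_, rfl⟩
  have hHb : ∀ w ∈ ball (0 : ℂ) r0, w ≠ 0 → ‖H w‖ ≤ C * ‖w‖ ^ (1 - θ) := by
    intro w hw hne
    obtain ⟨y0, hy0⟩ : ∃ y0 : ℂ, exp (-y0 / d) = w := ⟨_, hlog w hne⟩
    have hy0L : y0 ∈ Hp L := by rw [← hmem, hy0]; exact hw
    have h1 : G w = l y0 := by rw [← hy0]; exact hGl _ hy0L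
    have h2 : ‖w‖ = Real.exp (-y0.re / d) := by
      rw [← hy0, Complex.norm_exp, Complex.div_natCast_re, neg_re]
    have hwp : 0 < ‖w‖ := norm_pos_iff.2 hne
    rw [hH]
    show ‖w ^ (n + 1) * G w‖ ≤ _
    rw [norm_mul, norm_pow, h1]
    have h3 := hgr y0 hy0L
    have h4 : Real.exp ((n + θ) * y0.re / d) = ‖w‖ ^ (-(n + θ)) := by
      rw [h2, ← Real.exp_mul]
      congr 1
      ring
    rw [h4] at h3
    calc ‖w‖ ^ (n + 1) * ‖l y0‖ ≤ ‖w‖ ^ (n + 1) * (C * ‖w‖ ^ (-((n : ℝ) + θ))) :=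
          mul_le_mul_of_nonneg_left h3 (by positivity)
      _ = C * (‖w‖ ^ (((n + 1 : ℕ) : ℝ)) * ‖w‖ ^ (-((n : ℝ) + θ))) := by
          rw [Real.rpow_natCast]
          ring
      _ = C * ‖w‖ ^ (1 - θ) := by
          rw [← Real.rpow_add hwp]
          congr 2
          push_cast
          ring
  have hH0 : H 0 = 0 := by rw [hH]; simp
  have hHd : DifferentiableOn ℂ H (ball 0 r0) := by
    refine (Complex.differentiableOn_compl_singleton_and_continuousAt_iff
      (ball_mem_nhds 0 hr0p)).1 ⟨?_, ?_⟩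
    · intro w hw
      refine DifferentiableAt.differentiableWithinAt ?_
      rw [hH]
      exact (differentiableAt_id.pow _).mul (hGd w hw.1 hw.2)
    · show Filter.Tendsto H (nhds 0) (nhds (H 0))
      rw [hH0]
      have h1 : Filter.Tendsto (fun w : ℂ => |C| * ‖w‖ ^ (1 - θ)) (nhds 0) (nhds 0) := by
        have h2 : ContinuousAt (fun w : ℂ => |C| * ‖w‖ ^ (1 - θ)) 0 := by
          refine continuousAt_const.mul ?_
          exact ContinuousAt.rpow_const continuous_norm.continuousAt (Or.inr (by linarith))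
        have h3 : |C| * ‖(0 : ℂ)‖ ^ (1 - θ) = 0 := by
          rw [norm_zero, Real.zero_rpow (by linarith), mul_zero]
        have h4 := h2.tendsto
        simp only [h3] at h4
        exact h4
      refine squeeze_zero_norm' ?_ h1
      filter_upwards [ball_mem_nhds (0 : ℂ) hr0p] with w hw
      by_cases hne : w = 0
      · rw [hne, hH0, norm_zero]
        positivity
      · refine (hHb w hw hne).trans ?_
        exact mul_le_mul_of_nonneg_right (le_abs_self C) (by positivity)
  obtain ⟨c, R, hR, hc⟩ := tay r0 hr0p (n + 2) H hHd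
  have hc0 : c 0 = 0 := by
    have h1 := hc 0
    rw [hH0, Finset.sum_range_succ'] at h1
    simp at h1
    exact h1.symm
  obtain ⟨r1, hr1⟩ : ∃ r1 : ℝ, r1 = Real.exp (-(L + 1) / d) := ⟨_, rfl⟩
  have hr10 : r1 < r0 := by
    rw [hr1, hr0, Real.exp_lt_exp, div_lt_div_iff_of_pos_right hd0]
    linarith
  obtain ⟨M, hM⟩ : ∃ M : ℝ, ∀ w ∈ closedBall (0 : ℂ) r1, ‖R w‖ ≤ M :=
    (isCompact_closedBall (0 : ℂ) r1).exists_bound_of_continuousOn
      (hR.continuousOn.mono (closedBall_subset_ball hr10))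
  refine ⟨∑ k ∈ Finset.range (n + 1), Polynomial.C (c (k + 1)) * X ^ (n - k), M, ?_, fun y hy => ?_⟩
  · refine Polynomial.natDegree_sum_le_of_forall_le _ _ fun k _ => ?_
    exact (Polynomial.natDegree_C_mul_X_pow_le _ _).trans (Nat.sub_le _ _)
  · have hyL : y ∈ Hp L := by
      show L < y.re
      linarith
    obtain ⟨w, hw⟩ : ∃ w : ℂ, w = exp (-y / d) := ⟨_, rfl⟩
    have hne : w ≠ 0 := by rw [hw]; exact Complex.exp_ne_zero _
    have hwn : ‖w‖ = Real.exp (-y.re / d) := by
      rw [hw, Complex.norm_exp, Complex.div_natCast_re, neg_re]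
    have hwb : w ∈ ball (0 : ℂ) r0 := by rw [hw, hmem]; exact hyL
    have hwc : w ∈ closedBall (0 : ℂ) r1 := by
      rw [mem_closedBall_zero_iff, hwn, hr1, Real.exp_le_exp, div_le_div_iff_of_pos_right hd0]
      linarith
    have hexp : exp (y / d) = w⁻¹ := by
      rw [hw, ← Complex.exp_neg]
      congr 1
      ring
    have hly : l y = G w := by rw [hw, hGl y hyL]
    have hB : w ^ (n + 1) * (∑ k ∈ Finset.range (n + 1),
        Polynomial.C (c (k + 1)) * X ^ (n - k) : ℂ[X]).eval w⁻¹ =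
        ∑ k ∈ Finset.range (n + 1), c (k + 1) * w ^ (k + 1) := by
      rw [Polynomial.eval_finsetSum, Finset.mul_sum]
      refine Finset.sum_congr rfl fun k hk => ?_
      have hk' : k ≤ n := Nat.lt_succ_iff.1 (Finset.mem_range.1 hk)
      rw [Polynomial.eval_mul, Polynomial.eval_C, Polynomial.eval_pow, Polynomial.eval_X]
      have h1 : w ^ (n + 1) = w ^ (k + 1) * w ^ (n - k) := by
        rw [← pow_add]
        congr 1
        omega
      have h2 : w ^ (n - k) * w⁻¹ ^ (n - k) = 1 := by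
        rw [← mul_pow, mul_inv_cancel₀ hne, one_pow]
      rw [h1]
      linear_combination (c (k + 1) * w ^ (k + 1)) * h2
    have hkey : G w - (∑ k ∈ Finset.range (n + 1),
        Polynomial.C (c (k + 1)) * X ^ (n - k) : ℂ[X]).eval w⁻¹ = w * R w := by
      have h1 := hc w
      rw [Finset.sum_range_succ', hc0, zero_mul, add_zero, ← hB] at h1
      have h2 : H w = w ^ (n + 1) * G w := by rw [hH]
      rw [h2] at h1
      have h3 : w ^ (n + 1) ≠ 0 := pow_ne_zero _ hne
      apply mul_left_cancel₀ h3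
      linear_combination h1
    rw [hly, hexp, hkey, norm_mul, hwn, mul_comm]
    exact mul_le_mul_of_nonneg_right (hM w hwc) (Real.exp_pos _).le

end Pool.Agent.ECF
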