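import Pool.Agent.ECF.StA
import Pool.Agent.Helper86.FBPoly

/-!
# ECF, module POK: entire functions with two polynomial differences are polynomials
-/

set_option autoImplicit false

open Complex Polynomial Metric

namespace Pool.Agent.ECF

private theorem poly_of_deriv {f : ℂ → ℂ} (hf : Differentiable ℂ f) {N : ℕ}
    (h : ∀ k, N < k → iteratedDeriv k f 0 = 0) : ∃ Q : ℂ[X], ∀ z, f z = Q.eval z := by
  set a : ℕ → ℂ := fun n => (n.factorial : ℂ)⁻¹ * iteratedDeriv n f 0 with ha
  refine ⟨∑ n ∈ Finset.range (N + 1), C (a n) * X ^ n, fun z => ?_⟩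
  rw [← Complex.taylorSeries_eq_of_entire' (c := 0) (z := z) hf, eval_finsetSum,
    tsum_eq_sum (s := Finset.range (N + 1))]
  · refine Finset.sum_congr rfl fun n _ => ?_
    simp [ha]
  · intro n hn
    have : N < n := by
      rw [Finset.mem_range, not_lt] at hn
      omega
    simp [h n this]

private theorem iter_eq {R : ℂ[X]} (k : ℕ) :
    iteratedDeriv k (fun x => R.eval x) = fun x => (derivative^[k] R).eval x := by
  induction k with
  | zero => simp
  | succ k ih =>
    rw [iteratedDeriv_succ, ih, Function.iterate_succ_apply']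
    funext x
    exact Polynomial.deriv _

private theorem diff_iter {K : ℂ → ℂ} (hK : Differentiable ℂ K) {p : ℂ} {R : ℂ[X]}
    (hR : ∀ U, K U - K (U - p) = R.eval U) {k : ℕ} (hk : R.natDegree < k) (z : ℂ) :
    iteratedDeriv k K (z + p) = iteratedDeriv k K z := by
  have hc : ContDiff ℂ k K := hK.contDiff
  have h1 : (fun U => K U - K (U - p)) = fun U => R.eval U := funext hR
  have h2 : iteratedDeriv k (fun U => K U - K (U - p)) (z + p) = 0 := by
    rw [h1, iter_eq, iterate_derivative_eq_zero hk]
    simp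
  have h3 : iteratedDeriv k (fun U => K U - K (U - p)) (z + p)
      = iteratedDeriv k K (z + p) - iteratedDeriv k (fun U => K (U - p)) (z + p) := by
    have hc2 : ContDiff ℂ k fun U => K (U - p) := hc.comp (contDiff_id.sub contDiff_const)
    exact iteratedDeriv_fun_sub hc.contDiffAt hc2.contDiffAt
  rw [h3, iteratedDeriv_comp_sub_const] at h2
  simp only [add_sub_cancel_right] at h2
  exact sub_eq_zero.1 h2

theorem thm_POK (h1 : St_DPER) : St_POK := by
  rintro α K hα hK ⟨R1, hR1⟩ ⟨R2, hR2⟩
  set M : ℕ := R1.natDegree + R2.natDegree + 1 with hM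
  have hdiff : ∀ k, Differentiable ℂ (iteratedDeriv k K) := by
    intro k
    have hc : ContDiff ℂ (⊤ : ℕ∞) K := hK.contDiff
    exact hc.differentiable_iteratedDeriv k (by exact_mod_cast WithTop.coe_lt_top k)
  have hconst : ∀ k, M ≤ k → ∀ z w, iteratedDeriv k K z = iteratedDeriv k K w := by
    intro k hk
    exact h1 α _ hα (hdiff k) (diff_iter hK hR1 (by omega)) (diff_iter hK hR2 (by omega))
  refine poly_of_deriv hK (N := M) fun k hk => ?_
  obtain ⟨j, rfl⟩ : ∃ j, k = j + 1 := ⟨k - 1, by omega⟩
  rw [iteratedDeriv_succ]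
  have : iteratedDeriv j K = fun _ => iteratedDeriv j K 0 :=
    funext fun z => hconst j (by omega) z 0
  rw [this]
  simp

end Pool.Agent.ECF
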