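import Pool.Agent.ECF.StA
import Pool.Agent.Helper86.FBPoly

/-!
# ECF, module POL: an entire function of polynomial growth is a polynomial
-/

set_option autoImplicit false

open Complex Polynomial Metric

namespace Pool.Agent.ECF

/-- an entire function whose derivatives of order `> N` vanish at `0` is a polynomial -/
theorem POLx.poly_of_deriv {f : ℂ → ℂ} (hf : Differentiable ℂ f) {N : ℕ}
    (h : ∀ k, N < k → iteratedDeriv k f 0 = 0) :
    ∃ Q : ℂ[X], Q.natDegree ≤ N ∧ ∀ z, f z = Q.eval z := by
  set a : ℕ → ℂ := fun n => (n.factorial : ℂ)⁻¹ * iteratedDeriv n f 0 with ha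
  refine ⟨∑ n ∈ Finset.range (N + 1), C (a n) * X ^ n, ?_, fun z => ?_⟩
  · refine natDegree_sum_le_of_forall_le _ _ fun n hn => ?_
    exact (natDegree_C_mul_X_pow_le _ _).trans (Nat.lt_succ_iff.1 (Finset.mem_range.1 hn))
  · rw [← Complex.taylorSeries_eq_of_entire' (c := 0) (z := z) hf, eval_finsetSum,
      tsum_eq_sum (s := Finset.range (N + 1))]
    · refine Finset.sum_congr rfl fun n _ => ?_
      simp [ha]
    · intro n hn
      have : N < n := by
        rw [Finset.mem_range, not_lt] at hn
        omega
      simp [h n this]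

theorem thm_POL : St_POL := fun _ _ _ hf h =>
  POLx.poly_of_deriv hf fun _ hk => Pool.Agent.Helper86.FB.iteratedDeriv_eq_zero_of_growth hf h hk

end Pool.Agent.ECF
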