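import Pool.Agent.ECF.StB

/-!
# ECF, module RA: bounded differences in the rational case (helper9)
-/

set_option autoImplicit false

open Complex Metric Set

namespace Pool.Agent.ECF

namespace RAx

theorem tpi_ne : tpi ≠ 0 := by
  unfold tpi
  have h : (Real.pi : ℂ) ≠ 0 := by exact_mod_cast Real.pi_ne_zero
  exact mul_ne_zero (mul_ne_zero two_ne_zero h) I_ne_zero

theorem tpi_re (k : ℤ) : (tpi * k).re = 0 := by
  unfold tpi
  simp

theorem exp_tpi (k : ℤ) : exp (tpi * k) = 1 := by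
  rw [Complex.exp_eq_one_iff]
  exact ⟨k, by unfold tpi; ring⟩

/-- the case `n ≠ 0` -/
theorem main (h1 : St_OMT) (h2 : St_SG) (d : ℕ) (L : ℝ) (q : ℂ → ℂ) (hd : 1 ≤ d)
    (hq : DifferentiableOn ℂ q (Hp L)) (hper : ∀ y ∈ Hp L, q (y + tpi * d) = q y)
    (hsep : ∀ y ∈ Hp L, ∀ y' ∈ Hp L, ∀ m n : ℤ, ¬ (m = 0 ∧ n = 0) →
      ¬ (exp y - exp y' = tpi * n ∧ q y - q y' = tpi * m)) (n k : ℤ) (hn : n ≠ 0) :
    ∃ C L' : ℝ, ∀ y : ℂ, L' ≤ y.re → ‖q y - q (sg (tpi * n) y + tpi * k)‖ ≤ C := by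
  obtain ⟨s1, s2, -, -, -⟩ := h2
  set l : ℂ := tpi * n with hl
  set L1 : ℝ := max (L + 1) (Ls l + 1) with hL1
  have hlt : ∀ y ∈ Hp L1, L + 1 < y.re ∧ Ls l < y.re := by
    intro y hy
    have hy' : L1 < y.re := hy
    exact ⟨lt_of_le_of_lt (le_max_left _ _) hy', by
      have := lt_of_le_of_lt (le_max_right (L + 1) (Ls l + 1)) hy'
      linarith⟩
  have hσ : ∀ y ∈ Hp L1, sg l y + tpi * k ∈ Hp L := by
    intro y hy
    obtain ⟨a, b⟩ := hlt y hy
    have h3 := (s1 l y b).2.2.1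
    have h4 : |(sg l y - y).re| ≤ 1 := (Complex.abs_re_le_norm _).trans h3
    rw [Complex.sub_re] at h4
    have h5 := (abs_le.1 h4).1
    change L < (sg l y + tpi * k).re
    rw [Complex.add_re, tpi_re]
    linarith
  have hyL : ∀ y ∈ Hp L1, y ∈ Hp L := by
    intro y hy
    have := (hlt y hy).1
    change L < y.re
    linarith
  have hexp : ∀ y ∈ Hp L1, exp y - exp (sg l y + tpi * k) = tpi * n := by
    intro y hy
    rw [Complex.exp_add, exp_tpi, mul_one, (s1 l y (hlt y hy).2).1]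
    ring
  have hdiff : DifferentiableOn ℂ (fun y => (q y - q (sg l y + tpi * k)) / tpi) (Hp L1) := by
    have hsg : DifferentiableOn ℂ (fun y => sg l y + tpi * k) (Hp L1) := by
      intro y hy
      exact ((s1 l y (hlt y hy).2).2.2.2.2.differentiableAt.add_const _).differentiableWithinAt
    exact ((hq.mono hyL).sub (hq.comp hsg hσ)).div_const tpi
  have hint : ∀ y ∈ Hp L1, ∀ m : ℤ, (fun y => (q y - q (sg l y + tpi * k)) / tpi) y ≠ m := by
    intro y hy m hm
    have h3 : q y - q (sg l y + tpi * k) = tpi * m := by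
      rw [← hm]
      field_simp [tpi_ne]
    exact hsep y (hyL y hy) _ (hσ y hy) m n (fun h => hn h.2) ⟨hexp y hy, h3⟩
  have hpr : ∀ y ∈ Hp L1, (fun y => (q y - q (sg l y + tpi * k)) / tpi) (y + tpi * d) =
      (fun y => (q y - q (sg l y + tpi * k)) / tpi) y + 0 := by
    intro y hy
    have h3 : sg l (y + tpi * d) = sg l y + tpi * d := by
      have := s2 l y d
      push_cast at this
      exact this
    have h4 : sg l y + tpi * d + tpi * k = (sg l y + tpi * k) + tpi * d := by ring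
    simp only
    rw [hper y (hyL y hy), h3, h4, hper _ (hσ y hy), add_zero]
  obtain ⟨c0, C, L', hC⟩ := h1 d L1 _ 0 hd hdiff hint hpr
  refine ⟨‖tpi‖ * (|C| + ‖c0‖), max L' 0, fun y hy => ?_⟩
  have h3 := hC y ((le_max_left _ _).trans hy)
  have h4 : (0 : ℝ) ≤ y.re := (le_max_right _ _).trans hy
  have h5 : Real.exp (-y.re / d) ≤ 1 := by
    rw [Real.exp_le_one_iff]
    have : (0 : ℝ) < d := by exact_mod_cast hd
    exact div_nonpos_of_nonpos_of_nonneg (by linarith) this.le
  have h6 : ‖(q y - q (sg l y + tpi * k)) / tpi - c0‖ ≤ |C| := by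
    rw [zero_div, zero_mul, sub_zero] at h3
    refine h3.trans ?_
    have h7 : C * Real.exp (-y.re / d) ≤ |C| * 1 :=
      mul_le_mul (le_abs_self C) h5 (Real.exp_pos _).le (abs_nonneg C)
    rwa [mul_one] at h7
  have h7 : ‖(q y - q (sg l y + tpi * k)) / tpi‖ ≤ |C| + ‖c0‖ := by
    have h8 := norm_add_le ((q y - q (sg l y + tpi * k)) / tpi - c0) c0
    rw [sub_add_cancel] at h8
    linarith
  have h8 : q y - q (sg l y + tpi * k) = tpi * ((q y - q (sg l y + tpi * k)) / tpi) := by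
    field_simp [tpi_ne]
  rw [h8, norm_mul]
  exact mul_le_mul_of_nonneg_left h7 (norm_nonneg _)

end RAx

open RAx

theorem thm_RA (h1 : St_OMT) (h2 : St_SG) : St_RA := by
  intro d L q hd hq hper hsep n k
  by_cases hn : n = 0
  · subst hn
    obtain ⟨C1, M1, hM1⟩ := main h1 h2 d L q hd hq hper hsep 1 0 one_ne_zero
    obtain ⟨C2, M2, hM2⟩ := main h1 h2 d L q hd hq hper hsep (-1) k (by norm_num)
    obtain ⟨s1, -, s3, s4, -⟩ := h2
    set l : ℂ := tpi * (1 : ℤ) with hl
    set l' : ℂ := tpi * (-1 : ℤ) with hl'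
    have hll : l + l' = 0 := by
      rw [hl, hl']
      push_cast
      ring
    refine ⟨C1 + C2, max (max M1 (M2 + 1)) (max (Ls l + 1) (Ls l + Ls l' + 3)), fun y hy => ?_⟩
    have a1 : M1 ≤ y.re := (le_max_left _ _).trans ((le_max_left _ _).trans hy)
    have a2 : M2 + 1 ≤ y.re := (le_max_right _ _).trans ((le_max_left _ _).trans hy)
    have a3 : Ls l < y.re := by
      have : Ls l + 1 ≤ y.re := (le_max_left _ _).trans ((le_max_right _ _).trans hy)
      linarith
    have a4 : Ls l + Ls l' + 2 < y.re := by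
      have : Ls l + Ls l' + 3 ≤ y.re := (le_max_right _ _).trans ((le_max_right _ _).trans hy)
      linarith
    have b1 := hM1 y a1
    have hre : M2 ≤ (sg l y).re := by
      have h3 := (s1 l y a3).2.2.1
      have h4 : |(sg l y - y).re| ≤ 1 := (Complex.abs_re_le_norm _).trans h3
      rw [Complex.sub_re] at h4
      have h5 := (abs_le.1 h4).1
      linarith
    have b2 := hM2 (sg l y) hre
    rw [s3 l l' y a4, hll, s4] at b2
    have e0 : tpi * ((0 : ℤ) : ℂ) = 0 := by
      push_cast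
      ring
    rw [e0, add_zero] at b1
    rw [e0, s4]
    have h5 : q y - q (y + tpi * k) = (q y - q (sg l y)) + (q (sg l y) - q (y + tpi * k)) := by
      ring
    rw [h5]
    exact (norm_add_le _ _).trans (add_le_add b1 b2)
  · exact main h1 h2 d L q hd hq hper hsep n k hn

end Pool.Agent.ECF
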