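import Pool.Agent.ECF.StB

/-!
# ECF, module RAT: the rational case on a curve
-/

set_option autoImplicit false

open Complex Polynomial Metric

namespace Pool.Agent.ECF

/-- **RAT** -/
theorem thm_RAT (h1 : St_BR) (h2 : St_RA) (h3 : St_KK) (h4 : St_SG) : St_RAT := by
  intro P p hdeg hp hsep
  obtain ⟨-, -, -, hsg0, -⟩ := h4
  obtain ⟨L, t, hbr⟩ := h1 P hdeg
  have hq : DifferentiableOn ℂ (fun y => p (t y)) (Hp L) := hp.comp_differentiableOn hbr.diff
  have hRA := h2 P.natDegree L (fun y => p (t y)) hdeg hq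
    (fun y hy => by
      show p (t (y + tpi * P.natDegree)) = p (t y)
      rw [hbr.per y hy])
    (fun y hy y' hy' m n hmn h => by
      refine hsep (t y) (t y') m n hmn ⟨?_, h.2⟩
      have e1 := hbr.eqn y hy
      have e2 := hbr.eqn y' hy'
      rw [e1, e2]
      exact h.1)
  obtain ⟨K, hK, ⟨Q, hQ, hpQ⟩, hR⟩ := h3 P L t p (fun y => p (t y)) hdeg hbr hp (fun y _ => rfl) 0
    (fun k _ => by
      obtain ⟨C, L', h5⟩ := hRA 0 k
      refine ⟨C, L', fun y hy => ?_⟩
      have h6 := h5 y hy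
      simp only [Int.cast_zero, mul_zero, hsg0, Int.cast_natCast] at h6
      simpa using h6)
  obtain ⟨R, hRd, hKR⟩ := hR tpi (by
    obtain ⟨C, L', h5⟩ := hRA 1 0
    refine ⟨C, L', fun y hy => ?_⟩
    have h6 := h5 y hy
    simp only [Int.cast_zero, mul_zero, add_zero, Int.cast_one, mul_one] at h6
    simpa using h6)
  have htpi : tpi ≠ 0 := by
    unfold tpi
    exact Complex.two_pi_I_ne_zero
  have hQ0 : Q.natDegree ≤ 0 := by simpa using hQ
  have hR1 : ∀ U, R.eval U = R.coeff 0 := fun U => by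
    conv_lhs => rw [Polynomial.eq_C_of_natDegree_le_zero hRd]
    rw [eval_C]
  have hQ1 : ∀ U, Q.eval U = Q.coeff 0 := fun U => by
    conv_lhs => rw [Polynomial.eq_C_of_natDegree_le_zero hQ0]
    rw [eval_C]
  simp only [hR1] at hKR
  simp only [hQ1] at hpQ
  refine ⟨R.coeff 0 / tpi, fun U => K U + Q.coeff 0 - R.coeff 0 / tpi * U, ?_, ?_, ?_⟩
  · exact (hK.add_const _).sub (differentiable_id.const_mul _)
  · intro U
    have h5 := hKR (U + tpi)
    rw [add_sub_cancel_right] at h5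
    show K (U + tpi) + Q.coeff 0 - R.coeff 0 / tpi * (U + tpi) =
      K U + Q.coeff 0 - R.coeff 0 / tpi * U
    rw [← h5]
    field_simp
    ring
  · intro s
    rw [hpQ s]
    ring

end Pool.Agent.ECF
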