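import Pool.Agent.ECF.StA

/-!
# ECF, SG: properties of the shifts
-/

set_option autoImplicit false

open Complex

namespace Pool.Agent.ECF

namespace SGx

lemma Ls_nonneg (l : ℂ) : 0 ≤ Ls l := by
  unfold Ls
  exact Real.log_nonneg (by linarith [norm_nonneg l])

lemma Ls_add (l1 l2 : ℂ) : Ls (l1 + l2) ≤ Ls l1 + Ls l2 := by
  unfold Ls
  have h1 := norm_nonneg l1
  have h2 := norm_nonneg l2
  have h3 := norm_add_le l1 l2
  have h4 := norm_nonneg (l1 + l2)
  rw [← Real.log_mul (by positivity) (by positivity)]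
  refine Real.log_le_log (by positivity) ?_
  nlinarith [mul_nonneg h1 h2]

lemma small {l y : ℂ} (h : Ls l < y.re) : ‖l‖ * Real.exp (-y.re) < 1 / 2 := by
  have h1 := norm_nonneg l
  have h2 : 2 * ‖l‖ + 2 < Real.exp y.re := by
    rw [← Real.log_lt_iff_lt_exp (by positivity)]
    exact h
  have h3 := Real.exp_pos y.re
  rw [Real.exp_neg, ← div_eq_mul_inv, div_lt_iff₀ h3]
  linarith

lemma norm_z (l y : ℂ) : ‖-(l * exp (-y))‖ = ‖l‖ * Real.exp (-y.re) := by
  rw [norm_neg, norm_mul, Complex.norm_exp, neg_re]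

lemma ne {l y : ℂ} (h : Ls l < y.re) : 1 - l * exp (-y) ≠ 0 := by
  intro h0
  have h1 : l * exp (-y) = 1 := (sub_eq_zero.1 h0).symm
  have h2 := norm_z l y
  rw [h1, norm_neg, norm_one] at h2
  linarith [small h]

lemma eqn {l y : ℂ} (h : Ls l < y.re) : exp (sg l y) = exp y - l := by
  unfold sg
  rw [Complex.exp_add, Complex.exp_log (ne h), mul_sub, mul_one, mul_left_comm, ← Complex.exp_add,
    add_neg_cancel, Complex.exp_zero, mul_one]

lemma bd {l y : ℂ} (h : Ls l < y.re) : ‖sg l y - y‖ ≤ 3 / 2 * (‖l‖ * Real.exp (-y.re)) := by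
  have h1 : sg l y - y = Complex.log (1 + -(l * exp (-y))) := by
    unfold sg
    rw [add_sub_cancel_left, sub_eq_add_neg]
  have h2 := Complex.norm_log_one_add_half_le_self (z := -(l * exp (-y)))
    (by rw [norm_z]; exact (small h).le)
  rw [h1]
  rw [norm_z] at h2
  exact h2

lemma uniq {l y z : ℂ} (h : Ls l < y.re) (hz : exp z = exp y - l) (hd : ‖z - y‖ ≤ 5) :
    sg l y = z := by
  rw [← eqn h, Complex.exp_eq_exp_iff_exists_int] at hz
  obtain ⟨n, hn⟩ := hz
  by_cases h0 : n = 0
  · rw [hn, h0]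
    simp
  · exfalso
    have h1 : z - sg l y = n * (2 * Real.pi * I) := by rw [hn]; ring
    have h2 : ‖z - sg l y‖ = |(n : ℝ)| * (2 * Real.pi) := by
      rw [h1, norm_mul, norm_mul, norm_mul, Complex.norm_I, mul_one, Complex.norm_real,
        Complex.norm_intCast, Real.norm_of_nonneg Real.pi_pos.le]
      norm_num
    have h3 : (1 : ℝ) ≤ |(n : ℝ)| := by
      rw [← Int.cast_abs]
      exact_mod_cast Int.one_le_abs h0
    have h4 : ‖z - sg l y‖ ≤ ‖z - y‖ + ‖sg l y - y‖ := by
      have : z - sg l y = (z - y) - (sg l y - y) := by ring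
      rw [this]
      exact norm_sub_le _ _
    have h5 := bd h
    have h6 := small h
    have h7 := Real.pi_gt_three
    nlinarith

end SGx

open SGx in
theorem thm_SG : St_SG := by
  refine ⟨fun l y h => ⟨eqn h, ?_, ?_, ?_, ?_⟩, ?_, ?_, ?_, fun l y z => uniq⟩
  · have h1 := bd h
    have h2 : 0 ≤ ‖l‖ * Real.exp (-y.re) := by positivity
    linarith
  · linarith [bd h, small h]
  · rw [← eqn h]
    exact Complex.exp_ne_zero _
  · have h1 : HasDerivAt (fun w : ℂ => 1 - l * exp (-w)) (l * exp (-y)) y := by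
      have h2 : HasDerivAt (fun w : ℂ => exp (-w)) (exp (-y) * (-1)) y :=
        (hasDerivAt_neg y).cexp
      have h3 := (h2.const_mul l).const_sub 1
      refine h3.congr_deriv ?_
      ring
    have h4 : 1 - l * exp (-y) ∈ slitPlane := by
      rw [mem_slitPlane_iff]
      left
      have h5 : |(l * exp (-y)).re| ≤ ‖l * exp (-y)‖ := Complex.abs_re_le_norm _
      have h6 := norm_z l y
      rw [norm_neg] at h6
      rw [h6] at h5
      have h7 := small h
      rw [sub_re, one_re]
      linarith [(abs_le.1 h5).2]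
    have h5 := (hasDerivAt_id y).add (h1.clog h4)
    refine h5.congr_deriv ?_
    have h6 := ne h
    have h7 : exp y - l ≠ 0 := by
      rw [← eqn h]
      exact Complex.exp_ne_zero _
    have h8 : exp y - l = exp y * (1 - l * exp (-y)) := by
      rw [mul_sub, mul_one, mul_left_comm, ← Complex.exp_add, add_neg_cancel, Complex.exp_zero,
        mul_one]
    rw [h8, mul_comm (exp y) (1 - _), div_mul_cancel_right₀ (Complex.exp_ne_zero y)]
    field_simp
    ring
  · intro l y k
    have h1 : exp (-(y + tpi * k)) = exp (-y) := by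
      have h2 : -(y + tpi * k) = -y + ((-k : ℤ) : ℂ) * (2 * Real.pi * I) := by
        unfold tpi
        push_cast
        ring
      rw [h2, Complex.exp_add, Complex.exp_int_mul_two_pi_mul_I, mul_one]
    unfold sg
    rw [h1]
    ring
  · intro l1 l2 y h
    have n1 := Ls_nonneg l1
    have n2 := Ls_nonneg l2
    have n3 := Ls_add l1 l2
    have h1 : Ls l1 < y.re := by linarith
    have h2 : ‖sg l1 y - y‖ ≤ 1 := by linarith [bd h1, small h1]
    have h3 : Ls l2 < (sg l1 y).re := by
      have h4 := (abs_le.1 (Complex.abs_re_le_norm (sg l1 y - y))).1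
      rw [sub_re] at h4
      linarith
    symm
    refine uniq (by linarith) ?_ ?_
    · rw [eqn h3, eqn h1]
      ring
    · have h5 : sg l2 (sg l1 y) - y = (sg l2 (sg l1 y) - sg l1 y) + (sg l1 y - y) := by ring
      rw [h5]
      have h6 := norm_add_le (sg l2 (sg l1 y) - sg l1 y) (sg l1 y - y)
      linarith [bd h3, small h3]
  · intro y
    unfold sg
    simp

end Pool.Agent.ECF
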