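import Pool.Agent.ECF.StB

/-!
# ECF, module WND: no winding between `exp e` and its shift
-/

set_option autoImplicit false

open Complex Polynomial Metric

namespace Pool.Agent.ECF

namespace WNDx

theorem isOpen_Hp (L : ℝ) : IsOpen (Hp L) := isOpen_lt continuous_const Complex.continuous_re

theorem preconn_Hp (L : ℝ) : IsPreconnected (Hp L) := (convex_halfSpace_re_gt L).isPreconnected

theorem tpi_ne : tpi ≠ 0 := by
  unfold tpi
  simp [Real.pi_ne_zero]

theorem tpi_mul_re (x : ℝ) : (tpi * (x : ℂ)).re = 0 := by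
  unfold tpi
  simp

theorem add_re (y : ℂ) (n : ℕ) : (y + tpi * (n : ℂ)).re = y.re := by
  have h := tpi_mul_re (n : ℝ)
  rw [Complex.ofReal_natCast] at h
  rw [Complex.add_re, h, add_zero]

/-- a holomorphic function with `exp f = 1` on a connected open set is constant -/
theorem const_of_exp {U : Set ℂ} (hU : IsOpen U) (hc : IsPreconnected U) {f : ℂ → ℂ}
    (hf : DifferentiableOn ℂ f U) (h : ∀ y ∈ U, exp (f y) = 1) :
    ∀ x ∈ U, ∀ y ∈ U, f x = f y := by
  intro x hx y hy
  refine hU.is_const_of_deriv_eq_zero hc hf ?_ hx hy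
  intro z hz
  have hn : U ∈ nhds z := hU.mem_nhds hz
  have h1 : HasDerivAt (fun w => exp (f w)) (exp (f z) * deriv f z) z :=
    ((hf.differentiableAt hn).hasDerivAt).cexp
  have h2 : HasDerivAt (fun w => exp (f w)) 0 z := by
    refine (hasDerivAt_const z (1 : ℂ)).congr_of_eventuallyEq ?_
    filter_upwards [hn] with w hw using h w hw
  have h3 := h1.unique h2
  rw [h z hz, one_mul] at h3
  exact h3

end WNDx

open WNDx

theorem thm_WND (h1 : St_SG) : St_WND := by
  intro d L e l hd he hexp hcmp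
  obtain ⟨hsg, hsgp, -, -, -⟩ := h1
  obtain ⟨κ, c, C, L1, h, hh, hhy⟩ := hcmp
  set L2 : ℝ := max (max L L1) (Ls l) + 2 with hL2
  have hL2a : L + 2 ≤ L2 := by
    have := (le_max_left L L1).trans (le_max_left (max L L1) (Ls l))
    linarith
  have hL2b : L1 + 2 ≤ L2 := by
    have := (le_max_right L L1).trans (le_max_left (max L L1) (Ls l))
    linarith
  have hL2c : Ls l + 2 ≤ L2 := by
    have := le_max_right (max L L1) (Ls l)
    linarith
  have hmem : ∀ y ∈ Hp L2, y ∈ Hp L ∧ y ∈ Hp L1 ∧ Ls l < y.re ∧ sg l y ∈ Hp L := by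
    intro y hy
    have hy' : L2 < y.re := hy
    have h3 : Ls l < y.re := by linarith
    have h4 := (hsg l y h3).2.2.1
    refine ⟨?_, ?_, h3, ?_⟩
    · show L < y.re
      linarith
    · show L1 < y.re
      linarith
    · show L < (sg l y).re
      have h5 := (Complex.abs_re_le_norm (sg l y - y)).trans h4
      rw [Complex.sub_re, abs_le] at h5
      linarith [h5.1]
  -- the winding of `e`
  have hadd : ∀ (L0 : ℝ), ∀ y ∈ Hp L0, y + tpi * (d : ℂ) ∈ Hp L0 := by
    intro L0 y hy
    show L0 < (y + tpi * (d : ℂ)).re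
    rw [WNDx.add_re]
    exact hy
  have hw : ∀ x ∈ Hp L, ∀ y ∈ Hp L, e (x + tpi * d) - e x = e (y + tpi * d) - e y := by
    refine const_of_exp (f := fun y => e (y + tpi * d) - e y) (isOpen_Hp L) (preconn_Hp L) ?_ ?_
    · refine DifferentiableOn.sub ?_ he
      exact he.comp ((differentiable_id.add_const (tpi * (d : ℂ))).differentiableOn)
        (fun y hy => hadd L y hy)
    · intro y hy
      rw [Complex.exp_sub, hexp y hy, div_self (Complex.exp_ne_zero _)]
  set r : ℂ → ℂ := fun y => e (sg l y) - e y with hr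
  have hrd : DifferentiableOn ℂ r (Hp L2) := by
    intro y hy
    obtain ⟨hy1, hy2, hy3, hy4⟩ := hmem y hy
    have h5 : DifferentiableAt ℂ (sg l) y := (hsg l y hy3).2.2.2.2.differentiableAt
    have h6 : DifferentiableAt ℂ e (sg l y) := he.differentiableAt ((isOpen_Hp L).mem_nhds hy4)
    have h7 : DifferentiableAt ℂ e y := he.differentiableAt ((isOpen_Hp L).mem_nhds hy1)
    exact ((h6.comp y h5).sub h7).differentiableWithinAt
  have hrp : ∀ y ∈ Hp L2, r (y + tpi * d) = r y := by
    intro y hy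
    obtain ⟨hy1, hy2, hy3, hy4⟩ := hmem y hy
    have h5 := hsgp l y (d : ℤ)
    rw [Int.cast_natCast] at h5
    have h6 := hw _ hy4 _ hy1
    show e (sg l (y + tpi * d)) - e (y + tpi * d) = e (sg l y) - e y
    rw [h5]
    linear_combination h6
  have hhL2 : DifferentiableOn ℂ h (Hp L2) := hh.mono fun y hy => (hmem y hy).2.1
  have hconst : ∀ x ∈ Hp L2, ∀ y ∈ Hp L2, h x - r x = h y - r y := by
    refine const_of_exp (f := fun y => h y - r y) (isOpen_Hp L2) (preconn_Hp L2)
      (hhL2.sub hrd) ?_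
    intro y hy
    obtain ⟨hy1, hy2, hy3, hy4⟩ := hmem y hy
    have h5 := (hhy y hy2).1
    have h6 : exp (e (sg l y)) = exp (h y) * exp (e y) := h5
    show exp (h y - (e (sg l y) - e y)) = 1
    rw [Complex.exp_sub, Complex.exp_sub, h6, mul_div_assoc, div_self (Complex.exp_ne_zero _),
      mul_one, div_self (Complex.exp_ne_zero _)]
  -- a base point
  set y0 : ℂ := ((L2 + 1 : ℝ) : ℂ) with hy0
  have hy0m : y0 ∈ Hp L2 := by
    show L2 < y0.re
    rw [hy0, Complex.ofReal_re]
    linarith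
  have hNm : ∀ N : ℕ, y0 + tpi * ((d * N : ℕ) : ℂ) ∈ Hp L2 := by
    intro N
    show L2 < (y0 + tpi * ((d * N : ℕ) : ℂ)).re
    rw [WNDx.add_re]
    exact hy0m
  have hrN : ∀ N : ℕ, r (y0 + tpi * ((d * N : ℕ) : ℂ)) = r y0 := by
    intro N
    induction N with
    | zero => simp
    | succ N ih =>
      have h5 : y0 + tpi * ((d * (N + 1) : ℕ) : ℂ) = y0 + tpi * ((d * N : ℕ) : ℂ) + tpi * d := by
        push_cast
        ring
      rw [h5, hrp _ (hNm N), ih]
  have hκ : κ = 0 := by
    by_contra hκ0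
    set E : ℝ := C * Real.exp (-y0.re / d) with hE
    have hb : ∀ N : ℕ, ‖(κ : ℂ) * tpi‖ * N ≤ 2 * E := by
      intro N
      have h5 := (hhy _ (hmem _ (hNm N)).2.1).2
      have h6 := (hhy _ (hmem _ hy0m).2.1).2
      rw [WNDx.add_re] at h5
      have h7 := hconst _ (hNm N) _ hy0m
      rw [hrN N] at h7
      have h8 : h (y0 + tpi * ((d * N : ℕ) : ℂ)) = h y0 := by linear_combination h7
      rw [h8] at h5
      have hd0 : (d : ℂ) ≠ 0 := Nat.cast_ne_zero.2 (by omega)
      have h9 : (κ : ℂ) * tpi * N = (h y0 - κ * y0 / d - c) -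
          (h y0 - κ * (y0 + tpi * ((d * N : ℕ) : ℂ)) / d - c) := by
        push_cast
        field_simp
        ring
      have h10 : ‖(κ : ℂ) * tpi * N‖ ≤ E + E := by
        rw [h9]
        exact (norm_sub_le _ _).trans (add_le_add h6 h5)
      rw [norm_mul, Complex.norm_natCast] at h10
      linarith
    have hpos : 0 < ‖(κ : ℂ) * tpi‖ :=
      norm_pos_iff.2 (mul_ne_zero (Int.cast_ne_zero.2 hκ0) tpi_ne)
    obtain ⟨N, hN⟩ := exists_nat_gt (2 * E / ‖(κ : ℂ) * tpi‖)
    have h5 := hb N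
    rw [div_lt_iff₀ hpos] at hN
    linarith
  refine ⟨c - (h y0 - r y0), C, L2 + 1, ?_⟩
  intro y hy
  have hym : y ∈ Hp L2 := by
    show L2 < y.re
    linarith
  have h5 := (hhy y (hmem y hym).2.1).2
  rw [hκ, Int.cast_zero, zero_mul, zero_div, sub_zero] at h5
  have h6 := hconst y hym y0 hy0m
  have h7 : e (sg l y) - e y - (c - (h y0 - r y0)) = h y - c := by
    have h8 : r y = e (sg l y) - e y := rfl
    rw [← h8]
    linear_combination -h6
  rw [h7]
  exact h5

end Pool.Agent.ECF
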