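import Pool.Agent.ECF.LOG
import Pool.Agent.ECF.POL
import Pool.Agent.ECF.INV
import Pool.Agent.ECF.BR
import Pool.Agent.ECF.SG
import Pool.Agent.ECF.BLO
import Pool.Agent.ECF.LAN
import Pool.Agent.ECF.GRO
import Pool.Agent.ECF.PER
import Pool.Agent.ECF.OMT
import Pool.Agent.ECF.LAU
import Pool.Agent.ECF.DPER
import Pool.Agent.ECF.POK
import Pool.Agent.ECF.KK
import Pool.Agent.ECF.RA
import Pool.Agent.ECF.RAT
import Pool.Agent.ECF.FR
import Pool.Agent.ECF.FM
import Pool.Agent.ECF.TRI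
import Pool.Agent.ECF.FZ
import Pool.Agent.ECF.CMT
import Pool.Agent.ECF.CMS
import Pool.Agent.ECF.WND
import Pool.Agent.ECF.EWD
import Pool.Agent.ECF.DB1
import Pool.Agent.ECF.DB2
import Pool.Agent.ECF.DB3
import Pool.Agent.ECF.EXN
import Pool.Agent.ECF.CCA
import Pool.Agent.ECF.CCB
import Pool.Agent.ECF.EGR
import Pool.Agent.ECF.IRR
import Pool.Agent.ECF.FIN

/-!
# ECF: assembly
-/

set_option autoImplicit false

open Complex Polynomial

namespace Pool.Agent.ECF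

theorem full : St_FIN := by
  have hLAN := thm_LAN thm_BLO thm_LOG
  have hGRO := thm_GRO hLAN
  have hOMT := thm_OMT hGRO thm_PER
  have hBR := thm_BR thm_INV
  have hKK := thm_KK thm_SG thm_POL thm_LAU
  have hRA := thm_RA hOMT thm_SG
  have hRAT := thm_RAT hBR hRA hKK thm_SG
  have hFR := thm_FR hRAT
  have hFM := thm_FM hFR
  have hTRI := thm_TRI hOMT thm_LOG
  have hFZ := thm_FZ thm_SG
  have hCMS := thm_CMS hTRI hFZ thm_CMT thm_SG
  have hWND := thm_WND thm_SG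
  have hEWD := thm_EWD hCMS thm_CMT hFZ hWND thm_LOG thm_SG
  have hDB1 := thm_DB1 thm_SG
  have hDB2 := thm_DB2 thm_DPER
  have hDB3 := thm_DB3 hDB2 thm_SG
  have hEXN := thm_EXN thm_PER
  have hCCB := thm_CCB thm_SG
  have hEGR := thm_EGR hEWD hDB1 hDB3 hEXN thm_CCA hCCB hCMS hFZ thm_SG
  have hPOK := thm_POK thm_DPER
  have hIRR := thm_IRR hBR hEGR hKK hPOK thm_SG
  exact thm_FIN hIRR hFM

end Pool.Agent.ECF
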