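import Mathlib

/-!
# ECF: entire curves in Fatou-Bieberbach domains of `C* x C*` (MP_090e3f_an), definitions
-/

set_option autoImplicit false

open Complex

namespace Pool.Agent.ECF

/-- right half-plane `Re y > L` -/
def Hp (L : ℝ) : Set ℂ := {y : ℂ | L < y.re}

/-- `2 π i` -/
noncomputable def tpi : ℂ := 2 * Real.pi * I

/-- the shift: `exp (sg l y) = exp y - l` for large `Re y` -/
noncomputable def sg (l y : ℂ) : ℂ := y + Complex.log (1 - l * exp (-y))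

/-- abscissa from which on `sg l` behaves: `‖l * exp (-y)‖ ≤ 1/2` for `Re y ≥ Ls l` -/
noncomputable def Ls (l : ℂ) : ℝ := Real.log (2 * ‖l‖ + 2)

/-- `t` is the inverse of `P` near infinity in the coordinate `y`, `P (t y) = exp y` -/
structure Br (P : ℂ → ℂ) (d : ℕ) (L : ℝ) (t : ℂ → ℂ) : Prop where
  diff : DifferentiableOn ℂ t (Hp L)
  eqn : ∀ y ∈ Hp L, P (t y) = exp y
  per : ∀ y ∈ Hp L, t (y + tpi * d) = t y
  cov : ∀ L' : ℝ, L ≤ L' → ∃ T : ℝ, ∀ s : ℂ, T < ‖s‖ → ∃ y ∈ Hp L', t y = s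

/-- the lattice value `2 π i (α m + n)` -/
noncomputable def lam (α : ℂ) (m n : ℤ) : ℂ := tpi * (α * m + n)

/-- `α` is not rational -/
def Irr (α : ℂ) : Prop := ∀ m n : ℤ, α * m + n = 0 → m = 0 ∧ n = 0

/-- the difference function of `q` along the shift by `lam α m n` on the sheet `k` -/
noncomputable def fz (q : ℂ → ℂ) (α : ℂ) (m n k : ℤ) (y : ℂ) : ℂ :=
  q y - q (sg (lam α m n) y + tpi * k) - tpi * m

/-- the data of the irrational case: `q` holomorphic on `Re y > L`, periodic with period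
`2 π i d`, and no two points `y, y'` differ by a nonzero lattice value -/
structure Dat (α : ℂ) (d : ℕ) (L : ℝ) (q : ℂ → ℂ) : Prop where
  irr : Irr α
  pos : 1 ≤ d
  diff : DifferentiableOn ℂ q (Hp L)
  per : ∀ y ∈ Hp L, q (y + tpi * d) = q y
  sep : ∀ y ∈ Hp L, ∀ y' ∈ Hp L, ∀ m n : ℤ, ¬ (m = 0 ∧ n = 0) →
    ¬ (exp y - exp y' = lam α m n ∧ q y - q y' = tpi * m)

/-- `f` and `g` agree up to a factor `exp (κ y / d + c + O(exp (-y / d)))` -/
def Cmp (d : ℕ) (f g : ℂ → ℂ) : Prop :=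
  ∃ (κ : ℤ) (c : ℂ) (C L : ℝ) (h : ℂ → ℂ), DifferentiableOn ℂ h (Hp L) ∧ ∀ y ∈ Hp L,
    f y = exp (h y) * g y ∧ ‖h y - κ * y / d - c‖ ≤ C * Real.exp (-y.re / d)

end Pool.Agent.ECF
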