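import Pool.Agent.ECF.StA

/-!
# ECF, module LOG: holomorphic logarithms on convex open sets
-/

set_option autoImplicit false

open Complex Polynomial Metric

namespace Pool.Agent.ECF

theorem thm_LOG : St_LOG := by
  intro U f hU hc hf h0
  rcases U.eq_empty_or_nonempty with he | ⟨z0, hz0⟩
  · subst he
    exact ⟨fun _ => 0, differentiableOn_const _, fun z hz => absurd hz (Set.notMem_empty z)⟩
  have hfd : DifferentiableOn ℂ (fun z => deriv f z / f z) U :=
    (hf.deriv hU).div hf h0
  obtain ⟨g, hg⟩ := hc.exists_forall_hasDerivWithinAt hfd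
  have hg' : ∀ z ∈ U, HasDerivAt g (deriv f z / f z) z := fun z hz =>
    (hg z hz).hasDerivAt (hU.mem_nhds hz)
  set F : ℂ → ℂ := fun z => f z * exp (-g z) with hF
  have hF' : ∀ z ∈ U, HasDerivAt F 0 z := by
    intro z hz
    have h1 : HasDerivAt f (deriv f z) z := (hf.differentiableAt (hU.mem_nhds hz)).hasDerivAt
    have h2 := h1.mul (((hg' z hz).neg).cexp)
    have h3 : deriv f z * exp (-g z) + f z * (exp (-g z) * -(deriv f z / f z)) = 0 := by
      have := h0 z hz
      field_simp
      ring
    exact h2.congr_deriv h3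
  have hconst : ∀ z ∈ U, F z = F z0 := by
    intro z hz
    have := hc.norm_image_sub_le_of_norm_hasDerivWithin_le (f := F) (f' := fun _ => 0) (C := 0)
      (fun w hw => (hF' w hw).hasDerivWithinAt) (fun w hw => by simp) hz0 hz
    have h3 : ‖F z - F z0‖ ≤ 0 := by simpa using this
    exact sub_eq_zero.1 (norm_le_zero_iff.1 h3)
  have hF0 : F z0 ≠ 0 := mul_ne_zero (h0 z0 hz0) (exp_ne_zero _)
  refine ⟨fun z => g z + Complex.log (F z0), ?_, ?_⟩
  · intro z hz
    exact ((hg' z hz).differentiableAt.add_const _).differentiableWithinAt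
  · intro z hz
    show exp (g z + Complex.log (F z0)) = f z
    rw [exp_add, exp_log hF0, ← hconst z hz]
    show exp (g z) * (f z * exp (-g z)) = f z
    rw [exp_neg]
    have := exp_ne_zero (g z)
    field_simp

end Pool.Agent.ECF
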