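import Pool.Agent.ECF.Defs

/-!
# ECF, statements A: general tools

In the proofs `|·|` is the norm, `D(c,r)` the open disc, `Hp L = {Re y > L}`. Every
statement is proved in its docstring; later statements may use earlier ones as hypotheses.
-/

set_option autoImplicit false

open Complex Polynomial Metric

namespace Pool.Agent.ECF

/-- **LOG** (holomorphic logarithms on convex open sets).
Proof. `f'/f` is holomorphic on `U`, so by `Convex.exists_forall_hasDerivWithinAt` (Mathlib) there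
is `g` with `g' = f'/f` on `U` (`U` open, so `HasDerivWithinAt` is `HasDerivAt`). Then
`(f exp(-g))' = 0` on the convex set `U`, so `f = c exp g` with a constant `c ≠ 0` (if `U` is empty
nothing is to be shown); add `log c` to `g`. -/
def St_LOG : Prop :=
  ∀ (U : Set ℂ) (f : ℂ → ℂ), IsOpen U → Convex ℝ U → DifferentiableOn ℂ f U →
    (∀ z ∈ U, f z ≠ 0) → ∃ g : ℂ → ℂ, DifferentiableOn ℂ g U ∧ ∀ z ∈ U, exp (g z) = f z

/-- **POL** (an entire function whose real part grows polynomially is a polynomial).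
Proof. `Pool.Agent.Helper86.FB.iteratedDeriv_eq_zero_of_growth` (file
`Pool/Agent/Helper86/FBPoly.lean`, import it) gives `iteratedDeriv k f 0 = 0` for `k > N`; the
Taylor series of an entire function at `0` (`Complex.hasSum_taylorSeries_of_entire` or
`Complex.taylorSeries_eq_of_entire`) then is a finite sum. -/
def St_POL : Prop :=
  ∀ (f : ℂ → ℂ) (K : ℝ) (N : ℕ), Differentiable ℂ f → (∀ z, (f z).re ≤ K * (1 + ‖z‖ ^ N)) →
    ∃ Q : ℂ[X], Q.natDegree ≤ N ∧ ∀ z, f z = Q.eval z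

/-- **INV** (a small perturbation of the identity on a half-plane is invertible).
Proof. `η` is `1/2`-Lipschitz on the convex set `Hp L`, so for `x ≠ x'`
`|x + η x - x' - η x'| ≥ |x - x'|/2 > 0`. For `Re y > L + 1` the closed disc `B` of radius `1/2`
about `y` lies in `Hp L` and `x ↦ y - η x` maps `B` to itself and is a `1/2`-contraction; its fixed
point is `g y`. The first estimate gives `|g y - g y'| ≤ 2 |y - y'|`, so `g` is continuous, and `g`
is differentiable with derivative `1/(1 + η'(g y))`, `|η'| ≤ 1/2`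
(`HasDerivAt.of_local_left_inverse` or `HasStrictDerivAt` inverse function theorem). -/
def St_INV : Prop :=
  ∀ (η : ℂ → ℂ) (L : ℝ), DifferentiableOn ℂ η (Hp L) → (∀ x ∈ Hp L, ‖η x‖ ≤ 1 / 2) →
    (∀ x ∈ Hp L, ‖deriv η x‖ ≤ 1 / 2) →
    Set.InjOn (fun x => x + η x) (Hp L) ∧
      ∃ g : ℂ → ℂ, DifferentiableOn ℂ g (Hp (L + 1)) ∧
        ∀ y ∈ Hp (L + 1), g y ∈ Hp L ∧ g y + η (g y) = y

/-- **BR** (the inverse branch of a polynomial at infinity). Use `St_INV`.
Proof. Let `c` be the leading coefficient, `d = natDegree`, `ε(s) = P(s)/(c s^d) - 1`, which tends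
to `0` as `|s| → ∞` and is holomorphic for `s ≠ 0`. Choose `L0` with `|ε(s)| ≤ 1/4` for
`|s| > exp L0` and put `η(x) = (1/d) log(1 + ε(exp x))` on `Hp L0`: holomorphic,
`|η| ≤ (3/2)(1/4) ≤ 1/2` (`Complex.norm_log_one_add_half_le_self`), `η(x + 2πi) = η(x)`, and by
Cauchy's estimate on discs of radius `1` also `|η'| ≤ 1/2` on `Hp (L0+1)`. Take `g` from INV on
`Hp (L0+1)`, so `g : Hp (L0+2) → Hp (L0+1)`, `g z + η(g z) = z`; as `x ↦ x + η x` is injective and
`η` has period `2πi`, `g(z + 2πi) = g(z) + 2πi`. Put `t(y) = exp(g((y - log c)/d))`, defined for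
`Re y > L := d (L0+2) + Re log c` (or larger). With `x = g((y - log c)/d)`:
`P(t y) = c exp(d x)(1 + ε(exp x)) = exp(log c + d x + d η x) = exp y`, and
`t(y + 2πi d) = t(y)`. Covering: given `L'` and `s` with `|s|` large, `x = log s` has
`Re x = log |s| > L0 + 1`; `y := d (x + η x) + log c` has `Re y ≥ d (log|s| - 1/2) + Re log c > L'`,
`(y - log c)/d = x + η x`, so `g` of it is `x` by injectivity and `t y = exp x = s`. -/
def St_BR : Prop :=
  ∀ P : ℂ[X], 1 ≤ P.natDegree → ∃ (L : ℝ) (t : ℂ → ℂ), Br (fun s => P.eval s) P.natDegree L t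

/-- **SG** (properties of the shifts).
Proof. For `Re y > Ls l = log(2|l|+2)`: `|l exp(-y)| ≤ |l|/(2|l|+2) < 1/2`, so
`exp(sg l y) = exp y (1 - l exp(-y)) = exp y - l ≠ 0`, and `|log(1+z)| ≤ (3/2)|z|` for `|z| ≤ 1/2`
(`Complex.norm_log_one_add_half_le_self`) gives (b), (c). (d): chain rule, `1 - l exp(-y)` is in the
slit plane. (e): `exp(-(y + 2πi k)) = exp(-y)`. (g): `exp z = exp (sg l y)` gives
`z = sg l y + 2πi n`, and `|z - sg l y| ≤ 5 + 3/4 < 2π` forces `n = 0` (use (b) with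
`|l| exp(-Re y) ≤ 1/2`, better: the bound `(3/2)(1/2)`). (f): `Ls (l1 + l2) ≤ Ls l1 + Ls l2`, all
`Ls ≥ 0`; `exp(sg l2 (sg l1 y)) = exp y - l1 - l2` and `|sg l2 (sg l1 y) - y| ≤ 2`, so (g)
applies. -/
def St_SG : Prop :=
  (∀ l y : ℂ, Ls l < y.re →
    exp (sg l y) = exp y - l ∧ ‖sg l y - y‖ ≤ 2 * ‖l‖ * Real.exp (-y.re) ∧ ‖sg l y - y‖ ≤ 1 ∧
      exp y - l ≠ 0 ∧ HasDerivAt (sg l) (exp y / (exp y - l)) y) ∧
  (∀ (l y : ℂ) (k : ℤ), sg l (y + tpi * k) = sg l y + tpi * k) ∧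
  (∀ l1 l2 y : ℂ, Ls l1 + Ls l2 + 2 < y.re → sg l2 (sg l1 y) = sg (l1 + l2) y) ∧
  (∀ y : ℂ, sg 0 y = y) ∧
  (∀ l y z : ℂ, Ls l < y.re → exp z = exp y - l → ‖z - y‖ ≤ 5 → sg l y = z)

/-- **BLO** (Bloch's theorem, weak constant).
Proof. Copy and adapt `Pool/Agent/Helper86/BlochLarge.lean` (`exists_ball_values`): there `f` is
entire and the proof works on the closed disc of radius `R` about `z0` only, and gives a disc of
radius `R |f'(z0)| / 48` in the image of `D(z0,R)`. Here apply it with the radius `R/2`; the closed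
disc of radius `R/2` lies in `D(z0,R)`. If `f'(z0) = 0` the ball is empty. -/
def St_BLO : Prop :=
  ∀ (f : ℂ → ℂ) (z0 : ℂ) (R : ℝ), 0 < R → DifferentiableOn ℂ f (ball z0 R) →
    ∃ c : ℂ, ball c (R * ‖deriv f z0‖ / 100) ⊆ f '' (ball z0 R)

/-- **LAN** (Landau's theorem for functions omitting the integers). Use `St_BLO`, `St_LOG`.
Proof. On the disc `B = D(y0,ρ)` the functions `u`, `u - 1` are zero-free, so by LOG there are
holomorphic `s, r` with `s^2 = u`, `r^2 = u - 1`; `(s - r)(s + r) = 1`, so `g = s - r` is zero-free,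
`1/g = s + r`; let `h` be a holomorphic logarithm of `g`. Then `cosh h = (g + 1/g)/2 = s`,
`sinh h = (g - 1/g)/2 = -r`, `u = cosh^2 h`. For an integer `N ≥ 1` let
`w_N = log(√N + √(N-1)) ≥ 0` (real); `cosh w_N = √N` and `cosh(±w_N + iπk) = ± √N`, so `h` omits
all the points `±w_N + iπk`, `N ≥ 1`, `k ∈ ℤ` (there `u` would be the integer `N`).
Every `z` has such a point within distance `< 2`: choose `k` with `|Im z - πk| ≤ π/2`; `w_1 = 0`,
`w_N → ∞` and `w_{N+1} - w_N ≤ 1` because `√(N+1) + √N ≤ (1 + √2) √N ≤ e (√N + √(N-1))`; so some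
`w_N` is within `1` of `|Re z|`; the distance is at most `√(1 + π²/4) < 2`.
By BLO the image `h(B)` contains a disc of radius `ρ |h'(y0)|/100`; it contains no omitted point, so
`ρ |h'(y0)| ≤ 200`. Finally `u' = 2 cosh h sinh h h'`,
`|u'(y0)| ≤ 2 |s| |r| |h'| ≤ (|s|²+|r|²)|h'| = (|u|+|u-1|) |h'| ≤ (2|u|+1)|h'|`.
So `C = 400` works. -/
def St_LAN : Prop :=
  ∃ C : ℝ, 0 < C ∧ ∀ (u : ℂ → ℂ) (y0 : ℂ) (ρ : ℝ), 0 < ρ → DifferentiableOn ℂ u (ball y0 ρ) →
    (∀ z ∈ ball y0 ρ, ∀ n : ℤ, u z ≠ n) → ρ * ‖deriv u y0‖ ≤ C * (1 + ‖u y0‖)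

/-- **GRO** (polynomial growth of functions on a half-plane omitting the integers). Use `St_LAN`.
Proof. Fix `v` and put `φ(s) = u(L + exp s + i v)` for real `s ≥ 0`. At `y = L + exp s + i v` the
disc `D(y, exp s)` lies in `Hp L`, so LAN gives `exp s |u'(y)| ≤ C (1 + |u y|)`, that is
`|φ'(s)| ≤ C |φ(s)| + C`. Gronwall (`norm_le_gronwallBound_of_norm_deriv_right_le`):
`|φ(s)| ≤ |φ(0)| exp(C s) + (exp(C s) - 1) ≤ (1 + |φ 0|) exp(C s)`. With `s = log(x - L)` this is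
`(1 + |φ 0|)(x - L)^C ≤ (1 + |φ 0|)(x - L)^N`, `N = ⌈C⌉`, as `x - L ≥ 1`. -/
def St_GRO : Prop :=
  ∃ N : ℕ, ∀ (L : ℝ) (u : ℂ → ℂ), DifferentiableOn ℂ u (Hp L) →
    (∀ y ∈ Hp L, ∀ n : ℤ, u y ≠ n) → ∀ x v : ℝ, L + 1 ≤ x →
      ‖u ((x : ℂ) + v * I)‖ ≤ (1 + ‖u (((L + 1 : ℝ) : ℂ) + v * I)‖) * (x - L) ^ N

/-- **PER** (periodic functions on a half-plane of moderate growth).
Proof. Base case (`n = 0`, any `θ < 1`; conclusion with a constant polynomial): put `r0 = exp(-L/d)`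
and, for `0 < |w| < r0`, `G(w) = l(-d log w)`. By periodicity `G(exp(-y/d)) = l(y)` for `y ∈ Hp L`
and `G` is holomorphic on the punctured disc (near a negative `w0` write
`G(w) = l(-d (log(-w) + π i))`). As `|w G(w)| ≤ C |w|^(1-θ) → 0`, `0` is a removable singularity
(`Complex.differentiableOn_update_limUnder_of_isLittleO`); the extension `Ĝ` is holomorphic on
`D(0,r0)`, so `|Ĝ(w) - Ĝ(0)| ≤ C' |w|` for `|w| ≤ r0 exp(-1/d)` (compact smaller disc: `Ĝ` is
Lipschitz there). Put `w = exp(-y/d)`. (One may instead use `Function.Periodic.cuspFunction`.)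
Induction `n → n+1`: `g(y) = l(y) exp(-(n+1) y/d)` satisfies the base case, so
`|l(y) - c exp((n+1)y/d)| ≤ C' exp(n Re y/d)` for `Re y ≥ L + 1`; for `L < Re y ≤ L+1` the same holds
with a larger constant because there both terms are bounded (`Re y` is in a bounded interval).
Apply the induction hypothesis with `θ = 0` to `l - c exp((n+1)y/d)` and add `c X^(n+1)`. -/
def St_PER : Prop :=
  ∀ (d n : ℕ) (L C θ : ℝ) (l : ℂ → ℂ), 1 ≤ d → 0 ≤ θ → θ < 1 → DifferentiableOn ℂ l (Hp L) →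
    (∀ y ∈ Hp L, l (y + tpi * d) = l y) →
    (∀ y ∈ Hp L, ‖l y‖ ≤ C * Real.exp ((n + θ) * y.re / d)) →
    ∃ (B : ℂ[X]) (C' : ℝ), B.natDegree ≤ n ∧
      ∀ y : ℂ, L + 1 ≤ y.re → ‖l y - B.eval (exp (y / d))‖ ≤ C' * Real.exp (-y.re / d)

/-- **OMT** (asymptotics of functions omitting the integers). Use `St_GRO`, `St_PER`.
Proof. `ℓ(y) = u(y) - (c/(2πi d)) y` has period `2πi d` on `Hp L`. Let `M` be the maximum of `|u|` on
the compact segment `Re y = L+1, 0 ≤ Im y ≤ 2πd`. By GRO, for `Re y ≥ L+1`, `0 ≤ Im y ≤ 2πd`: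
`|ℓ(y)| ≤ (1+M)(Re y - L)^N + |c/(2πd)|(|Re y| + 2πd)`, and by periodicity this bound holds for all
`y` with `Re y ≥ L+1`. It is at most `C exp(Re y/(2d))` on `Hp (L+1)`. PER with `n = 0`,
`θ = 1/2` gives a constant polynomial. -/
def St_OMT : Prop :=
  ∀ (d : ℕ) (L : ℝ) (u : ℂ → ℂ) (c : ℂ), 1 ≤ d → DifferentiableOn ℂ u (Hp L) →
    (∀ y ∈ Hp L, ∀ n : ℤ, u y ≠ n) → (∀ y ∈ Hp L, u (y + tpi * d) = u y + c) →
    ∃ (c0 : ℂ) (C L' : ℝ), ∀ y : ℂ, L' ≤ y.re →
      ‖u y - c / (tpi * d) * y - c0‖ ≤ C * Real.exp (-y.re / d)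

/-- **LAU** (the entire part of the Laurent decomposition at infinity).
Proof. Let `L0 > max(L,0)`, `M(U) = m(log U)` for `|U| > exp L`: holomorphic (near a negative `U`
use `m(log(-U) + π i)`, the same by periodicity), `M(exp y) = m(y)` for `y ∈ Hp L`. Let
`r = exp L0 + 1`. For `R > r` put `K_R(U) = (2πi)^(-1) ∮_{|z|=R} M(z)/(z-U) dz`, holomorphic in
`|U| < R`. Claim: for `r < |U| < R`: `M(U) = K_R(U) - (2πi)^(-1) ∮_{|z|=r} M(z)/(z-U) dz`. Indeed
`z (M(z) - M(U))/(z - U)` (`z * dslope M U z`) is holomorphic on the closed annulus, so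
`Complex.circleIntegral_sub_center_inv_smul_eq_of_differentiable_on_annulus_off_countable` (centre
`0`) gives equality of the two circle integrals of `(M(z)-M(U))/(z-U)`, and
`∮_{|z|=R} dz/(z-U) = 2πi`, `∮_{|z|=r} dz/(z-U) = 0` for `r < |U| < R`. The same for any two radii
shows that `K_R(U) = K_{R'}(U)` for `|U| < R < R'` (for `|U| > r` from the formula, then by the
identity theorem, or directly since `M(z) z/(z-U)` is holomorphic on the annulus `R ≤ |z| ≤ R'`).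
So `K(U) := K_{|U|+r+1}(U)` is entire and equals `K_R(U)` on `|U| < R`. For `|U| ≥ r+1`:
`|K(U) - M(U)| = |(2πi)^(-1) ∮_{|z|=r} M(z)/(z-U) dz| ≤ r max_{|z|=r} |M|`. -/
def St_LAU : Prop :=
  ∀ (L : ℝ) (m : ℂ → ℂ), DifferentiableOn ℂ m (Hp L) → (∀ y ∈ Hp L, m (y + tpi) = m y) →
    ∃ K : ℂ → ℂ, Differentiable ℂ K ∧ ∃ C L' : ℝ, ∀ y : ℂ, L' ≤ y.re → ‖m y - K (exp y)‖ ≤ C

/-- **DPER** (entire functions with the periods `2πi`, `2πi α`, `α` not rational, are constant).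
Proof. If `Im α ≠ 0`: every `z` is `2πi (x + y α)` with real `x, y`; subtracting the periods
`2πi (⌊x⌋ + ⌊y⌋ α)` the value `L z` is a value on the compact set
`{2πi (x + y α) : x, y ∈ [0,1]}`; so `L` is bounded and Liouville applies. If `α` is real:
for every `n ≥ 1` Dirichlet (`Real.exists_int_int_abs_mul_sub_le`) gives integers `0 < k ≤ n`, `j`
with `|k α - j| ≤ 1/(n+1)`, and `k α - j ≠ 0` by `Irr α`. So there are nonzero periods
`ε_n = 2πi (k α - j) → 0`, and the function `z ↦ L(U + z) - L(U)` has zeros `ε_n ≠ 0` accumulating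
at `0`; by the identity theorem it vanishes identically. -/
def St_DPER : Prop :=
  ∀ (α : ℂ) (L : ℂ → ℂ), Irr α → Differentiable ℂ L → (∀ z, L (z + tpi) = L z) →
    (∀ z, L (z + tpi * α) = L z) → ∀ z w, L z = L w

/-- **POK** (entire functions with two polynomial differences). Use `St_DPER`.
Proof. If `N` exceeds the degrees of both polynomials, the `N`-th derivative of `K` has the periods
`2πi` and `2πi α`, so it is constant by DPER, and `K` is a polynomial (all the iterated derivatives of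
order `> N` vanish at `0`; Taylor series). -/
def St_POK : Prop :=
  ∀ (α : ℂ) (K : ℂ → ℂ), Irr α → Differentiable ℂ K →
    (∃ R : ℂ[X], ∀ U, K U - K (U - tpi) = R.eval U) →
    (∃ R : ℂ[X], ∀ U, K U - K (U - tpi * α) = R.eval U) → ∃ Q : ℂ[X], ∀ U, K U = Q.eval U

/-- **KK** (from almost periodic behaviour in `y` to a function of `P`). Use `St_SG`, `St_POL`,
`St_LAU`.
Proof. Let `d = natDegree P`, `m(y) = (1/d) Σ_{k<d} q(y + 2πi k)` on `Hp L`; `q(y + 2πi d) = q(y)`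
by `Br.per`, so `m(y + 2πi) = m(y)`, and LAU gives `K` with `|m(y) - K(exp y)| ≤ C` for large
`Re y`. By hypothesis `|q y - m y| ≤ C exp(N Re y)`. So for large `Re y`
`|q(y) - K(exp y)| ≤ C' exp(N Re y)`. For large `|s|` there is `y` with `s = t y`, `Re y` large
(`Br.cov`), and `exp y = P(s)`: `|p(s) - K(P(s))| ≤ C' |P(s)|^N ≤ C'' (1 + |s|^(dN))`; by continuity
the same for all `s`, so by POL `p - K ∘ P` is a polynomial `Q` of degree `≤ d N`.
Second part: `K(exp y) - K(exp y - l) = K(exp y) - K(exp(sg l y))` is within `2C` of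
`m(y) - m(sg l y) = (1/d) Σ_{k<d} (q(y + 2πi k) - q(sg l (y + 2πi k)))` (SG (e)), which is at most
`C exp(N Re y)` for large `Re y`. So `|K(U) - K(U - l)| ≤ C' |U|^N` for large `|U|`
(`U = exp y`, `y = log U`), hence `≤ C''(1+|U|^N)` for all `U`, and POL applies. -/
def St_KK : Prop :=
  ∀ (P : ℂ[X]) (L : ℝ) (t p q : ℂ → ℂ), 1 ≤ P.natDegree →
    Br (fun s => P.eval s) P.natDegree L t → Differentiable ℂ p → (∀ y ∈ Hp L, q y = p (t y)) →
    ∀ N : ℕ,
    (∀ k : ℕ, k < P.natDegree → ∃ C L' : ℝ, ∀ y : ℂ, L' ≤ y.re →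
      ‖q y - q (y + tpi * k)‖ ≤ C * Real.exp (N * y.re)) →
    ∃ K : ℂ → ℂ, Differentiable ℂ K ∧
      (∃ Q : ℂ[X], Q.natDegree ≤ P.natDegree * N ∧ ∀ s, p s = K (P.eval s) + Q.eval s) ∧
      ∀ l : ℂ, (∃ C L' : ℝ, ∀ y : ℂ, L' ≤ y.re → ‖q y - q (sg l y)‖ ≤ C * Real.exp (N * y.re)) →
        ∃ R : ℂ[X], R.natDegree ≤ N ∧ ∀ U, K U - K (U - l) = R.eval U

end Pool.Agent.ECF
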