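import Pool.Agent.ECF.StA

/-!
# ECF, statements B: the rational case, and the separation data of the irrational case
-/

set_option autoImplicit false

open Complex Polynomial Metric

namespace Pool.Agent.ECF

/-- **RA** (bounded differences in the rational case). Use `St_OMT`, `St_SG`.
Proof. `n ≠ 0`: on a half-plane `Hp L1` with `L1 ≥ L + 1`, `L1 ≥ Ls (tpi n) + 1`,
`y' = sg (tpi n) y + tpi k` lies in `Hp L` and `exp y - exp y' = tpi n`. So
`u(y) = (q y - q y')/tpi` omits all the integers `m` (else the hypothesis is violated, as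
`(m,n) ≠ (0,0)`). It is holomorphic and `u(y + tpi d) = u(y)`. OMT with `c = 0` gives
`|u - c0| ≤ C exp(-Re y/d) ≤ C'`, so `u` is bounded.
`n = 0`: with `y1 = sg tpi y`, `sg (-tpi) y1 = sg 0 y = y`, so
`q y - q(y + tpi k) = (q y - q y1) + (q y1 - q(sg (-tpi) y1 + tpi k))`, both bounded. -/
def St_RA : Prop :=
  ∀ (d : ℕ) (L : ℝ) (q : ℂ → ℂ), 1 ≤ d → DifferentiableOn ℂ q (Hp L) →
    (∀ y ∈ Hp L, q (y + tpi * d) = q y) →
    (∀ y ∈ Hp L, ∀ y' ∈ Hp L, ∀ m n : ℤ, ¬ (m = 0 ∧ n = 0) →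
      ¬ (exp y - exp y' = tpi * n ∧ q y - q y' = tpi * m)) →
    ∀ n k : ℤ, ∃ C L' : ℝ, ∀ y : ℂ, L' ≤ y.re → ‖q y - q (sg (tpi * n) y + tpi * k)‖ ≤ C

/-- **RAT** (the rational case on a curve). Use `St_BR`, `St_RA`, `St_KK`.
Proof. Take `L, t` from BR and `q = p ∘ t` on `Hp L`. `P(t y) - P(t y') = exp y - exp y'`, so the
hypothesis on `p, P` gives the one of RA. RA with `n = 0` gives the hypothesis of KK with `N = 0`
(`sg 0 y = y`), so `p = K ∘ P + Q`, `Q` constant, and RA with `n = 1, k = 0` gives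
`K(U) - K(U - tpi) = r` constant. Put `c = r/tpi`, `k(U) = K(U) + Q - c U`; then
`k(U + tpi) - k(U) = r - c tpi = 0` and `p = c P + k ∘ P`. -/
def St_RAT : Prop :=
  ∀ (P : ℂ[X]) (p : ℂ → ℂ), 1 ≤ P.natDegree → Differentiable ℂ p →
    (∀ (s t : ℂ) (m n : ℤ), ¬ (m = 0 ∧ n = 0) →
      ¬ (P.eval s - P.eval t = tpi * n ∧ p s - p t = tpi * m)) →
    ∃ (c : ℂ) (k : ℂ → ℂ), Differentiable ℂ k ∧ (∀ U, k (U + tpi) = k U) ∧
      ∀ s, p s = c * P.eval s + k (P.eval s)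

/-- **FR** (no curve with `b ∘ ψ` polynomial). Use `St_RAT` and
`Pool.Agent.Helper86.FB.no_curve` (file `Pool/Agent/Helper86/FBCore.lean`; its `uu a b α β p` is
`α * a p + β * b p`).
Proof. If `P` has degree `0`, `b ∘ ψ` is constant and `no_curve` with `(α, β) = (0, 1)` makes `ψ`
constant. Otherwise apply RAT to `p = a ∘ ψ`: if `P(s) - P(t) = tpi n` and `p(s) - p(t) = tpi m` then
the values of `F` at `ψ s`, `ψ t` agree, so `ψ s = ψ t` and `m = n = 0`. So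
`a ∘ ψ = c P + k(P)`, `k` entire with period `2πi`. Put `a' = a - k ∘ b`. The map
`(exp a', exp b)` is injective: `exp b(x) = exp b(x')` gives `b x - b x' ∈ tpi ℤ`,
`k(b x) = k(b x')`, then `exp a(x) = exp a(x')`. And `a' ∘ ψ - c b ∘ ψ = 0`, so `no_curve` for
`a', b`, `(α, β) = (1, -c)` makes `ψ` constant. -/
def St_FR : Prop :=
  ∀ (a b : ℂ × ℂ → ℂ) (ψ : ℂ → ℂ × ℂ) (P : ℂ[X]), Differentiable ℂ a → Differentiable ℂ b →
    (Function.Injective fun x => (exp (a x), exp (b x))) → Differentiable ℂ ψ →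
    (∃ s s', ψ s ≠ ψ s') → (∀ s, b (ψ s) = P.eval s) → False

/-- **FM** (no curve with `m a + n b` polynomial, `m, n` integers). Use `St_FR`.
Proof. Let `g = gcd(m,n) ≥ 1`, `m = g m'`, `n = g n'`, `u m' + v n' = 1`. Put
`a' = v a - u b`, `b' = m' a + n' b`. Then `a = n' a' + u b'`, `b = -m' a' + v b'` (inverse
integer matrix, determinant `1`), so equal values of
`(exp a', exp b')` give equal values of `(exp a, exp b)` and `(exp a', exp b')` is injective.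
`b' ∘ ψ = P/g`. Apply FR to `a', b'` and `P/g`. -/
def St_FM : Prop :=
  ∀ (a b : ℂ × ℂ → ℂ) (ψ : ℂ → ℂ × ℂ) (P : ℂ[X]) (m n : ℤ), ¬ (m = 0 ∧ n = 0) →
    Differentiable ℂ a → Differentiable ℂ b →
    (Function.Injective fun x => (exp (a x), exp (b x))) → Differentiable ℂ ψ →
    (∃ s s', ψ s ≠ ψ s') → (∀ s, m * a (ψ s) + n * b (ψ s) = P.eval s) → False

/-- **TRI** (three zero-free functions with `X + Y = Z`). Use `St_OMT`, `St_LOG`.
Proof. Let `g` be a logarithm of `X/Z` on `Hp L` (LOG, `Hp L` is open and convex), `u = g/tpi`.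
If `u(y) = n ∈ ℤ` then `X = Z` at `y` and `Y = 0`, excluded; so `u` omits the integers.
`u(y + tpi d) - u(y)` is an integer for every `y` and continuous on the connected set `Hp L`, so it
is a constant integer `κ`. OMT with `c = κ`: `|u - κ y/(tpi d) - c0| ≤ C exp(-Re y/d)` for
`Re y ≥ L'`. Take `h = g = tpi u` on `Hp (max L L')`, the constant `tpi c0`. -/
def St_TRI : Prop :=
  ∀ (d : ℕ) (L : ℝ) (X Y Z : ℂ → ℂ), 1 ≤ d → DifferentiableOn ℂ X (Hp L) →
    DifferentiableOn ℂ Z (Hp L) → (∀ y ∈ Hp L, X y ≠ 0 ∧ Y y ≠ 0 ∧ Z y ≠ 0) →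
    (∀ y ∈ Hp L, X (y + tpi * d) = X y ∧ Z (y + tpi * d) = Z y) →
    (∀ y ∈ Hp L, X y + Y y = Z y) → Cmp d X Z

/-- **FZ** (the functions `fz`: holomorphic, periodic, zero-free, cocycle relation). Use `St_SG`.
Proof. Write `λ = lam α m n`, `σ y = sg λ y + tpi k`. For `Re y > L' ≥ max(L, Ls λ) + 1`,
`σ y ∈ Hp L` and `exp y - exp(σ y) = λ`, `σ(y + tpi d) = σ y + tpi d`. If `fz q α m n k y = 0` then
`q y - q (σ y) = tpi m`: excluded by `Dat.sep` if `(m,n) ≠ (0,0)`. Cocycle: with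
`σ' y = sg λ' y + tpi k'`, `σ'(σ y) = sg λ' (sg λ y) + tpi (k + k') = sg (λ+λ') y + tpi (k+k')` for
large `Re y` (SG (e), (f)), and `lam α m n + lam α m' n' = lam α (m+m') (n+n')`. -/
def St_FZ : Prop :=
  ∀ (α : ℂ) (d : ℕ) (L : ℝ) (q : ℂ → ℂ), Dat α d L q →
    (∀ m n k : ℤ, ∃ L' : ℝ, DifferentiableOn ℂ (fz q α m n k) (Hp L') ∧
      (∀ y ∈ Hp L', fz q α m n k (y + tpi * d) = fz q α m n k y) ∧
      (¬ (m = 0 ∧ n = 0) → ∀ y ∈ Hp L', fz q α m n k y ≠ 0)) ∧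
    (∀ m n k m' n' k' : ℤ, ∃ L' : ℝ, ∀ y ∈ Hp L',
      fz q α m n k y + fz q α m' n' k' (sg (lam α m n) y + tpi * k) =
        fz q α (m + m') (n + n') (k + k') y)

/-- **CMT** (`Cmp d` is an equivalence relation on functions, in the weak sense needed).
Proof. `h = 0`; `h ↦ -h`; sum of the two `h` (on the smaller half-plane). Last part: `f` and `f1`
agree on some half-plane. -/
def St_CMT : Prop :=
  ∀ d : ℕ, (∀ f : ℂ → ℂ, Cmp d f f) ∧ (∀ f g : ℂ → ℂ, Cmp d f g → Cmp d g f) ∧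
    (∀ f g k : ℂ → ℂ, Cmp d f g → Cmp d g k → Cmp d f k) ∧
    (∀ f f1 g : ℂ → ℂ, (∃ L : ℝ, ∀ y ∈ Hp L, f y = f1 y) → Cmp d f g → Cmp d f1 g)

/-- **CMS** (all the zero-free `fz` are comparable, also after a shift). Use `St_TRI`, `St_FZ`,
`St_CMT`, `St_SG`.
Proof. Let `(m,n)`, `(m',n')` and the sum be nonzero, `σ y = sg (lam α m n) y + tpi k`. On a common
half-plane `X = fz m n k`, `Y = fz m' n' k' ∘ σ`, `Z = fz (m+m') (n+n') (k+k')` are holomorphic,
zero-free, of period `tpi d` (`σ(y + tpi d) = σ y + tpi d`, `σ y` is in the half-plane of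
`fz m' n' k'` for large `Re y`), and `X + Y = Z` (FZ). TRI gives `Cmp X Z`, and (with
the roles of `X, Y` exchanged) `Cmp Y Z`: the second claim of the statement. For the first claim,
`Cmp (fz m n k) (fz m' n' k')` for all nonzero `(m,n)`, `(m',n')`: if they differ, use `Cmp X Z` with
`(m'-m, n'-n, k'-k)` in place of `(m',n',k')`; if they are equal, go through a third nonzero pair
different from both and transitivity. -/
def St_CMS : Prop :=
  ∀ (α : ℂ) (d : ℕ) (L : ℝ) (q : ℂ → ℂ), Dat α d L q →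
    (∀ m n k m' n' k' : ℤ, ¬ (m = 0 ∧ n = 0) → ¬ (m' = 0 ∧ n' = 0) →
      Cmp d (fz q α m n k) (fz q α m' n' k')) ∧
    (∀ m n k m' n' k' : ℤ, ¬ (m = 0 ∧ n = 0) → ¬ (m' = 0 ∧ n' = 0) →
      ¬ (m + m' = 0 ∧ n + n' = 0) →
      Cmp d (fun y => fz q α m' n' k' (sg (lam α m n) y + tpi * k))
        (fz q α (m + m') (n + n') (k + k')))

/-- **WND** (no winding between `exp e` and its shift). Use `St_SG`.
Proof. `e(y + tpi d) - e(y)` lies in `2πi ℤ` and is continuous on the connected set `Hp L`, so it is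
a constant `w`. For large `Re y` put `r(y) = e(sg l y) - e(y)`; `sg l (y + tpi d) = sg l y + tpi d`
gives `r(y + tpi d) = r(y)`. By `Cmp`, `exp(r y) = exp(h y)` on some `Hp L1`, so `h - r` is a
constant in `2πi ℤ` on `Hp L1`, so `h(y + tpi d) = h(y)`. Then
`κ (tpi d) N/d = (h(y + N tpi d) - h(y)) - (error)`, with the error at most `2 C exp(-Re y/d)` for
all `N ∈ ℕ`: so `κ = 0`. Hence `|h y - c| ≤ C exp(-Re y/d)` and the same for `r` with another
constant `c`. -/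
def St_WND : Prop :=
  ∀ (d : ℕ) (L : ℝ) (e : ℂ → ℂ) (l : ℂ), 1 ≤ d → DifferentiableOn ℂ e (Hp L) →
    (∀ y ∈ Hp L, exp (e (y + tpi * d)) = exp (e y)) →
    Cmp d (fun y => exp (e (sg l y))) (fun y => exp (e y)) →
    ∃ (c : ℂ) (C L' : ℝ), ∀ y : ℂ, L' ≤ y.re → ‖e (sg l y) - e y - c‖ ≤ C * Real.exp (-y.re / d)

/-- **EWD** (the logarithm of `fz q α 0 1 0` and its shifts). Use `St_CMS`, `St_CMT`, `St_FZ`,
`St_WND`, `St_LOG`, `St_SG`.
Proof. Let `E = fz q α 0 1 0`, zero-free on some `Hp L1` (FZ); `e` a logarithm (LOG).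
`e(y + tpi d) - e(y)` is a constant (as in WND), so `e'` has period `tpi d`. For
`(m,n)` with `(m,n) ≠ (0,0)` and `(m, n+1) ≠ (0,0)`, CMS gives
`Cmp (E ∘ sg (lam α m n)) (fz m (n+1) 0)` and `Cmp (fz m (n+1) 0) E`, and WND gives the claim. For
`(m,n) = (0,0)`: `sg 0 y = y`, trivial. For `(m,n) = (0,-1)`: `sg (-tpi) y = sg (λ2) (sg λ1 y)` for
large `Re y`, with `λ1 = lam α 1 0`, `λ2 = lam α (-1) (-1)`, both already treated; add the two
estimates, using `Re (sg λ1 y) ≥ Re y - 1`. -/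
def St_EWD : Prop :=
  ∀ (α : ℂ) (d : ℕ) (L : ℝ) (q : ℂ → ℂ), Dat α d L q →
    ∃ (e : ℂ → ℂ) (L1 : ℝ), DifferentiableOn ℂ e (Hp L1) ∧
      (∀ y ∈ Hp L1, exp (e y) = fz q α 0 1 0 y) ∧
      (∀ y ∈ Hp L1, deriv e (y + tpi * d) = deriv e y) ∧
      ∀ m n : ℤ, ∃ (c : ℂ) (C L' : ℝ), ∀ y : ℂ, L' ≤ y.re →
        ‖e (sg (lam α m n) y) - e y - c‖ ≤ C * Real.exp (-y.re / d)

end Pool.Agent.ECF
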