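import Pool.Agent.ECF.StB

/-!
# ECF, statements C: the irrational case and the theorem
-/

set_option autoImplicit false

open Complex Polynomial Metric

namespace Pool.Agent.ECF

/-- **DB1** (differentiating the shift relation). Use `St_SG`.
Proof. `r(y) = e(sg l y) - e(y) - c` is holomorphic on some `Hp L2`, `|r| ≤ C exp(-Re y/d)`;
Cauchy's estimate on discs of radius `1`: `|r'(y)| ≤ C exp(-(Re y - 1)/d)` on `Hp (L2+1)`. By SG (d)
`r'(y) = e'(sg l y) exp y/(exp y - l) - e'(y)`, and `exp(-sg l y) = 1/(exp y - l)`, so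
`e'(sg l y) exp(-sg l y) - e'(y) exp(-y) = exp(-y) r'(y)`. -/
def St_DB1 : Prop :=
  ∀ (d : ℕ) (L : ℝ) (e : ℂ → ℂ) (l : ℂ), 1 ≤ d → DifferentiableOn ℂ e (Hp L) →
    (∃ (c : ℂ) (C L' : ℝ), ∀ y : ℂ, L' ≤ y.re →
      ‖e (sg l y) - e y - c‖ ≤ C * Real.exp (-y.re / d)) →
    ∃ C L' : ℝ, ∀ y : ℂ, L' ≤ y.re →
      ‖deriv e (sg l y) * exp (-sg l y) - deriv e y * exp (-y)‖
        ≤ C * Real.exp (-(1 + 1 / (d : ℝ)) * y.re)

/-- **DB2** (almost doubly periodic functions on a half-plane are bounded). Use `St_DPER`.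
Proof. Let `H = {Im U > R}`. For `U ∈ H`, `j ≥ 0`: `|U + 2πi j| ≥ Im (U + 2πi j) ≥ R + 2πj`, so
`|G(U + 2πi(j+1)) - G(U + 2πi j)| ≤ C (R + 2πj)^(-θ)`, a summable majorant (`θ > 1`, `R > 0`),
uniformly in `U`. So `G(U + 2πi j)` converges uniformly on `H` to a holomorphic function `Λ`, with
`|G - Λ| ≤ C1 := C Σ_j (R + 2πj)^(-θ)` on `H`, and `Λ(U + 2πi) = Λ(U)`. If `U` and `U + 2πi α` are
in `H` then `|G(U + 2πi j + 2πi α) - G(U + 2πi j)| ≤ C |U + 2πi j|^(-θ) → 0`, so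
`Λ(U + 2πi α) = Λ(U)`. Define `Λe(U) = Λ(U + 2πi n)` for any natural `n` with
`Im U + 2πn > R` (independent of `n`): an entire extension of `Λ` (locally one `n` serves), with
`Λe(U + 2πi) = Λe(U)` and `Λe(U + 2πi α) = Λe(U)` (take `n` large). By DPER `Λe` is a constant `c`,
so `|G| ≤ |c| + C1` on `H`. -/
def St_DB2 : Prop :=
  ∀ (α : ℂ) (R θ C : ℝ) (G : ℂ → ℂ), Irr α → 0 < R → 1 < θ →
    DifferentiableOn ℂ G {U : ℂ | R < U.im} →
    (∀ U : ℂ, R < U.im → ‖G (U + tpi) - G U‖ ≤ C * ‖U‖ ^ (-θ)) →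
    (∀ U : ℂ, R < U.im → R < (U + tpi * α).im → ‖G (U + tpi * α) - G U‖ ≤ C * ‖U‖ ^ (-θ)) →
    ∃ M : ℝ, ∀ U : ℂ, R < U.im → ‖G U‖ ≤ M

/-- **DB3** (the function `D` is bounded). Use `St_DB2`, `St_SG`.
Proof. For `k = 0, ..., d-1` and `Im U > R` (`R` large, so that `log |U| ≥ log R` exceeds all the
thresholds) put `G(U) = D(log U + tpi k)`, principal logarithm, `0 < arg U < π`; holomorphic. For
`λ ∈ {-tpi, -tpi α}` and `U, U - λ` with imaginary parts `> R`: `sg λ (log U) = log(U - λ)` by SG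
(g) (`|log(U-λ) - log U| ≤ |log|U-λ| - log|U|| + π ≤ 5` for `R` large), so with
`y = log U + tpi k`: `sg λ y = log(U - λ) + tpi k` and
`|G(U - λ) - G(U)| = |D(sg λ y) - D y| ≤ C exp(-(1+1/d) log|U|) = C |U|^(-(1+1/d))`.
DB2 with `θ = 1 + 1/d` bounds `G` on `Im U > R`. In the same way `G(U) = D(log(-U) + tpi k)` with
`Im U > R` (`-U` in the lower half-plane, `-π < arg < 0`, `λ ∈ {tpi, tpi α}`) is bounded. So `D(y)`
is bounded for all `y` with `Re y` large and `|Im exp y| > R`: `y = log(exp y) + tpi j` for some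
integer `j`, and by the period `tpi d` one may take `0 ≤ j < d`. Finally let
`|Im exp y| ≤ R`, `Re y` large; take `n0 ∈ ℕ` with `2π n0 > 2R + 1` and `λ = -tpi n0`:
`exp(sg λ y) = exp y + 2πi n0` has imaginary part `> R`, so `D(sg λ y)` is bounded, and
`D(sg λ y) - D y` is bounded. -/
def St_DB3 : Prop :=
  ∀ (α : ℂ) (d : ℕ) (L : ℝ) (D : ℂ → ℂ), Irr α → 1 ≤ d → DifferentiableOn ℂ D (Hp L) →
    (∀ y ∈ Hp L, D (y + tpi * d) = D y) →
    (∀ m n : ℤ, ∃ C L' : ℝ, ∀ y : ℂ, L' ≤ y.re →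
      ‖D (sg (lam α m n) y) - D y‖ ≤ C * Real.exp (-(1 + 1 / (d : ℝ)) * y.re)) →
    ∃ M L' : ℝ, ∀ y : ℂ, L' ≤ y.re → ‖D y‖ ≤ M

/-- **EXN** (expansion of `e`). Use `St_PER`.
Proof. PER with `n = d`, `θ = 0`, `l = e'` (holomorphic on `Hp L`): a polynomial `Π` with
`|e'(y) - Π(exp(y/d))| ≤ C exp(-Re y/d)` for `Re y ≥ L+1`. Put `c0 = Π.coeff 0`,
`B = Σ_{j ≥ 1} (d/j) Π_j X^j`, so `(c0 y + B(exp(y/d)))' = Π(exp(y/d))`. Let
`r(y) = e(y) - c0 y - B(exp(y/d))`, `|r'(y)| ≤ C exp(-Re y/d)` for `Re y > L + 1`. Along horizontal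
segments `|r(x + iv) - r(x' + iv)| ≤ C d exp(-min(x,x')/d)`; along vertical ones
`|r(x + iv) - r(x + iv')| ≤ C |v - v'| exp(-x/d)`. So, with `L2 = L + 2`, for `Re y ≥ L2` and any
`x ≥ Re y`: `|r(y) - r(L2)| ≤ |r(y) - r(x + i Im y)| + |r(x + i Im y) - r(x)| + |r(x) - r(L2)|
≤ 2 C d exp(-L2/d) + C |Im y| exp(-x/d)`; let `x → ∞`. -/
def St_EXN : Prop :=
  ∀ (d : ℕ) (L M : ℝ) (e : ℂ → ℂ), 1 ≤ d → DifferentiableOn ℂ e (Hp L) →
    (∀ y ∈ Hp L, deriv e (y + tpi * d) = deriv e y) →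
    (∀ y ∈ Hp L, ‖deriv e y‖ ≤ M * Real.exp y.re) →
    ∃ (c0 : ℂ) (B : ℂ[X]) (C L' : ℝ), B.coeff 0 = 0 ∧
      ∀ y : ℂ, L' ≤ y.re → ‖e y - c0 * y - B.eval (exp (y / d))‖ ≤ C

/-- **CCA** (a polynomial of degree `≥ 1` is very negative in a sector).
Proof. `B = b X^j + lower`, `j ≥ 1`, `b ≠ 0`. Choose `θ0` with `arg b + j θ0/d = π` and
`δ = d π/(3j)`. For `|Im y - θ0| ≤ δ`:
`Re(b exp(j y/d)) = |b| exp(j Re y/d) cos(arg b + j Im y/d) ≤ -(|b|/2) exp(j Re y/d)`. The lower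
terms are at most `C exp((j-1) Re y/d)` for `Re y ≥ 0`, which is `≤ (|b|/4) exp(j Re y/d)` for large
`Re y`. So `Re B ≤ -(|b|/4) exp(j Re y/d) ≤ -(|b|/4) exp(Re y/d)`. -/
def St_CCA : Prop :=
  ∀ (d : ℕ) (B : ℂ[X]), 1 ≤ d → 1 ≤ B.natDegree → ∃ θ0 δ c' L' : ℝ, 0 < δ ∧ 0 < c' ∧
    ∀ y : ℂ, L' ≤ y.re → |y.im - θ0| ≤ δ →
      (B.eval (exp (y / d))).re ≤ -c' * Real.exp (y.re / d)

/-- **CCB** (the two differences cannot both be almost constant). Use `St_SG`.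
Proof. Put `A = tpi`, `B = tpi α`, `R = |A| + |B| + 1`. Given `ε > 0` (to be fixed with
`ε (|A| + |B|) < 4π²`) take `L'` from the hypothesis, and a real `r` so large that with
`y0 = r + i θ0`, `U0 = exp y0`, `|U0| = exp r > 4R`, and `Y(U) = y0 + log(U/U0)` one has, for
`U ∈ D(U0,R)`: `|Y(U) - y0| ≤ 2R/|U0| ≤ min(δ,1)`, `Re Y(U) ≥ r - 1 > max(L', L, Ls A, Ls B)`.
`Y` is holomorphic on the disc, `exp(Y U) = U`. Let `Q(U) = q(Y U)`, holomorphic on the disc, and `W`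
a primitive of `Q` (`Convex.exists_forall_hasDerivWithinAt`). If `U` and `U - l` are in the disc,
`l ∈ {A, B}`, then `sg l (Y U) = Y(U - l)` by SG (g) (`exp` of the right side is `U - l` and
`|Y(U - l) - Y U| ≤ 2`). So for such `U`: `|Q U - Q(U - A)| ≤ ε`, `|Q U - Q(U - B) - tpi| ≤ ε`.
`φ(z) = W z - W(z - B) - tpi z` has `|φ'| ≤ ε` on the segment `[U0 - A, U0]`, and
`χ(z) = W z - W(z - A)` has `|χ'| ≤ ε` on `[U0 - B, U0]`; all the points used are in the disc. Hence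
`|X - tpi A| ≤ ε |A|` and `|X| ≤ ε |B|` for
`X = W(U0) - W(U0 - B) - W(U0 - A) + W(U0 - A - B)`. But `|tpi A| = 4π²`. -/
def St_CCB : Prop :=
  ∀ (α : ℂ) (q : ℂ → ℂ) (L θ0 δ : ℝ), 0 < δ → DifferentiableOn ℂ q (Hp L) →
    ¬ (∀ ε : ℝ, 0 < ε → ∃ L' : ℝ, ∀ y : ℂ, L' ≤ y.re → |y.im - θ0| ≤ δ →
      ‖q y - q (sg tpi y)‖ ≤ ε ∧ ‖q y - q (sg (tpi * α) y) - tpi‖ ≤ ε)

/-- **EGR** (in the irrational case all the differences grow polynomially). Use `St_EWD`, `St_DB1`,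
`St_DB3`, `St_EXN`, `St_CCA`, `St_CCB`, `St_CMS`, `St_FZ`, `St_SG`.
Proof. Take `e, L1` from EWD. `D(y) = e'(y) exp(-y)` is holomorphic on `Hp L1` with period `tpi d`,
and DB1 gives the hypothesis of DB3; so `|e'(y)| ≤ M exp(Re y)` for large `Re y`, and EXN gives
`c0, B` with `|e y - c0 y - B(exp(y/d))| ≤ C`.
`B = 0`: suppose not; then `1 ≤ B.natDegree` as `B.coeff 0 = 0`. Take `θ0, δ, c'` from CCA (decrease
`δ` to be `≤ 1`). For `|Im y - θ0| ≤ δ` and large `Re y`: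
`|exp(e y)| ≤ exp(C + |c0|(|Re y| + |θ0| + 1) - c' exp(Re y/d))`. For nonzero `(m,n)` by CMS
`fz m n 0 = exp(h) fz 0 1 0` with `|h y| ≤ |κ||y| + |c| + C`, so in the same region
`|fz m n 0 y| → 0` as `Re y → ∞`, uniformly in `|Im y - θ0| ≤ δ`. With `(m,n) = (0,1)` and `(1,0)`
this contradicts CCB (`lam α 0 1 = tpi`, `lam α 1 0 = tpi α`).
So `B = 0` and `|e y| ≤ C + |c0||y|`; for `0 ≤ Im y ≤ 2πd`, `Re y` large this gives
`|fz 0 1 0 y| = |exp(e y)| ≤ C exp(|c0| Re y)`, and by periodicity for all `Im y`. For nonzero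
`(m,n)`, `fz m n k = exp(h) fz 0 1 0` and the same argument (first `0 ≤ Im y ≤ 2πd`, then
periodicity of `fz m n k`) gives `|fz m n k y| ≤ C exp(N Re y)`, `N` natural. For `(m,n) = (0,0)`:
`fz 0 0 k y = fz 0 1 0 y + fz 0 (-1) k (sg tpi y)` (FZ), `Re (sg tpi y) ≤ Re y + 1`. -/
def St_EGR : Prop :=
  ∀ (α : ℂ) (d : ℕ) (L : ℝ) (q : ℂ → ℂ), Dat α d L q →
    ∀ m n k : ℤ, ∃ (N : ℕ) (C L' : ℝ), ∀ y : ℂ, L' ≤ y.re →
      ‖fz q α m n k y‖ ≤ C * Real.exp (N * y.re)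

/-- **IRR** (the irrational case on a curve: `p` is a polynomial). Use `St_BR`, `St_EGR`, `St_KK`,
`St_POK`, `St_SG`.
Proof. Take `L, t` from BR, `q = p ∘ t`, `d = natDegree P`. Then `Dat α d L q`: `sep` because
`P(t y) - P(t y') = exp y - exp y'`. By EGR there is one `N` (maximum over finitely many) such that
`fz q α 0 0 k` for `0 ≤ k < d`, `fz q α 0 1 0` and `fz q α 1 0 0` are `≤ C exp(N Re y)` for large
`Re y ≥ 0`. `sg 0 y = y`, so `fz q α 0 0 k y = q y - q(y + tpi k)` and KK gives `K, Q` with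
`p = K ∘ P + Q`, and the second part of KK with `l = tpi` and `l = tpi α` (the constant
`tpi m` in `fz q α 1 0 0` is absorbed) gives two polynomial differences; by POK `K` is a polynomial,
so `p` is. -/
def St_IRR : Prop :=
  ∀ (α : ℂ) (P : ℂ[X]) (p : ℂ → ℂ), Irr α → 1 ≤ P.natDegree → Differentiable ℂ p →
    (∀ (s t : ℂ) (m n : ℤ), ¬ (m = 0 ∧ n = 0) →
      ¬ (P.eval s - P.eval t = lam α m n ∧ p s - p t = tpi * m)) →
    ∃ Q : ℂ[X], ∀ s, p s = Q.eval s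

/-- **FIN** (no entire curve on which `α a + β b` is a polynomial). Use `St_IRR`, `St_FM` and
`Pool.Agent.Helper86.FB.no_curve`.
Proof. If `(α, β) = c (m, n)` with integers `(m,n) ≠ (0,0)` and complex `c ≠ 0`, apply FM to `P/c`.
Otherwise `β ≠ 0` and `α' = α/β` satisfies `Irr α'` (if `α' m + n = 0`, `(m,n) ≠ (0,0)`, then
`m ≠ 0` and `(α, β) = (β/m) (-n, m)`). Put `P' = P/β`: `α' a + b = P'` along `ψ`. If `P'` has degree
`0`, `no_curve` makes `ψ` constant. Otherwise let `p = a ∘ ψ`: if `P'(s) - P'(t) = tpi (α' m + n)`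
and `p(s) - p(t) = tpi m`, then `b(ψ s) - b(ψ t) = tpi n`, so `F` agrees at `ψ s`, `ψ t`,
`ψ s = ψ t`, `m = n = 0`. By IRR `a ∘ ψ` is a polynomial `Q`, `b ∘ ψ = P' - α' Q` is a polynomial,
and FM with `(m,n) = (0,1)` applies. -/
def St_FIN : Prop :=
  ∀ (a b : ℂ × ℂ → ℂ) (ψ : ℂ → ℂ × ℂ) (P : ℂ[X]) (α β : ℂ), ¬ (α = 0 ∧ β = 0) →
    Differentiable ℂ a → Differentiable ℂ b →
    (Function.Injective fun x => (exp (a x), exp (b x))) → Differentiable ℂ ψ →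
    (∃ s s', ψ s ≠ ψ s') → (∀ s, α * a (ψ s) + β * b (ψ s) = P.eval s) → False

end Pool.Agent.ECF
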