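import Pool.Agent.ECF.StB

/-!
# ECF, TRI: three zero-free functions with `X + Y = Z` (helper4)
-/

set_option autoImplicit false

open Complex

namespace Pool.Agent.ECF

namespace TRIx

theorem isOpen_Hp (L : ℝ) : IsOpen (Hp L) := isOpen_lt continuous_const Complex.continuous_re

theorem tpi_ne : tpi ≠ 0 := by
  unfold tpi
  simp [Real.pi_ne_zero]

theorem shift_re (y : ℂ) (n : ℕ) : (y + tpi * (n : ℂ)).re = y.re := by
  unfold tpi
  simp

theorem exp_one {x : ℂ} (h : exp x = 1) : ∃ n : ℤ, x = tpi * n := by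
  obtain ⟨n, hn⟩ := Complex.exp_eq_one_iff.1 h
  exact ⟨n, by rw [hn, tpi]; ring⟩

theorem exp_int (n : ℤ) : exp (tpi * n) = 1 := by
  rw [Complex.exp_eq_one_iff]
  exact ⟨n, by rw [tpi]; ring⟩

/-- a holomorphic function with `exp f = 1` on a connected open set is constant -/
theorem const_of_exp {U : Set ℂ} (hU : IsOpen U) (hc : IsPreconnected U) {f : ℂ → ℂ}
    (hf : DifferentiableOn ℂ f U) (h : ∀ y ∈ U, exp (f y) = 1) :
    ∀ x ∈ U, ∀ y ∈ U, f x = f y := by
  intro x hx y hy
  refine hU.is_const_of_deriv_eq_zero hc hf ?_ hx hy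
  intro z hz
  have hn : U ∈ nhds z := hU.mem_nhds hz
  have h1 : HasDerivAt (fun w => exp (f w)) (exp (f z) * deriv f z) z :=
    ((hf.differentiableAt hn).hasDerivAt).cexp
  have h2 : HasDerivAt (fun w => exp (f w)) 0 z := by
    refine (hasDerivAt_const z (1 : ℂ)).congr_of_eventuallyEq ?_
    filter_upwards [hn] with w hw using h w hw
  have h3 := h1.unique h2
  rw [h z hz, one_mul] at h3
  exact h3

end TRIx

open TRIx in
theorem thm_TRI (hO : St_OMT) (hG : St_LOG) : St_TRI := by
  intro d L X Y Z hd hX hZ hne hper hsum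
  have ht := tpi_ne
  have hd0 : (d : ℂ) ≠ 0 := by
    have : d ≠ 0 := by omega
    exact_mod_cast this
  obtain ⟨g, hg, hge⟩ := hG (Hp L) (fun y => X y / Z y) (isOpen_Hp L) (convex_halfSpace_re_gt L)
    (hX.div hZ fun y hy => (hne y hy).2.2) (fun y hy => div_ne_zero (hne y hy).1 (hne y hy).2.2)
  have hsh : ∀ y ∈ Hp L, y + tpi * d ∈ Hp L := fun y hy => by
    show L < (y + tpi * (d : ℂ)).re
    rw [shift_re]
    exact hy
  -- the constant winding number
  have hdD : DifferentiableOn ℂ (fun y => g (y + tpi * d) - g y) (Hp L) := by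
    refine DifferentiableOn.sub ?_ hg
    exact hg.comp (differentiableOn_id.add_const _) hsh
  have hexp : ∀ y ∈ Hp L, exp (g (y + tpi * d) - g y) = 1 := by
    intro y hy
    rw [Complex.exp_sub, hge y hy, hge _ (hsh y hy), (hper y hy).1, (hper y hy).2]
    exact div_self (div_ne_zero (hne y hy).1 (hne y hy).2.2)
  have hcon := const_of_exp (isOpen_Hp L) (convex_halfSpace_re_gt L).isPreconnected hdD hexp
  let y0 : ℂ := ((L + 1 : ℝ) : ℂ)
  have hy0 : y0 ∈ Hp L := by
    show L < y0.re
    simp [y0]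
  obtain ⟨κ, hκ⟩ := exp_one (hexp y0 hy0)
  have hk : ∀ y ∈ Hp L, g (y + tpi * d) = g y + tpi * κ := by
    intro y hy
    have h1 := hcon y hy y0 hy0

    rw [hκ] at h1
    linear_combination h1
  obtain ⟨c0, C, L', hC⟩ := hO d L (fun y => g y / tpi) κ hd (hg.div_const _) (by
    intro y hy n hn
    have h1 : g y = tpi * n := by
      have h2 : g y / tpi = n := hn
      rw [div_eq_iff ht] at h2
      rw [h2]; ring
    have h2 := hge y hy
    rw [h1, exp_int] at h2
    have h3 : X y = Z y := by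
      rw [eq_comm, div_eq_one_iff_eq (hne y hy).2.2] at h2
      exact h2
    have h4 := hsum y hy
    rw [h3] at h4
    exact (hne y hy).2.1 (by linear_combination h4)) (by
    intro y hy
    show g (y + tpi * d) / tpi = g y / tpi + κ
    rw [hk y hy]
    field_simp)
  refine ⟨κ, tpi * c0, ‖tpi‖ * C, max L L', g, hg.mono ?_, fun y hy => ⟨?_, ?_⟩⟩
  · intro y hy
    exact (le_max_left L L').trans_lt hy
  · have hy' : y ∈ Hp L := (le_max_left L L').trans_lt hy
    rw [hge y hy', div_mul_cancel₀ _ (hne y hy').2.2]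
  · have hy' : L' ≤ y.re := ((le_max_right L L').trans_lt hy).le
    have h1 := hC y hy'
    have h2 : g y - κ * y / d - tpi * c0 = tpi * (g y / tpi - κ / (tpi * d) * y - c0) := by
      field_simp
    rw [h2, norm_mul, mul_assoc]
    exact mul_le_mul_of_nonneg_left h1 (norm_nonneg _)

end Pool.Agent.ECF
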